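import Pool.Agent.Q297.WT.Mk

/-!
WT: products of i.i.d. sequences, `S_PRD`; blocks of Brownian motion, `S_BLK`.
-/

open MeasureTheory ProbabilityTheory Set Filter Topology
open scoped ENNReal NNReal unitInterval
open Q297.PathC Q297.Prepend

namespace Q297.WT

theorem prd : S_PRD := by
  intro A B _ _ μ _ ν _
  apply Measure.eq_infinitePi
  intro s t ht
  have hmeas : Measurable fun (p : (ℕ → A) × (ℕ → B)) (i : ℕ) => (p.1 i, p.2 i) := by fun_prop
  have hpi : MeasurableSet (Set.pi (s : Set ℕ) t) := MeasurableSet.pi s.countable_toSet (fun i _ => ht i)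
  rw [Measure.map_apply hmeas hpi, Measure.prod_apply (hmeas hpi)]
  have e1 : ∀ x : ℕ → A, (Measure.infinitePi fun _ : ℕ => ν)
      (Prod.mk x ⁻¹' ((fun (p : (ℕ → A) × (ℕ → B)) (i : ℕ) => (p.1 i, p.2 i)) ⁻¹' Set.pi (s : Set ℕ) t)) =
      ∏ i ∈ s, ν (Prod.mk (x i) ⁻¹' t i) := by
    intro x
    rw [← Measure.infinitePi_pi (μ := fun _ : ℕ => ν) (s := s) (t := fun i => Prod.mk (x i) ⁻¹' t i)
      (fun i _ => measurable_prodMk_left (ht i))]
    rfl
  simp_rw [e1]
  have hf : ∀ i, Measurable fun a : A => ν (Prod.mk a ⁻¹' t i) := fun i =>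
    measurable_measure_prodMk_left (ht i)
  have hind := iIndepFun_infinitePi (P := fun _ : ℕ => μ) (X := fun i (a : A) => ν (Prod.mk a ⁻¹' t i)) hf
  rw [lintegral_prod_eq_prod_lintegral_of_indepFun s _ hind
    (fun i => (hf i).comp (measurable_pi_apply i))]
  refine Finset.prod_congr rfl fun i _ => ?_
  rw [Measure.prod_apply (ht i)]
  have := Measure.infinitePi_map_eval (fun _ : ℕ => μ) i
  conv_rhs => rw [← this]
  rw [lintegral_map (hf i) (measurable_pi_apply i)]

variable {W : Measure Path}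

lemma measurable_blk (i : ℕ) : Measurable (blk i) :=
  measurable_of_eval fun _ => (measurable_eval _).sub (measurable_eval _)

lemma blk_succ (i : ℕ) (ω : Path) : blk (i + 1) ω = blk i (shift 2 ω) := by
  ext u
  change ω (2 * ((i + 1 : ℕ) : ℝ≥0) + min u 2) - ω (2 * ((i + 1 : ℕ) : ℝ≥0)) =
    (ω (2 + (2 * (i : ℝ≥0) + min u 2)) - ω 2) - (ω (2 + 2 * (i : ℝ≥0)) - ω 2)
  have e : (2 : ℝ≥0) * ((i + 1 : ℕ) : ℝ≥0) = 2 + 2 * (i : ℝ≥0) := by push_cast; ring
  rw [e, add_assoc]
  ring

lemma blk_zero_stop (ω : Path) : blk 0 (stop 2 ω) = blk 0 ω := by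
  ext u
  change ω (min (2 * ((0 : ℕ) : ℝ≥0) + min u 2) 2) - ω (min (2 * ((0 : ℕ) : ℝ≥0)) 2) =
    ω (2 * ((0 : ℕ) : ℝ≥0) + min u 2) - ω (2 * ((0 : ℕ) : ℝ≥0))
  simp

lemma blk_range (hW : IsW W) (n : ℕ) : ∀ A : ℕ → Set Path, (∀ i, MeasurableSet (A i)) →
    W {ω | ∀ i < n, blk i ω ∈ A i} = ∏ i ∈ Finset.range n, (W.map (blk 0)) (A i) := by
  have hpr := isProb hW
  induction n with
  | zero =>
    intro A hA
    simp
  | succ n ih =>
    intro A hA
    set S : Set Path := {ω | ∀ i < n, blk i ω ∈ A (i + 1)} with hS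
    have hSm : MeasurableSet S := by
      have : S = ⋂ i ∈ {i : ℕ | i < n}, blk i ⁻¹' A (i + 1) := by ext ω; simp [hS]
      rw [this]
      exact MeasurableSet.biInter (to_countable _) fun i _ => measurable_blk i (hA _)
    have hset : {ω | ∀ i < n + 1, blk i ω ∈ A i} =
        stop 2 ⁻¹' (blk 0 ⁻¹' A 0) ∩ shift 2 ⁻¹' S := by
      ext ω
      simp only [mem_ofPred_eq, mem_inter_iff, mem_preimage, hS, blk_zero_stop]
      constructor
      · intro h
        refine ⟨h 0 (Nat.succ_pos n), fun i hi => ?_⟩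
        rw [← blk_succ]
        exact h (i + 1) (by omega)
      · rintro ⟨h0, h1⟩ i hi
        rcases i with _ | i
        · exact h0
        · rw [blk_succ]
          exact h1 i (by omega)
    rw [hset, (indep_stop hW 2).measure_inter_preimage_eq_mul _ _ (measurable_blk 0 (hA 0)) hSm]
    have e1 : W (shift 2 ⁻¹' S) = W S := by
      rw [← Measure.map_apply (measurable_shift 2) hSm, map_shift hW]
    have e2 : W (stop 2 ⁻¹' (blk 0 ⁻¹' A 0)) = (W.map (blk 0)) (A 0) := by
      rw [Measure.map_apply (measurable_blk 0) (hA 0)]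
      congr 1
      ext ω
      simp only [mem_preimage, blk_zero_stop]
    rw [e1, e2, ih (fun i => A (i + 1)) (fun i => hA _), Finset.prod_range_succ']
    exact mul_comm _ _

theorem blk_iid : S_BLK := by
  intro W hW
  have hpr := isProb hW
  have hp : IsProbabilityMeasure (W.map (blk 0)) :=
    Measure.isProbabilityMeasure_map (measurable_blk 0).aemeasurable
  apply Measure.eq_infinitePi
  intro s t ht
  classical
  have hmeas : Measurable fun (ω : Path) (i : ℕ) => blk i ω := measurable_pi_lambda _ measurable_blk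
  have hpi : MeasurableSet (Set.pi (s : Set ℕ) t) := MeasurableSet.pi s.countable_toSet (fun i _ => ht i)
  rw [Measure.map_apply hmeas hpi]
  obtain ⟨n, hn⟩ : ∃ n, ∀ i ∈ s, i < n := ⟨s.sup id + 1, fun i hi =>
    Nat.lt_succ_of_le (Finset.le_sup (f := id) hi)⟩
  set A : ℕ → Set Path := fun i => if i ∈ s then t i else univ with hA
  have hAm : ∀ i, MeasurableSet (A i) := fun i => by
    simp only [hA]; split_ifs
    · exact ht i
    · exact MeasurableSet.univ
  have h := blk_range hW n A hAm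
  have e1 : (fun (ω : Path) (i : ℕ) => blk i ω) ⁻¹' Set.pi (s : Set ℕ) t = {ω | ∀ i < n, blk i ω ∈ A i} := by
    ext ω
    simp only [mem_preimage, Set.mem_pi, Finset.mem_coe, mem_ofPred_eq, hA]
    constructor
    · intro h i _
      split_ifs with hi
      · exact h i hi
      · exact mem_univ _
    · intro h i hi
      have := h i (hn i hi)
      rwa [if_pos hi] at this
  rw [e1, h]
  have hsub : s ⊆ Finset.range n := fun i hi => Finset.mem_range.2 (hn i hi)
  rw [← Finset.prod_subset hsub]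
  · refine Finset.prod_congr rfl fun i hi => ?_
    simp only [hA, if_pos hi]
  · intro i _ hi
    simp only [hA, if_neg hi, measure_univ]

end Q297.WT
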