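import Pool.Agent.Q297.WT.Tms
import Pool.Agent.Q297.WT.Prd

/-!
WT: the random weight of a block (uses `S_YM`).
-/

open MeasureTheory ProbabilityTheory Set Filter Topology
open scoped ENNReal NNReal unitInterval
open Q297.PathC Q297.Prepend

namespace Q297.WT

variable {W : Measure Path}

lemma st_le (s : I) : st s ≤ 1 := by
  have h := s.2.2
  rw [← NNReal.coe_le_coe]
  change (s : ℝ) / 2 ≤ 1
  linarith

lemma blk_shift (s : I) (ω : Path) {u : ℝ≥0} (hu : u ≤ 1) :
    shift (st s) (blk 0 ω) u = shift (st s) ω u := by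
  have h1 : st s + u ≤ 2 := by
    calc st s + u ≤ 1 + 1 := add_le_add (st_le s) hu
      _ = 2 := by norm_num
  have h2 : st s ≤ 2 := le_self_add.trans h1
  change (ω (2 * ((0 : ℕ) : ℝ≥0) + min (st s + u) 2) - ω (2 * ((0 : ℕ) : ℝ≥0))) -
    (ω (2 * ((0 : ℕ) : ℝ≥0) + min (st s) 2) - ω (2 * ((0 : ℕ) : ℝ≥0))) = ω (st s + u) - ω (st s)
  rw [min_eq_left h1, min_eq_left h2]
  simp

lemma lam_congr {θ : ℝ → ℝ≥0∞} {ε : ℝ} {x y : Path} (h : ∀ u ≤ 1, x u = y u) :
    lam θ ε x = lam θ ε y := by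
  unfold lam
  have h1 : x ∈ alive ε 1 ↔ y ∈ alive ε 1 := by
    simp only [alive, mem_ofPred_eq]
    exact forall₂_congr fun v hv => by rw [h v hv]
  by_cases hx : x ∈ alive ε 1
  · rw [indicator_of_mem hx, indicator_of_mem (h1.1 hx), h 1 le_rfl]
  · rw [indicator_of_notMem hx, indicator_of_notMem (fun hy => hx (h1.2 hy))]

lemma lam_blk (θ : ℝ → ℝ≥0∞) (ε : ℝ) (s : I) (ω : Path) :
    lam θ ε (shift (st s) (blk 0 ω)) = lam θ ε (shift (st s) ω) :=
  lam_congr fun _ hu => blk_shift s ω hu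

lemma tm_le {n : ℕ} (δ : Fin n → ℝ≥0) (i : Fin n) : tm δ i ≤ ∑ i, δ i := by
  induction n with
  | zero => exact i.elim0
  | succ n ih =>
    rw [sum_succ']
    refine Fin.cases ?_ (fun j => ?_) i
    · exact le_self_add
    · change δ 0 + tm (fun k => δ k.succ) j ≤ _
      exact add_le_add le_rfl (ih _ j)

lemma meas_wd : Measurable fun p : Path × I => wd p.1 (st p.2) := by
  refine measurable_of_eval fun u => ?_
  have h1 : Measurable fun p : Path × I => st p.2 := continuous_st.measurable.comp measurable_snd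
  exact (meas_eval2 measurable_fst (h1.add_const (un u))).sub (meas_eval2 measurable_fst h1)

lemma meas_norm3 : Measurable fun p : Path × Path × Path => norm3 p.1 p.2.1 p.2.2 := by
  refine measurable_of_eval fun u => ?_
  have m1 : Measurable fun p : Path × Path × Path => p.1 := measurable_fst
  have m2 : Measurable fun p : Path × Path × Path => p.2.1 := measurable_fst.comp measurable_snd
  have m3 : Measurable fun p : Path × Path × Path => p.2.2 := measurable_snd.comp measurable_snd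
  exact measurable_nrm' (measurable_ev m1 _) (measurable_ev m2 _) (measurable_ev m3 _)

lemma first_all (hW : IsW W) {θ : ℝ → ℝ≥0∞} (hθ : Wt θ) (J : Finset I) {F : (J → ℝ) → ℝ≥0}
    (hF : Continuous F) (hF1 : ∀ y, F y ≤ 1) :
    Tendsto (fun k : ℕ => ∫⁻ x, (∫⁻ s : I, (F (fun j => wd x (st s) j.1) : ℝ≥0∞) *
        lam θ (1 / ((k : ℝ) + 1)) (shift (st s) x)) ∂(W.map (blk 0))) atTop
      (𝓝 (∫⁻ p, (F (fun j => norm3 p.1 p.2.1 p.2.2 j.1) : ℝ≥0∞) *
        θ (nrm (p.1 1) (p.2.1 1) (p.2.2 1)) ∂(W.prod (W.prod W)))) := by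
  have hpr := isProb hW
  obtain ⟨n, δ, ι, hδ, hι⟩ := times J
  have hθm := hθ.cont.measurable
  have h := first_lim hW hθ δ hδ (F := fun y => F fun j => y (ι j)) (by fun_prop) (fun _ => hF1 _)
  have hFm : Measurable fun y => (F y : ℝ≥0∞) := hF.measurable.coe_nnreal_ennreal
  have m1 : Measurable fun p : Path × Path × Path => p.1 := measurable_fst
  have m2 : Measurable fun p : Path × Path × Path => p.2.1 := measurable_fst.comp measurable_snd
  have m3 : Measurable fun p : Path × Path × Path => p.2.2 := measurable_snd.comp measurable_snd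
  have e1 := lint3' W (f := fun p => (F (fun j => norm3 p.1 p.2.1 p.2.2 j.1) : ℝ≥0∞) *
        θ (nrm (p.1 1) (p.2.1 1) (p.2.2 1))) (by
    refine Measurable.mul (hFm.comp ?_) (hθm.comp (measurable_nrm' (measurable_ev m1 _)
        (measurable_ev m2 _) (measurable_ev m3 _)))
    exact measurable_pi_lambda _ fun j => (measurable_eval j.1).comp meas_norm3)
  rw [← e1]
  have e2 : ∀ (x y z : Path) (j : J), norm3 x y z j.1 = nrm (x (tm δ (ι j))) (y (tm δ (ι j)))
      (z (tm δ (ι j))) := fun x y z j => by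
    rw [hι]; rfl
  simp_rw [e2]
  refine h.congr fun k => ?_
  set ε := 1 / ((k : ℝ) + 1)
  let g : Path → ℝ≥0∞ := fun ω => (F (fun j => ω (tm δ (ι j))) : ℝ≥0∞) * lam θ ε ω
  have hg : Measurable g := by
    refine Measurable.mul (hFm.comp (measurable_pi_lambda _ fun j => measurable_eval _)) (meas_lam hθm ε)
  have e3 : ∀ (s : I) (ω : Path), (F (fun j => wd (blk 0 ω) (st s) j.1) : ℝ≥0∞) *
        lam θ ε (shift (st s) (blk 0 ω)) = g (shift (st s) ω) := by
    intro s ω
    rw [lam_blk]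
    have e4 : (fun j : J => wd (blk 0 ω) (st s) j.1) = fun j : J => shift (st s) ω (tm δ (ι j)) := by
      funext j
      rw [← blk_shift s ω (by rw [← hδ]; exact tm_le δ _), hι]
      rfl
    rw [e4]
  have hwdm : Measurable fun p : Path × I => (F (fun j => wd p.1 (st p.2) j.1) : ℝ≥0∞) *
        lam θ ε (shift (st p.2) p.1) := by
    refine Measurable.mul (hFm.comp ?_) ((meas_lam hθm ε).comp meas_shift2)
    exact measurable_pi_lambda _ fun j => (measurable_eval j.1).comp meas_wd
  rw [lintegral_map hwdm.lintegral_prod_right' (measurable_blk 0)]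
  simp_rw [e3]
  have hgm : Measurable fun p : Path × I => g (shift (st p.2) p.1) := hg.comp meas_shift2
  rw [lintegral_lintegral_swap hgm.aemeasurable]
  have e5 : ∀ s : I, ∫⁻ ω, g (shift (st s) ω) ∂W = ∫⁻ ω, g ω ∂W := fun s => by
    rw [← lintegral_map hg (measurable_shift _), map_shift hW]
  simp_rw [e5]
  rw [lintegral_const, measure_univ, mul_one]

/-- **the weight of a block** -/
lemma block_weight (hYM : S_YM) (hW : IsW W) {θ : ℝ → ℝ≥0∞} (hθ : Wt θ) :
    ∃ (G : Path → ℝ≥0∞) (τ : Path × I → I), Measurable G ∧ Measurable τ ∧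
      ∫⁻ x, G x ^ 2 ∂(W.map (blk 0)) < ∞ ∧
      ∀ H : C(I, ℝ) → ℝ≥0∞, Measurable H →
        ∫⁻ x, G x * (∫⁻ u : I, H (wd x (st (τ (x, u))))) ∂(W.map (blk 0)) =
          ∫⁻ p, θ (nrm (p.1 1) (p.2.1 1) (p.2.2 1)) * H (norm3 p.1 p.2.1 p.2.2) ∂(W.prod (W.prod W)) := by
  have hpr := isProb hW
  have hp : IsProbabilityMeasure (W.map (blk 0)) :=
    Measure.isProbabilityMeasure_map (measurable_blk 0).aemeasurable
  have hθm := hθ.cont.measurable
  obtain ⟨K, hK⟩ := hθ.bd
  obtain ⟨C, hC⟩ := l2b W hW θ K hθm hK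
  set m := W.map (blk 0) with hm
  have hlm : ∀ ε, Measurable fun p : Path × I => lam θ ε (shift (st p.2) p.1) := fun ε =>
    (meas_lam hθm ε).comp meas_shift2
  have hL : ∀ k : ℕ, ∫⁻ x, (∫⁻ s : I, lam θ (1 / ((k : ℝ) + 1)) (shift (st s) x)) ^ 2 ∂m ≤ C := by
    intro k
    rw [hm, lintegral_map ((hlm _).lintegral_prod_right'.pow_const 2) (measurable_blk 0)]
    simp_rw [lam_blk]
    refine hC _ (by positivity) ?_
    rw [div_le_one (by positivity)]
    have : (0 : ℝ) ≤ k := k.cast_nonneg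
    linarith
  obtain ⟨G, τ, hG, hτ, hG2, hlim⟩ := hYM Path m
    (fun k p => lam θ (1 / ((k : ℝ) + 1)) (shift (st p.2) p.1)) C (fun k => hlm _) hL
  refine ⟨G, τ, hG, hτ, hG2.trans_lt ENNReal.coe_lt_top, ?_⟩
  have m1 : Measurable fun p : Path × Path × Path => p.1 := measurable_fst
  have m2 : Measurable fun p : Path × Path × Path => p.2.1 := measurable_fst.comp measurable_snd
  have m3 : Measurable fun p : Path × Path × Path => p.2.2 := measurable_snd.comp measurable_snd
  have hθR : Measurable fun p : Path × Path × Path => θ (nrm (p.1 1) (p.2.1 1) (p.2.2 1)) :=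
    hθm.comp (measurable_nrm' (measurable_ev m1 _) (measurable_ev m2 _) (measurable_ev m3 _))
  have hw1 : Measurable fun e : Path × I => wd e.1 (st (τ e)) := by
    have : (fun e : Path × I => wd e.1 (st (τ e))) = (fun p : Path × I => wd p.1 (st p.2)) ∘
        fun e => (e.1, τ e) := rfl
    rw [this]
    exact meas_wd.comp (measurable_fst.prodMk hτ)
  set ν1 : Measure C(I, ℝ) := ((m.prod (volume : Measure I)).withDensity fun e => G e.1).map
    fun e => wd e.1 (st (τ e)) with hν1
  set ν2 : Measure C(I, ℝ) := ((W.prod (W.prod W)).withDensity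
    fun p => θ (nrm (p.1 1) (p.2.1 1) (p.2.2 1))).map fun p => norm3 p.1 p.2.1 p.2.2 with hν2
  have i1 : ∀ H : C(I, ℝ) → ℝ≥0∞, Measurable H → ∫⁻ f, H f ∂ν1 =
      ∫⁻ x, G x * (∫⁻ u : I, H (wd x (st (τ (x, u))))) ∂m := by
    intro H hH
    have a1 : Measurable fun e : Path × I => G e.1 := hG.comp measurable_fst
    have a2 : Measurable fun e : Path × I => H (wd e.1 (st (τ e))) := hH.comp hw1
    rw [hν1, lintegral_map hH hw1, lintegral_withDensity_eq_lintegral_mul _ a1 a2,
      lintegral_prod _ (a1.mul a2).aemeasurable]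
    refine lintegral_congr fun x => ?_
    exact lintegral_const_mul (G x) (f := fun u : I => H (wd x (st (τ (x, u)))))
      (a2.comp measurable_prodMk_left)
  have i2 : ∀ H : C(I, ℝ) → ℝ≥0∞, Measurable H → ∫⁻ f, H f ∂ν2 =
      ∫⁻ p, θ (nrm (p.1 1) (p.2.1 1) (p.2.2 1)) * H (norm3 p.1 p.2.1 p.2.2) ∂(W.prod (W.prod W)) := by
    intro H hH
    have a2 : Measurable fun p : Path × Path × Path => H (norm3 p.1 p.2.1 p.2.2) := hH.comp meas_norm3
    rw [hν2, lintegral_map hH meas_norm3, lintegral_withDensity_eq_lintegral_mul _ hθR a2]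
    rfl
  have key : ∀ (J : Finset I) (F : (J → ℝ) → ℝ≥0), Continuous F → (∀ y, F y ≤ 1) →
      ∫⁻ f, (F (fun j => f j.1) : ℝ≥0∞) ∂ν1 = ∫⁻ f, (F (fun j => f j.1) : ℝ≥0∞) ∂ν2 := by
    intro J F hF hF1
    have hFm : Measurable fun f : C(I, ℝ) => (F (fun j => f j.1) : ℝ≥0∞) :=
      hF.measurable.coe_nnreal_ennreal.comp (measurable_pi_lambda _ fun j => measurable_eval _)
    rw [i1 _ hFm, i2 _ hFm]
    have hl := first_all hW hθ J hF hF1
    refine (hlim (fun p => F (fun j => wd p.1 (st p.2) j.1)) ?_ (fun _ => hF1 _) ?_ _ hl).trans ?_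
    · exact hF.measurable.comp (measurable_pi_lambda _ fun j => (measurable_eval j.1).comp meas_wd)
    · intro x
      refine hF.comp (continuous_pi fun j => ?_)
      change Continuous fun s => x (st s + un j.1) - x (st s)
      have := continuous_st
      fun_prop
    · refine lintegral_congr fun p => mul_comm _ _
  have t2 : ν2 univ = 1 := by
    have := i2 (fun _ => 1) measurable_const
    simp only [mul_one, lintegral_one] at this
    rw [this, ← lint3' W hθR]
    have h := ev3 hW 1 0 0 0 hθm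
    simp only [zero_add] at h
    rw [h]
    exact hθ.one
  have t1 : ν1 univ = 1 := by
    have := key ∅ (fun _ => 1) continuous_const (fun _ => le_rfl)
    simp only [ENNReal.coe_one, lintegral_one] at this
    rw [this, t2]
  have f1 : IsFiniteMeasure ν1 := ⟨by rw [t1]; simp⟩
  have f2 : IsFiniteMeasure ν2 := ⟨by rw [t2]; simp⟩
  have heq : ν1 = ν2 := law_ext key
  intro H hH
  rw [← i1 H hH, ← i2 H hH, heq]

end Q297.WT
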