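import Pool.Agent.Q297.WT.Neg

/-!
WT: `E |ξ|^(-2) = 1` in dimension 3, `S_INV`.
-/

open MeasureTheory ProbabilityTheory Set Filter Topology
open scoped ENNReal NNReal unitInterval
open Q297.PathC Q297.Prepend

namespace Q297.WT

lemma inv_lap (r : ℝ) (hr : 0 ≤ r) :
    (ENNReal.ofReal r)⁻¹ = ∫⁻ l in Ioi (0 : ℝ), ENNReal.ofReal (Real.exp (-(l * r))) := by
  rcases hr.eq_or_lt with h | h
  · subst h
    simp
  · have h1 : IntegrableOn (fun l : ℝ => Real.exp (-(l * r))) (Ioi 0) := by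
      have := integrableOn_exp_mul_Ioi (a := -r) (by linarith) 0
      refine this.congr_fun (fun l _ => ?_) measurableSet_Ioi
      simp only
      congr 1; ring
    rw [← ofReal_integral_eq_lintegral_ofReal h1 (ae_of_all _ fun l => (Real.exp_pos _).le)]
    have h2 : ∫ l in Ioi (0 : ℝ), Real.exp (-(l * r)) = r⁻¹ := by
      have := integral_exp_mul_Ioi (a := -r) (by linarith) 0
      rw [mul_zero, Real.exp_zero, neg_div_neg_eq, one_div] at this
      rw [← this]
      refine setIntegral_congr_fun measurableSet_Ioi fun l _ => ?_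
      show Real.exp (-(l * r)) = Real.exp (-r * l)
      congr 1; ring
    rw [h2, ENNReal.ofReal_inv_of_pos h]

lemma lap1 {l : ℝ} (hl : 0 < l) : ∫⁻ y, ENNReal.ofReal (Real.exp (-(l * y ^ 2))) ∂(gaussianReal 0 1) =
    ENNReal.ofReal ((√(1 + 2 * l))⁻¹) := by
  have h1 : Integrable (fun y : ℝ => Real.exp (-(l * y ^ 2))) (gaussianReal 0 1) := by
    refine Integrable.of_bound (by fun_prop) 1 (ae_of_all _ fun y => ?_)
    rw [Real.norm_eq_abs, Real.abs_exp, Real.exp_le_one_iff]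
    have := sq_nonneg y
    nlinarith
  rw [← ofReal_integral_eq_lintegral_ofReal h1 (ae_of_all _ fun l => (Real.exp_pos _).le)]
  congr 1
  rw [integral_gaussianReal_eq_integral_smul (by norm_num)]
  have e : ∀ y : ℝ, gaussianPDFReal 0 1 y • Real.exp (-(l * y ^ 2)) =
      (√(2 * Real.pi))⁻¹ * Real.exp (-(1 / 2 + l) * y ^ 2) := by
    intro y
    unfold gaussianPDFReal
    rw [smul_eq_mul, mul_assoc, ← Real.exp_add]
    congr 1
    · simp
    · congr 1
      simp
      ring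
  simp_rw [e]
  rw [integral_const_mul, integral_gaussian, ← Real.sqrt_inv, ← Real.sqrt_mul (by positivity),
    ← Real.sqrt_inv]
  congr 1
  have := Real.pi_pos
  field_simp

theorem inv : S_INV := by
  unfold S_INV
  have h1 : ∀ y₁ y₂ y₃ : ℝ, (ENNReal.ofReal (nrm y₁ y₂ y₃ ^ 2))⁻¹ =
      ∫⁻ l in Ioi (0 : ℝ), ENNReal.ofReal (Real.exp (-(l * y₁ ^ 2))) *
        (ENNReal.ofReal (Real.exp (-(l * y₂ ^ 2))) * ENNReal.ofReal (Real.exp (-(l * y₃ ^ 2)))) := by
    intro y₁ y₂ y₃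
    rw [inv_lap _ (by positivity)]
    refine lintegral_congr fun l => ?_
    rw [← ENNReal.ofReal_mul (Real.exp_pos _).le, ← ENNReal.ofReal_mul (Real.exp_pos _).le,
      ← Real.exp_add, ← Real.exp_add]
    congr 2
    unfold nrm
    rw [Real.sq_sqrt (by positivity)]
    ring
  simp_rw [h1]
  set γ := gaussianReal 0 1
  let F : ℝ → ℝ × ℝ × ℝ → ℝ≥0∞ := fun l p => ENNReal.ofReal (Real.exp (-(l * p.1 ^ 2))) *
        (ENNReal.ofReal (Real.exp (-(l * p.2.1 ^ 2))) * ENNReal.ofReal (Real.exp (-(l * p.2.2 ^ 2))))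
  have hF : Measurable (Function.uncurry F) := by
    simp only [F, Function.uncurry_def]; fun_prop
  have hF2 : Measurable fun p : (ℝ × ℝ × ℝ) × ℝ => F p.2 p.1 := hF.comp measurable_swap
  have e1 := lint3 γ (f := fun p => ∫⁻ l in Ioi (0 : ℝ), F l p) hF2.lintegral_prod_right'
  simp only [F] at e1
  rw [e1]
  have e2 := lintegral_lintegral_swap (μ := γ.prod (γ.prod γ)) (ν := volume.restrict (Ioi (0 : ℝ)))
    (f := fun p l => F l p) hF2.aemeasurable
  simp only [F] at e2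
  rw [e2]
  have e3 : ∀ l : ℝ, l ∈ Ioi (0 : ℝ) → ∫⁻ p, F l p ∂(γ.prod (γ.prod γ)) =
      ENNReal.ofReal ((1 + 2 * l) ^ (-(3 / 2) : ℝ)) := by
    intro l hl
    have hl' : 0 < l := hl
    have m : Measurable fun y : ℝ => ENNReal.ofReal (Real.exp (-(l * y ^ 2))) := by fun_prop
    have e4 := lint_mul3 γ m m m
    have e5 := lint3 γ (f := fun p => F l p) (by simp only [F]; fun_prop)
    rw [← e5]
    simp only [F]
    rw [e4, lap1 hl', ← ENNReal.ofReal_mul (by positivity), ← ENNReal.ofReal_mul (by positivity)]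
    congr 1
    have hp : 0 < 1 + 2 * l := by positivity
    rw [Real.sqrt_eq_rpow, ← Real.rpow_neg hp.le, ← Real.rpow_add hp, ← Real.rpow_add hp]
    norm_num
  have e6 : ∫⁻ l in Ioi (0 : ℝ), ∫⁻ p, F l p ∂(γ.prod (γ.prod γ)) =
      ∫⁻ l in Ioi (0 : ℝ), ENNReal.ofReal ((1 + 2 * l) ^ (-(3 / 2) : ℝ)) :=
    setLIntegral_congr_fun measurableSet_Ioi e3
  simp only [F] at e6
  rw [e6]
  have hd : ∀ x ∈ Ioi (0 : ℝ), HasDerivAt (fun l : ℝ => -(1 + 2 * l) ^ (-(1 / 2) : ℝ))
      ((1 + 2 * x) ^ (-(3 / 2) : ℝ)) x := by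
    intro x hx
    have hx' : 0 < x := hx
    have hp : 0 < 1 + 2 * x := by positivity
    have h1 : HasDerivAt (fun l : ℝ => 1 + 2 * l) 2 x := by
      simpa using ((hasDerivAt_id x).const_mul 2).const_add 1
    have h2 := (h1.rpow_const (p := -(1 / 2)) (Or.inl hp.ne')).fun_neg
    refine h2.congr_deriv ?_
    rw [show (-(1 / 2) - 1 : ℝ) = -(3 / 2) by norm_num]
    ring
  have hlim : Tendsto (fun l : ℝ => -(1 + 2 * l) ^ (-(1 / 2) : ℝ)) atTop (𝓝 (-0)) := by
    refine Tendsto.neg ?_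
    refine (tendsto_rpow_neg_atTop (show (0 : ℝ) < 1 / 2 by norm_num)).comp ?_
    exact tendsto_atTop_add_const_left _ _ (tendsto_id.const_mul_atTop (by norm_num))
  have hcont : ContinuousWithinAt (fun l : ℝ => -(1 + 2 * l) ^ (-(1 / 2) : ℝ)) (Ici 0) 0 := by
    refine ContinuousAt.continuousWithinAt ?_
    refine ContinuousAt.neg (ContinuousAt.rpow_const (by fun_prop) (Or.inl (by norm_num)))
  have hnn : ∀ x ∈ Ioi (0 : ℝ), 0 ≤ (1 + 2 * x) ^ (-(3 / 2) : ℝ) := fun x hx => by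
    have hx' : 0 < x := hx
    positivity
  have hint := integrableOn_Ioi_deriv_of_nonneg hcont hd hnn hlim
  have hval := integral_Ioi_of_hasDerivAt_of_nonneg hcont hd hnn hlim
  rw [← ofReal_integral_eq_lintegral_ofReal hint ((ae_restrict_iff' measurableSet_Ioi).2
    (ae_of_all _ hnn)), hval]
  norm_num

end Q297.WT
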