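import Pool.Agent.Q297.WT.L2b
import Pool.Agent.Q297.WT.Inv

/-!
WT: convergence of the first moments of the weighted windows as `ε → 0`.
-/

open MeasureTheory ProbabilityTheory Set Filter Topology
open scoped ENNReal NNReal unitInterval
open Q297.PathC Q297.Prepend

namespace Q297.WT

variable {W : Measure Path}

/-- hypotheses on the weight -/
structure Wt (θ : ℝ → ℝ≥0∞) : Prop where
  cont : Continuous θ
  anti : ∀ x y, 0 ≤ x → x ≤ y → θ y ≤ θ x
  bd : ∃ K : ℝ≥0, ∀ x : ℝ, 0 < x → θ x ≤ K * (1 + (ENNReal.ofReal x ^ 2)⁻¹)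
  one : ∫⁻ y₁, ∫⁻ y₂, ∫⁻ y₃, θ (nrm y₁ y₂ y₃)
    ∂(gaussianReal 0 1) ∂(gaussianReal 0 1) ∂(gaussianReal 0 1) = 1

lemma wt_one : Wt fun _ => 1 where
  cont := continuous_const
  anti _ _ _ _ := le_rfl
  bd := ⟨1, fun x _ => by simp⟩
  one := by simp

lemma wt_inv : Wt fun x => (ENNReal.ofReal (x ^ 2))⁻¹ where
  cont := by
    have : Continuous fun x : ℝ => ENNReal.ofReal (x ^ 2) := ENNReal.continuous_ofReal.comp (by fun_prop)
    exact this.inv
  anti x y hx hxy := by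
    refine ENNReal.inv_le_inv.2 (ENNReal.ofReal_le_ofReal ?_)
    gcongr
  bd := ⟨1, fun x hx => by
    rw [ENNReal.ofReal_pow hx.le]
    simp⟩
  one := inv

lemma nrm_tri (a b c e : ℝ) (he : 0 ≤ e) : nrm a b c ≤ nrm (e + a) b c + e := by
  have h0 := nrm_nonneg (e + a) b c
  have h1 : nrm (e + a) b c ^ 2 = (e + a) ^ 2 + b ^ 2 + c ^ 2 := Real.sq_sqrt (by positivity)
  have h2 : |e + a| ≤ nrm (e + a) b c := le_nrm1 _ _ _
  have h3 : |a| ≤ |e + a| + e := by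
    have : a = (e + a) + (-e) := by ring
    calc |a| = |(e + a) + (-e)| := by rw [← this]
      _ ≤ |e + a| + |(-e)| := abs_add_le _ _
      _ = |e + a| + e := by rw [abs_neg, abs_of_nonneg he]
  unfold nrm at *
  rw [← Real.sqrt_sq (by positivity : (0 : ℝ) ≤ √((e + a) ^ 2 + b ^ 2 + c ^ 2) + e)]
  apply Real.sqrt_le_sqrt
  have h4 : a ^ 2 ≤ (|e + a| + e) ^ 2 := by
    rw [← sq_abs a]
    gcongr
  have h5 : |e + a| ^ 2 = (e + a) ^ 2 := sq_abs _
  nlinarith [mul_le_mul_of_nonneg_left h2 he]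

lemma lint3' {A : Type*} [MeasurableSpace A] (γ : Measure A) [SFinite γ] {f : A × A × A → ℝ≥0∞}
    (hf : Measurable f) :
    ∫⁻ y₁, ∫⁻ y₂, ∫⁻ y₃, f (y₁, y₂, y₃) ∂γ ∂γ ∂γ = ∫⁻ p, f p ∂(γ.prod (γ.prod γ)) := by
  rw [lintegral_prod _ hf.aemeasurable]
  refine lintegral_congr fun x => ?_
  exact (lintegral_prod (fun y => f (x, y)) (hf.comp measurable_prodMk_left).aemeasurable).symm

lemma tm_last {n : ℕ} (δ : Fin (n + 1) → ℝ≥0) : tm δ (Fin.last n) = ∑ i, δ i := by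
  induction n with
  | zero => simp [tm]
  | succ n ih =>
    rw [sum_succ', ← ih (fun k => δ k.succ)]
    rw [← Fin.succ_last]
    rfl

/-- the first moment identity -/
lemma first_id (hW : IsW W) {θ : ℝ → ℝ≥0∞} (hθ : Wt θ) {n : ℕ} (δ : Fin (n + 1) → ℝ≥0)
    (hδ : ∑ i, δ i = 1) {F : (Fin (n + 1) → ℝ) → ℝ≥0∞} (hF : Measurable F) {ε : ℝ} (hε : 0 < ε) :
    ∫⁻ ω, F (fun i => ω (tm δ i)) * lam θ ε ω ∂W =
      ∫⁻ ω₁, ∫⁻ ω₂, ∫⁻ ω₃, F (fun i => nrm (ε + ω₁ (tm δ i)) (ω₂ (tm δ i)) (ω₃ (tm δ i)) - ε) *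
        θ (nrm (ε + ω₁ 1) (ω₂ 1) (ω₃ 1) + ε) ∂W ∂W ∂W := by
  have hθm := hθ.cont.measurable
  let q : (Fin (n + 1) → ℝ) → ℝ≥0∞ := fun y => F (fun i => y i - ε) * θ (y (Fin.last n) + ε)
  have hq : Measurable q := (hF.comp (by fun_prop)).mul (hθm.comp (by fun_prop))
  have h := mul_all hW (n + 1) δ ε 0 0 q hq
  rw [nrm_zero' ε hε.le] at h
  unfold Lt Rt at h
  rw [hδ] at h
  simp only [q, tm_last, hδ, zero_add] at h
  have e1 : ∫⁻ ω, F (fun i => ω (tm δ i)) * lam θ ε ω ∂W =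
      (ENNReal.ofReal ε)⁻¹ * ∫⁻ ω in alive ε 1, ENNReal.ofReal (ε + ω 1) *
        (F (fun i => ε + ω (tm δ i) - ε) * θ (ε + ω 1 + ε)) ∂W := by
    have m : Measurable fun ω : Path => ENNReal.ofReal (ε + ω 1) *
        (F (fun i => ε + ω (tm δ i) - ε) * θ (ε + ω 1 + ε)) := by
      have m1 : ∀ t : ℝ≥0, Measurable fun ω : Path => ω t := measurable_eval
      refine ((m1 1).const_add ε).ennreal_ofReal.mul (Measurable.mul (hF.comp ?_) (hθm.comp ?_))
      · exact measurable_pi_lambda _ fun i => ((m1 _).const_add ε).sub_const ε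
      · exact ((m1 1).const_add ε).add_const ε
    rw [← lintegral_const_mul _ m, ← lintegral_indicator (measurableSet_alive _ _)]
    refine lintegral_congr fun ω => ?_
    unfold lam
    by_cases hω : ω ∈ alive ε 1
    · rw [indicator_of_mem hω, indicator_of_mem hω]
      have e2 : (fun i => ε + ω (tm δ i) - ε) = fun i => ω (tm δ i) := by
        funext i; ring
      rw [e2, ENNReal.ofReal_div_of_pos hε, div_eq_mul_inv]
      ring
    · rw [indicator_of_notMem hω, indicator_of_notMem hω, mul_zero]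
  rw [e1, h, ← mul_assoc, ENNReal.inv_mul_cancel (by simpa using hε) ENNReal.ofReal_ne_top, one_mul]

/-- the weighted norm process is the limit -/
lemma first_lim (hW : IsW W) {θ : ℝ → ℝ≥0∞} (hθ : Wt θ) {n : ℕ} (δ : Fin (n + 1) → ℝ≥0)
    (hδ : ∑ i, δ i = 1) {F : (Fin (n + 1) → ℝ) → ℝ≥0} (hF : Continuous F) (hF1 : ∀ y, F y ≤ 1) :
    Tendsto (fun k : ℕ => ∫⁻ ω, (F (fun i => ω (tm δ i)) : ℝ≥0∞) * lam θ (1 / ((k : ℝ) + 1)) ω ∂W) atTop
      (𝓝 (∫⁻ ω₁, ∫⁻ ω₂, ∫⁻ ω₃, (F (fun i => nrm (ω₁ (tm δ i)) (ω₂ (tm δ i)) (ω₃ (tm δ i))) : ℝ≥0∞) *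
        θ (nrm (ω₁ 1) (ω₂ 1) (ω₃ 1)) ∂W ∂W ∂W)) := by
  have hpr := isProb hW
  have hFE : Continuous fun y => (F y : ℝ≥0∞) := ENNReal.continuous_coe.comp hF
  let Φ : ℝ → Path × Path × Path → ℝ≥0∞ := fun ε p =>
    (F (fun i => nrm (ε + p.1 (tm δ i)) (p.2.1 (tm δ i)) (p.2.2 (tm δ i)) - ε) : ℝ≥0∞) *
        θ (nrm (ε + p.1 1) (p.2.1 1) (p.2.2 1) + ε)
  have hev1 : ∀ t : ℝ≥0, Continuous fun p : Path × Path × Path => p.1 t := fun t =>
    (continuous_eval_const t).comp continuous_fst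
  have hev2 : ∀ t : ℝ≥0, Continuous fun p : Path × Path × Path => p.2.1 t := fun t =>
    (continuous_eval_const t).comp (continuous_fst.comp continuous_snd)
  have hev3 : ∀ t : ℝ≥0, Continuous fun p : Path × Path × Path => p.2.2 t := fun t =>
    (continuous_eval_const t).comp (continuous_snd.comp continuous_snd)
  have m1 : Measurable fun p : Path × Path × Path => p.1 := measurable_fst
  have m2 : Measurable fun p : Path × Path × Path => p.2.1 := measurable_fst.comp measurable_snd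
  have m3 : Measurable fun p : Path × Path × Path => p.2.2 := measurable_snd.comp measurable_snd
  have hΦm : ∀ ε, Measurable (Φ ε) := by
    intro ε
    refine Measurable.mul (hFE.measurable.comp ?_) (hθ.cont.measurable.comp ?_)
    · exact measurable_pi_lambda _ fun i => (measurable_nrm' ((measurable_ev m1 _).const_add ε)
        (measurable_ev m2 _) (measurable_ev m3 _)).sub_const ε
    · exact (measurable_nrm' ((measurable_ev m1 _).const_add ε)
        (measurable_ev m2 _) (measurable_ev m3 _)).add_const ε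
  have e0 : ∀ k : ℕ, ∫⁻ ω, (F (fun i => ω (tm δ i)) : ℝ≥0∞) * lam θ (1 / ((k : ℝ) + 1)) ω ∂W =
      ∫⁻ p, Φ (1 / ((k : ℝ) + 1)) p ∂(W.prod (W.prod W)) := by
    intro k
    rw [first_id hW hθ δ hδ (F := fun y => (F y : ℝ≥0∞)) hFE.measurable (by positivity),
      ← lint3' W (hΦm _)]
  have e1 : ∫⁻ ω₁, ∫⁻ ω₂, ∫⁻ ω₃, (F (fun i => nrm (ω₁ (tm δ i)) (ω₂ (tm δ i)) (ω₃ (tm δ i))) : ℝ≥0∞) *
        θ (nrm (ω₁ 1) (ω₂ 1) (ω₃ 1)) ∂W ∂W ∂W = ∫⁻ p, Φ 0 p ∂(W.prod (W.prod W)) := by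
    rw [← lint3' W (hΦm _)]
    simp only [Φ, zero_add, sub_zero, add_zero]
  simp_rw [e0]
  rw [e1]
  have hbm : Measurable fun p : Path × Path × Path => θ (nrm (p.1 1) (p.2.1 1) (p.2.2 1)) :=
    hθ.cont.measurable.comp (measurable_nrm' (measurable_ev m1 _)
        (measurable_ev m2 _) (measurable_ev m3 _))
  have hb1 : ∫⁻ p : Path × Path × Path, θ (nrm (p.1 1) (p.2.1 1) (p.2.2 1)) ∂(W.prod (W.prod W)) = 1 := by
    rw [← lint3' W hbm]
    have h := ev3 hW 1 0 0 0 hθ.cont.measurable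
    simp only [zero_add] at h
    rw [h]
    exact hθ.one
  have hfin : ∀ᵐ p : Path × Path × Path ∂(W.prod (W.prod W)), θ (nrm (p.1 1) (p.2.1 1) (p.2.2 1)) < ∞ :=
    ae_lt_top hbm (by rw [hb1]; simp)
  refine tendsto_lintegral_of_dominated_convergence
    (fun p : Path × Path × Path => θ (nrm (p.1 1) (p.2.1 1) (p.2.2 1)))
    (fun k => hΦm _) (fun k => ae_of_all _ fun p => ?_) ?_ (hfin.mono fun p hp => ?_)
  · calc Φ (1 / ((k : ℝ) + 1)) p ≤ 1 * θ (nrm (p.1 1) (p.2.1 1) (p.2.2 1)) := by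
          refine mul_le_mul' ?_ ?_
          · exact_mod_cast hF1 _
          · exact hθ.anti _ _ (nrm_nonneg _ _ _) (nrm_tri _ _ _ _ (by positivity))
      _ = _ := one_mul _
  · rw [hb1]; simp
  · have hc : Tendsto (fun ε : ℝ => Φ ε p) (𝓝 0) (𝓝 (Φ 0 p)) := by
      refine ENNReal.Tendsto.mul ?_ (Or.inr ?_) ?_ (Or.inr ENNReal.coe_ne_top)
      · refine (hFE.comp ?_).tendsto 0
        exact continuous_pi fun i => (continuous_nrm' (by fun_prop) (by fun_prop) (by fun_prop)).sub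
          continuous_id
      · simp only [zero_add, add_zero]
        exact hp.ne
      · refine (hθ.cont.comp ?_).tendsto 0
        exact (continuous_nrm' (by fun_prop) (by fun_prop) (by fun_prop)).add continuous_id
    refine hc.comp tendsto_one_div_add_atTop_nhds_zero_nat

end Q297.WT
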