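import Mathlib
import Pool.Agent.Q297.PathC

/-!
Row MP_0f8574_pr: definitions for the statements (Borel sigma-algebra of `C(X, ℝ)`: `Q297.PathC`).
-/

open MeasureTheory ProbabilityTheory Set
open scoped ENNReal NNReal unitInterval
open Q297.PathC

namespace Q297.WT

/-- `B` is a standard one-dimensional Brownian motion on the probability space `(Ω, P)`, with
continuous paths, as a random element of `C([0, ∞), ℝ)`. -/
def IsBM {Ω : Type*} [MeasurableSpace Ω] (B : Ω → C(ℝ≥0, ℝ)) (P : Measure Ω) : Prop :=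
  Measurable B ∧ IsBrownianReal (fun (t : ℝ≥0) (ω : Ω) => B ω t) P

/-- The window `(β (t + u) - β t)_(0 ≤ u ≤ 1)` of the path `β` at the time `t`. -/
def window (β : C(ℝ≥0, ℝ)) (t : ℝ≥0) : C(I, ℝ) where
  toFun u := β (t + ⟨(u : ℝ), u.2.1⟩) - β t
  continuous_toFun := by
    have h : Continuous fun u : I => (⟨(u : ℝ), u.2.1⟩ : ℝ≥0) := by fun_prop
    fun_prop

/-- The Euclidean norm `(|(x 0 u, x 1 u, x 2 u)|)_(0 ≤ u ≤ 1)` of the path `(x 0, x 1, x 2)` in `ℝ³`. -/
noncomputable def radius (x : Fin 3 → C(ℝ≥0, ℝ)) : C(I, ℝ) where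
  toFun u := √(∑ i, x i ⟨(u : ℝ), u.2.1⟩ ^ 2)
  continuous_toFun := by
    have h : Continuous fun u : I => (⟨(u : ℝ), u.2.1⟩ : ℝ≥0) := by fun_prop
    fun_prop

/-- The law of an i.i.d. sequence of uniform random variables on `[0, 1] × [0, 1]`. -/
noncomputable def uniforms : Measure (ℕ → I × I) :=
  Measure.infinitePi fun _ : ℕ => (volume : Measure (I × I))

end Q297.WT
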