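import Pool.Agent.Q297.WT.Bk

/-!
WT: the random time (uses `S_YM`, `S_SEL`).
-/

open MeasureTheory ProbabilityTheory Set Filter Topology
open scoped ENNReal NNReal unitInterval
open Q297.PathC Q297.Prepend

namespace Q297.WT

variable {W : Measure Path}

/-- the law of the auxiliary randomness -/
noncomputable def Q : Measure (ℕ → I × I) := Measure.infinitePi fun _ : ℕ => (volume : Measure (I × I))

instance : IsProbabilityMeasure Q := by unfold Q; infer_instance

/-- the blocks with their uniform random variables -/
def zz (p : Path × (ℕ → I × I)) (i : ℕ) : (Path × I) × I := ((blk i p.1, (p.2 i).1), (p.2 i).2)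

lemma meas_zz : Measurable zz := by
  refine measurable_pi_lambda _ fun i => ?_
  have h1 : Measurable fun p : Path × (ℕ → I × I) => blk i p.1 := (measurable_blk i).comp measurable_fst
  have h2 : Measurable fun p : Path × (ℕ → I × I) => p.2 i := by fun_prop
  exact (h1.prodMk (measurable_fst.comp h2)).prodMk (measurable_snd.comp h2)

lemma law_zz (hW : IsW W) : (W.prod Q).map zz =
    Measure.infinitePi fun _ : ℕ => ((W.map (blk 0)).prod (volume : Measure I)).prod (volume : Measure I) := by
  have hpr := isProb hW
  have hp : IsProbabilityMeasure (W.map (blk 0)) :=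
    Measure.isProbabilityMeasure_map (measurable_blk 0).aemeasurable
  have hB : Measurable fun (ω : Path) (i : ℕ) => blk i ω := measurable_pi_lambda _ measurable_blk
  have h1 : (W.prod Q).map (fun p (i : ℕ) => (blk i p.1, p.2 i)) =
      Measure.infinitePi fun _ : ℕ => (W.map (blk 0)).prod (volume : Measure (I × I)) := by
    rw [← prd Path (I × I) (W.map (blk 0)) volume, ← blk_iid W hW]
    have e : (W.map fun (ω : Path) (i : ℕ) => blk i ω).prod Q =
        (W.prod Q).map (Prod.map (fun (ω : Path) (i : ℕ) => blk i ω) id) := by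
      conv_lhs => rw [← Measure.map_id (μ := Q)]
      exact Measure.map_prod_map W Q hB measurable_id
    change _ = ((W.map fun (ω : Path) (i : ℕ) => blk i ω).prod Q).map _
    rw [e, Measure.map_map (by fun_prop) (hB.prodMap measurable_id)]
    rfl
  let e : Path × (I × I) → (Path × I) × I := fun q => ((q.1, q.2.1), q.2.2)
  have he : Measurable e := by fun_prop
  have h2 : ((W.map (blk 0)).prod (volume : Measure (I × I))).map e =
      ((W.map (blk 0)).prod (volume : Measure I)).prod (volume : Measure I) := by
    have h3 := Measure.prodAssoc_prod (μ := W.map (blk 0)) (ν := (volume : Measure I))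
      (τ := (volume : Measure I))
    change ((W.map (blk 0)).prod ((volume : Measure I).prod volume)).map e = _
    rw [← h3, Measure.map_map he (MeasurableEquiv.measurable _)]
    exact Measure.map_id
  have h4 := Measure.infinitePi_map_pi (fun _ : ℕ => (W.map (blk 0)).prod (volume : Measure (I × I)))
    (f := fun _ => e) (fun _ => he)
  rw [h2, ← h1, Measure.map_map (by fun_prop) ?_] at h4
  · exact h4
  · refine measurable_pi_lambda _ fun i => ?_
    have a1 : Measurable fun p : Path × (ℕ → I × I) => blk i p.1 := (measurable_blk i).comp measurable_fst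
    exact a1.prodMk (by fun_prop)

lemma meas_pick {X : Type} [MeasurableSpace X] {N : (ℕ → X) → ℕ} (hN : Measurable N) :
    Measurable fun z : ℕ → X => z (N z) := by
  have h : Measurable fun q : (ℕ → X) × ℕ => q.1 q.2 :=
    measurable_from_prod_countable_left fun n => measurable_pi_apply n
  exact h.comp (measurable_id.prodMk hN)

lemma wd_blk (β : Path) (n : ℕ) (s : I) : wd β (2 * (n : ℝ≥0) + st s) = wd (blk n β) (st s) := by
  ext u
  have h1 : st s + un u ≤ 2 := by
    calc st s + un u ≤ 1 + 1 := add_le_add (st_le s) (un_le u)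
      _ = 2 := by norm_num
  have h2 : st s ≤ 2 := le_self_add.trans h1
  change β (2 * (n : ℝ≥0) + st s + un u) - β (2 * (n : ℝ≥0) + st s) =
    (β (2 * (n : ℝ≥0) + min (st s + un u) 2) - β (2 * (n : ℝ≥0))) -
      (β (2 * (n : ℝ≥0) + min (st s) 2) - β (2 * (n : ℝ≥0)))
  rw [min_eq_left h1, min_eq_left h2, add_assoc]
  ring

/-- **the random time** -/
theorem random_time (hSEL : S_SEL) (hYM : S_YM) (hW : IsW W) {θ : ℝ → ℝ≥0∞} (hθ : Wt θ) :
    ∃ T : Path × (ℕ → I × I) → ℝ≥0, Measurable T ∧ ∫⁻ p, (T p : ℝ≥0∞) ∂(W.prod Q) < ∞ ∧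
      ∀ H : C(I, ℝ) → ℝ≥0∞, Measurable H →
        ∫⁻ p, H (wd p.1 (T p)) ∂(W.prod Q) =
          ∫⁻ p, θ (nrm (p.1 1) (p.2.1 1) (p.2.2 1)) * H (norm3 p.1 p.2.1 p.2.2) ∂(W.prod (W.prod W)) := by
  have hpr := isProb hW
  have hp : IsProbabilityMeasure (W.map (blk 0)) :=
    Measure.isProbabilityMeasure_map (measurable_blk 0).aemeasurable
  obtain ⟨G, τ, hG, hτ, hG2, hlaw⟩ := block_weight hYM hW hθ
  have hlz := law_zz hW
  set m := W.map (blk 0) with hm
  have hg : Measurable fun e : Path × I => G e.1 := hG.comp measurable_fst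
  have m1 : Measurable fun p : Path × Path × Path => p.1 := measurable_fst
  have m2 : Measurable fun p : Path × Path × Path => p.2.1 := measurable_fst.comp measurable_snd
  have m3 : Measurable fun p : Path × Path × Path => p.2.2 := measurable_snd.comp measurable_snd
  have hθR : Measurable fun p : Path × Path × Path => θ (nrm (p.1 1) (p.2.1 1) (p.2.2 1)) :=
    hθ.cont.measurable.comp (measurable_nrm' (measurable_ev m1 _) (measurable_ev m2 _) (measurable_ev m3 _))
  have hG1 : ∫⁻ e : Path × I, G e.1 ∂(m.prod volume) = 1 := by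
    have h := hlaw (fun _ => 1) measurable_const
    simp only [lintegral_one, measure_univ, mul_one] at h
    rw [lintegral_prod _ hg.aemeasurable]
    simp only [lintegral_const, measure_univ, mul_one]
    rw [h, ← lint3' W hθR]
    have h' := ev3 hW 1 0 0 0 hθ.cont.measurable
    simp only [zero_add] at h'
    rw [h']
    exact hθ.one
  have hG3 : ∫⁻ e : Path × I, G e.1 ^ 2 ∂(m.prod volume) < ∞ := by
    rw [lintegral_prod _ (hg.pow_const 2).aemeasurable]
    simp only [lintegral_const, measure_univ, mul_one]
    exact hG2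
  obtain ⟨N, hN, hEN, hNlaw⟩ := hSEL (Path × I) (m.prod volume) (fun e => G e.1) hg hG1 hG3
  have hpick := meas_pick hN
  let e : Path × (ℕ → I × I) → Path × I := fun p => (zz p (N (zz p))).1
  have he : Measurable e := measurable_fst.comp (hpick.comp meas_zz)
  have hlaw_e : (W.prod Q).map e = (m.prod volume).withDensity fun e => G e.1 := by
    ext C hC
    rw [Measure.map_apply he hC, withDensity_apply _ hC, ← hNlaw C hC, ← hlz,
      Measure.map_apply meas_zz]
    · rfl
    · exact (measurable_fst.comp hpick) hC
  refine ⟨fun p => 2 * (N (zz p) : ℝ≥0) + st (τ (e p)), ?_, ?_, ?_⟩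
  · have a1 : Measurable fun p => (N (zz p) : ℝ≥0) := by
      have : Measurable fun n : ℕ => (n : ℝ≥0) := measurable_from_top
      exact this.comp (hN.comp meas_zz)
    exact (a1.const_mul 2).add (continuous_st.measurable.comp (hτ.comp he))
  · calc ∫⁻ p, ((2 * (N (zz p) : ℝ≥0) + st (τ (e p)) : ℝ≥0) : ℝ≥0∞) ∂(W.prod Q)
        ≤ ∫⁻ p, (2 * (N (zz p) : ℝ≥0∞) + 1) ∂(W.prod Q) := by
          refine lintegral_mono fun p => ?_
          push_cast
          gcongr
          exact_mod_cast st_le _
      _ = 2 * ∫⁻ p, (N (zz p) : ℝ≥0∞) ∂(W.prod Q) + 1 := by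
          have hNm : Measurable fun p => (N (zz p) : ℝ≥0∞) := by
            have : Measurable fun n : ℕ => (n : ℝ≥0∞) := measurable_from_top
            exact this.comp (hN.comp meas_zz)
          rw [lintegral_add_right _ measurable_const, lintegral_const_mul _ hNm, lintegral_const,
            measure_univ, one_mul]
      _ < ∞ := by
          have : ∫⁻ p, (N (zz p) : ℝ≥0∞) ∂(W.prod Q) = ∫⁻ z, (N z : ℝ≥0∞) ∂((W.prod Q).map zz) := by
            have hm' : Measurable fun z : ℕ → (Path × I) × I => (N z : ℝ≥0∞) := by
              have : Measurable fun n : ℕ => (n : ℝ≥0∞) := measurable_from_top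
              exact this.comp hN
            rw [lintegral_map hm' meas_zz]
          rw [this, hlz]
          exact ENNReal.add_lt_top.2 ⟨ENNReal.mul_lt_top (by simp) hEN, by simp⟩
  · intro H hH
    have hw1 : Measurable fun e : Path × I => wd e.1 (st (τ e)) := by
      have : (fun e : Path × I => wd e.1 (st (τ e))) = (fun p : Path × I => wd p.1 (st p.2)) ∘
          fun e => (e.1, τ e) := rfl
      rw [this]
      exact meas_wd.comp (measurable_fst.prodMk hτ)
    have a2 : Measurable fun e : Path × I => H (wd e.1 (st (τ e))) := hH.comp hw1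
    have e1 : ∀ p : Path × (ℕ → I × I), wd p.1 (2 * (N (zz p) : ℝ≥0) + st (τ (e p))) =
        wd (e p).1 (st (τ (e p))) := fun p => wd_blk _ _ _
    simp_rw [e1]
    rw [← lintegral_map (f := fun e : Path × I => H (wd e.1 (st (τ e)))) a2 he, hlaw_e,
      lintegral_withDensity_eq_lintegral_mul _ hg a2, lintegral_prod _ (hg.mul a2).aemeasurable,
      ← hlaw H hH]
    refine lintegral_congr fun x => ?_
    exact lintegral_const_mul (G x) (f := fun u : I => H (wd x (st (τ (x, u)))))
      (a2.comp measurable_prodMk_left)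

end Q297.WT
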