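import Pool.Agent.Q297.WT.Stm

/-!
WT: the Gaussian identity `S_GAU`.
-/

open MeasureTheory ProbabilityTheory Set Filter Topology
open scoped ENNReal NNReal unitInterval
open Q297.PathC Q297.Prepend

namespace Q297.WT

/-- oscillating Gaussian integral -/
noncomputable def FF (t : ℝ≥0) (θ y : ℝ) : ℂ :=
  ∫ u, Complex.exp (θ * ((y + u) ^ 2 : ℝ) * Complex.I) ∂(gaussianReal 0 t)

/-- oscillating Gaussian integral with a linear factor -/
noncomputable def GG (t : ℝ≥0) (θ y : ℝ) : ℂ :=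
  ∫ u, ((y + u : ℝ) : ℂ) * Complex.exp (θ * ((y + u) ^ 2 : ℝ) * Complex.I) ∂(gaussianReal 0 t)

/-- the quadratic coefficient -/
noncomputable def bb (t : ℝ≥0) (θ : ℝ) : ℂ := θ * Complex.I - 1 / (2 * (t : ℝ))

lemma bb_re {t : ℝ≥0} (ht : t ≠ 0) (θ : ℝ) : (bb t θ).re < 0 := by
  have h : (0 : ℝ) < t := by have := pos_iff_ne_zero.2 ht; exact_mod_cast this
  have : (bb t θ).re = -(1 / (2 * (t : ℝ))) := by
    have e : bb t θ = (θ : ℂ) * Complex.I - ((1 / (2 * (t : ℝ)) : ℝ) : ℂ) := by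
      unfold bb; push_cast; ring
    rw [e, Complex.sub_re, Complex.re_ofReal_mul, Complex.I_re, Complex.ofReal_re]
    ring
  rw [this]
  have : 0 < 1 / (2 * (t : ℝ)) := by positivity
  linarith

lemma pdf_mul {t : ℝ≥0} (ht : t ≠ 0) (θ y u : ℝ) :
    (gaussianPDFReal 0 t u : ℂ) * Complex.exp (θ * ((y + u) ^ 2 : ℝ) * Complex.I) =
      ((√(2 * Real.pi * t))⁻¹ : ℝ) * Complex.exp (bb t θ * u ^ 2 + 2 * θ * y * Complex.I * u +
        θ * y ^ 2 * Complex.I) := by
  have h : (0 : ℝ) < t := by have := pos_iff_ne_zero.2 ht; exact_mod_cast this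
  unfold gaussianPDFReal bb
  rw [Complex.ofReal_mul, Complex.ofReal_exp, mul_assoc, ← Complex.exp_add]
  congr 2
  have : (t : ℂ) ≠ 0 := by
    have := h.ne'
    exact_mod_cast this
  push_cast
  field_simp
  ring

lemma FF_eq {t : ℝ≥0} (ht : t ≠ 0) (θ : ℝ) : ∃ c0 e0 : ℂ,
    c0 ^ 2 * (1 - 2 * Complex.I * θ * (t : ℝ)) = 1 ∧ ∀ y : ℝ, FF t θ y = c0 * Complex.exp (e0 * y ^ 2) := by
  have h : (0 : ℝ) < t := by have := pos_iff_ne_zero.2 ht; exact_mod_cast this
  have hb := bb_re ht θ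
  have hb0 : bb t θ ≠ 0 := fun h0 => by rw [h0] at hb; simp at hb
  refine ⟨((√(2 * Real.pi * t))⁻¹ : ℝ) * (Real.pi / -bb t θ) ^ (1 / 2 : ℂ),
    θ * Complex.I - (2 * θ * Complex.I) ^ 2 / (4 * bb t θ), ?_, fun y => ?_⟩
  · rw [mul_pow]
    have e1 : ((Real.pi / -bb t θ : ℂ) ^ (1 / 2 : ℂ)) ^ 2 = Real.pi / -bb t θ := by
      rw [← Complex.cpow_nat_mul]
      norm_num
    have e2 : ((((√(2 * Real.pi * t))⁻¹ : ℝ) : ℂ)) ^ 2 = 1 / (2 * Real.pi * (t : ℝ)) := by
      rw [← Complex.ofReal_pow, inv_pow, Real.sq_sqrt (by positivity)]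
      push_cast
      rw [one_div]
    have e3 : (1 : ℂ) - 2 * Complex.I * θ * (t : ℝ) = -(2 * (t : ℝ) * bb t θ) := by
      unfold bb
      have : ((t : ℝ) : ℂ) ≠ 0 := by exact_mod_cast h.ne'
      field_simp
      ring
    rw [e1, e2, e3]
    have : ((t : ℝ) : ℂ) ≠ 0 := by exact_mod_cast h.ne'
    have hpi : (Real.pi : ℂ) ≠ 0 := by exact_mod_cast Real.pi_ne_zero
    field_simp
  · unfold FF
    rw [integral_gaussianReal_eq_integral_smul ht]
    simp_rw [Complex.real_smul, pdf_mul ht θ y]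
    rw [integral_const_mul, integral_cexp_quadratic hb]
    have e : (θ : ℂ) * y ^ 2 * Complex.I - (2 * θ * y * Complex.I) ^ 2 / (4 * bb t θ) =
        (θ * Complex.I - (2 * θ * Complex.I) ^ 2 / (4 * bb t θ)) * y ^ 2 := by ring
    rw [e, ← mul_assoc]

lemma GG_eq {t : ℝ≥0} (ht : t ≠ 0) (θ y : ℝ) :
    GG t θ y * (1 - 2 * Complex.I * θ * (t : ℝ)) = y * FF t θ y := by
  have h : (0 : ℝ) < t := by have := pos_iff_ne_zero.2 ht; exact_mod_cast this
  have hb := bb_re ht θ
  have htc : ((t : ℝ) : ℂ) ≠ 0 := by exact_mod_cast h.ne'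
  set c : ℂ := 2 * θ * y * Complex.I with hc
  set d : ℂ := θ * y ^ 2 * Complex.I with hd
  let H : ℝ → ℂ := fun u => Complex.exp (bb t θ * u ^ 2 + c * u + d)
  have hH : Integrable H := integrable_cexp_quadratic' hb c d
  have hnorm : ∀ u : ℝ, ‖H u‖ = Real.exp (-(1 / (2 * (t : ℝ))) * u ^ 2) := by
    intro u
    simp only [H]
    rw [Complex.norm_exp]
    congr 1
    have e1 : bb t θ * (u : ℂ) ^ 2 + c * u + d = ((-(1 / (2 * (t : ℝ))) * u ^ 2 : ℝ) : ℂ) +
        ((θ * u ^ 2 + 2 * θ * y * u + θ * y ^ 2 : ℝ) : ℂ) * Complex.I := by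
      rw [hc, hd]
      unfold bb
      push_cast
      ring
    rw [e1, Complex.add_re, Complex.ofReal_re, Complex.re_ofReal_mul]
    simp
  have hcont : Continuous H := by fun_prop
  have huH : Integrable (fun u : ℝ => (u : ℂ) * H u) := by
    have h1 := (integrable_mul_exp_neg_mul_sq (b := 1 / (2 * (t : ℝ))) (by positivity)).norm
    refine h1.mono (by fun_prop) (ae_of_all _ fun u => ?_)
    rw [norm_mul, hnorm, Complex.norm_real, norm_norm, norm_mul, Real.norm_eq_abs (Real.exp _),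
      abs_of_pos (Real.exp_pos _)]
  have hder : ∀ u : ℝ, HasDerivAt H ((2 * bb t θ * u + c) * H u) u := by
    intro u
    have h1 : HasDerivAt (fun u : ℝ => (u : ℂ)) 1 u := Complex.ofRealCLM.hasDerivAt
    have h2 : HasDerivAt (fun u : ℝ => bb t θ * (u : ℂ) ^ 2 + c * u + d)
        (bb t θ * (2 * u) + c) u := by
      have h3 : HasDerivAt (fun u : ℝ => bb t θ * (u : ℂ) ^ 2 + c * u + d)
          (bb t θ * (((2 : ℕ) : ℂ) * (u : ℂ) ^ (2 - 1) * 1) + c * 1) u :=
        (((h1.fun_pow 2).const_mul (bb t θ)).fun_add (h1.const_mul c)).add_const d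
      convert h3 using 1
      push_cast
      ring
    convert h2.cexp using 1
    simp only [H]
    ring
  have hint : Integrable (fun u : ℝ => (2 * bb t θ * u + c) * H u) := by
    have := (huH.const_mul (2 * bb t θ)).add (hH.const_mul c)
    refine this.congr (ae_of_all _ fun u => ?_)
    simp only [Pi.add_apply]
    ring
  have h0 := integral_eq_zero_of_hasDerivAt_of_integrable hder hint hH
  have e1 : FF t θ y = ((√(2 * Real.pi * t))⁻¹ : ℝ) * ∫ u, H u := by
    unfold FF
    rw [integral_gaussianReal_eq_integral_smul ht]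
    simp_rw [Complex.real_smul, pdf_mul ht θ y]
    rw [integral_const_mul]
  have e2 : GG t θ y = ((√(2 * Real.pi * t))⁻¹ : ℝ) * ∫ u : ℝ, ((y + u : ℝ) : ℂ) * H u := by
    unfold GG
    rw [integral_gaussianReal_eq_integral_smul ht]
    rw [← integral_const_mul]
    refine integral_congr_ae (ae_of_all _ fun u => ?_)
    try simp only
    rw [Complex.real_smul, mul_left_comm, pdf_mul ht θ y u]
    simp only [H, hc, hd]
    ring
  have e3 : ∫ u : ℝ, ((y + u : ℝ) : ℂ) * H u = y * (∫ u, H u) + ∫ u : ℝ, (u : ℂ) * H u := by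
    rw [← integral_const_mul, ← integral_add (hH.const_mul _) huH]
    refine integral_congr_ae (ae_of_all _ fun u => ?_)
    try simp only
    push_cast
    ring
  have e4 : (2 * bb t θ) * (∫ u : ℝ, (u : ℂ) * H u) + c * (∫ u, H u) = 0 := by
    rw [← h0, ← integral_const_mul, ← integral_const_mul,
      ← integral_add (huH.const_mul _) (hH.const_mul _)]
    refine integral_congr_ae (ae_of_all _ fun u => ?_)
    try simp only
    ring
  have e5 : (1 : ℂ) - 2 * Complex.I * θ * (t : ℝ) = -(2 * (t : ℝ) * bb t θ) := by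
    unfold bb
    field_simp
    ring
  have e6 : c = 2 * y * bb t θ + y / (t : ℝ) := by
    rw [hc]; unfold bb; field_simp; ring
  rw [e1, e2, e3, e5]
  have e7 : (2 * bb t θ) * (∫ u : ℝ, (u : ℂ) * H u) = -(c * (∫ u, H u)) := by
    linear_combination e4
  have e8 : (y * (∫ u, H u) + ∫ u : ℝ, (u : ℂ) * H u) * -(2 * (t : ℝ) * bb t θ) =
      y * ∫ u, H u := by
    have : (y * (∫ u, H u) + ∫ u : ℝ, (u : ℂ) * H u) * -(2 * (t : ℝ) * bb t θ) =
      -(2 * (t : ℝ) * bb t θ) * y * (∫ u, H u) - (t : ℝ) * ((2 * bb t θ) * (∫ u : ℝ, (u : ℂ) * H u)) := by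
      ring
    rw [this, e7, e6]
    field_simp
    ring
  rw [mul_assoc, e8]
  ring

lemma prod_eq {t : ℝ≥0} (ht : t ≠ 0) (θ a b c : ℝ) :
    (nrm a b c : ℂ) * (FF t θ a * FF t θ b * FF t θ c) = GG t θ (nrm a b c) := by
  obtain ⟨c0, e0, h1, h2⟩ := FF_eq ht θ
  have h3 := GG_eq ht θ (nrm a b c)
  have hx : ((nrm a b c : ℝ) : ℂ) ^ 2 = (a : ℂ) ^ 2 + (b : ℂ) ^ 2 + (c : ℂ) ^ 2 := by
    have : nrm a b c ^ 2 = a ^ 2 + b ^ 2 + c ^ 2 := Real.sq_sqrt (by positivity)
    exact_mod_cast this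
  have h4 : GG t θ (nrm a b c) = c0 ^ 2 * (GG t θ (nrm a b c) * (1 - 2 * Complex.I * θ * (t : ℝ))) := by
    rw [mul_left_comm, h1, mul_one]
  rw [h4, h3, h2, h2, h2, h2, hx, mul_add, mul_add, Complex.exp_add, Complex.exp_add]
  ring

lemma nrm_nonneg (a b c : ℝ) : 0 ≤ nrm a b c := Real.sqrt_nonneg _

lemma key {t : ℝ≥0} (ht : t ≠ 0) (a b c : ℝ) :
    ((gaussianReal 0 t).withDensity (fun y => ENNReal.ofReal (nrm a b c + y))).map
        (fun y => (nrm a b c + y) ^ 2) =
      ((gaussianReal 0 t).withDensity (fun y => ENNReal.ofReal (-(nrm a b c + y)))).map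
        (fun y => (nrm a b c + y) ^ 2) +
      ENNReal.ofReal (nrm a b c) • (((gaussianReal 0 t).prod ((gaussianReal 0 t).prod
        (gaussianReal 0 t))).map (fun p => (a + p.1) ^ 2 + (b + p.2.1) ^ 2 + (c + p.2.2) ^ 2)) := by
  set x := nrm a b c with hx
  have hx0 : 0 ≤ x := nrm_nonneg a b c
  have hint : Integrable (fun y : ℝ => x + y) (gaussianReal 0 t) :=
    (integrable_const x).add (IsGaussian.integrable_id)
  have f1 : IsFiniteMeasure ((gaussianReal 0 t).withDensity (fun y => ENNReal.ofReal (x + y))) :=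
    isFiniteMeasure_withDensity_ofReal hint.2
  have f2 : IsFiniteMeasure ((gaussianReal 0 t).withDensity (fun y => ENNReal.ofReal (-(x + y)))) :=
    isFiniteMeasure_withDensity_ofReal hint.neg.2
  have f4 : IsFiniteMeasure (ENNReal.ofReal x • (((gaussianReal 0 t).prod ((gaussianReal 0 t).prod
        (gaussianReal 0 t))).map (fun p => (a + p.1) ^ 2 + (b + p.2.1) ^ 2 + (c + p.2.2) ^ 2))) :=
    Measure.smul_finite _ ENNReal.ofReal_ne_top
  apply Measure.ext_of_charFun
  funext θ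
  rw [charFun_apply_real, charFun_apply_real]
  have hbd : ∀ (μ : Measure ℝ) [IsFiniteMeasure μ],
      Integrable (fun z : ℝ => Complex.exp (θ * z * Complex.I)) μ := by
    intro μ _
    refine Integrable.of_bound (by fun_prop) 1 (ae_of_all _ fun z => ?_)
    rw [← Complex.ofReal_mul, Complex.norm_exp_ofReal_mul_I]
  rw [integral_add_measure (hbd _) (hbd _), integral_smul_measure,
    integral_map (by fun_prop) (by fun_prop), integral_map (by fun_prop) (by fun_prop),
    integral_map (by fun_prop) (by fun_prop),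
    integral_withDensity_eq_integral_toReal_smul (by fun_prop)
      (ae_of_all _ fun _ => ENNReal.ofReal_lt_top),
    integral_withDensity_eq_integral_toReal_smul (by fun_prop)
      (ae_of_all _ fun _ => ENNReal.ofReal_lt_top)]
  have hb1 : ∀ y : ℝ, ‖Complex.exp (θ * ((x + y) ^ 2 : ℝ) * Complex.I)‖ = 1 := fun y => by
    rw [← Complex.ofReal_mul, Complex.norm_exp_ofReal_mul_I]
  have hi : ∀ f : ℝ → ℝ, Integrable f (gaussianReal 0 t) →
      Integrable (fun y => (ENNReal.ofReal (f y)).toReal • Complex.exp (θ * ((x + y) ^ 2 : ℝ) * Complex.I))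
        (gaussianReal 0 t) := by
    intro f hf
    refine hf.norm.mono ?_ (ae_of_all _ fun y => ?_)
    · have h1 : AEStronglyMeasurable (fun y => (ENNReal.ofReal (f y)).toReal) (gaussianReal 0 t) :=
        (hf.aemeasurable.ennreal_ofReal.ennreal_toReal).aestronglyMeasurable
      exact h1.smul (by fun_prop)
    · rw [norm_smul, hb1, mul_one, norm_norm, ENNReal.toReal_ofReal', Real.norm_eq_abs,
        Real.norm_eq_abs, abs_of_nonneg (le_max_right _ _)]
      exact max_le (le_abs_self _) (abs_nonneg _)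
  have e1 : (∫ y, (ENNReal.ofReal (x + y)).toReal • Complex.exp (θ * ((x + y) ^ 2 : ℝ) * Complex.I)
        ∂(gaussianReal 0 t)) - ∫ y, (ENNReal.ofReal (-(x + y))).toReal •
          Complex.exp (θ * ((x + y) ^ 2 : ℝ) * Complex.I) ∂(gaussianReal 0 t) = GG t θ x := by
    have h5 := integral_sub (hi _ hint) (hi _ hint.neg)
    simp only [Pi.neg_apply] at h5
    rw [← h5]
    unfold GG
    refine integral_congr_ae (ae_of_all _ fun y => ?_)
    try simp only
    rw [← sub_smul, ENNReal.toReal_ofReal', ENNReal.toReal_ofReal', Complex.real_smul]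
    congr 2
    rcases le_total 0 (x + y) with h | h
    · rw [max_eq_left h, max_eq_right (by linarith)]; ring
    · rw [max_eq_right h, max_eq_left (by linarith)]; ring
  have e2 : ∫ p, Complex.exp (θ * ((a + p.1) ^ 2 + (b + p.2.1) ^ 2 + (c + p.2.2) ^ 2 : ℝ) * Complex.I)
      ∂((gaussianReal 0 t).prod ((gaussianReal 0 t).prod (gaussianReal 0 t))) =
      FF t θ a * FF t θ b * FF t θ c := by
    have h1 := integral_prod_mul (μ := gaussianReal 0 t) (ν := (gaussianReal 0 t).prod (gaussianReal 0 t))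
      (fun u : ℝ => Complex.exp (θ * ((a + u) ^ 2 : ℝ) * Complex.I))
      (fun p : ℝ × ℝ => Complex.exp (θ * ((b + p.1) ^ 2 : ℝ) * Complex.I) *
        Complex.exp (θ * ((c + p.2) ^ 2 : ℝ) * Complex.I))
    have h2 := integral_prod_mul (μ := gaussianReal 0 t) (ν := gaussianReal 0 t)
      (fun u : ℝ => Complex.exp (θ * ((b + u) ^ 2 : ℝ) * Complex.I))
      (fun u : ℝ => Complex.exp (θ * ((c + u) ^ 2 : ℝ) * Complex.I))
    rw [h2] at h1
    unfold FF
    rw [mul_assoc, ← h1]
    refine integral_congr_ae (ae_of_all _ fun p => ?_)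
    try simp only
    rw [← Complex.exp_add, ← Complex.exp_add]
    congr 1
    push_cast
    ring
  rw [e2, ENNReal.toReal_ofReal hx0, Complex.real_smul, prod_eq ht, ← hx, ← e1]
  ring

theorem gau : S_GAU := by
  intro t a b c q hq
  rcases eq_or_ne t 0 with ht | ht
  · subst ht
    rw [gaussianReal_zero_var]
    simp only [lintegral_dirac, add_zero]
    rw [ENNReal.ofReal_of_nonpos (neg_nonpos.2 (nrm_nonneg a b c)), zero_mul, zero_add]
  · have hk := key ht a b c
    have hqs : Measurable fun z : ℝ => q (√z) := hq.comp (by fun_prop)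
    have hq1 : Measurable fun y : ℝ => q (√((nrm a b c + y) ^ 2)) := hq.comp (by fun_prop)
    have hq2 : Measurable fun p : ℝ × ℝ × ℝ =>
      q (√((a + p.1) ^ 2 + (b + p.2.1) ^ 2 + (c + p.2.2) ^ 2)) := hq.comp (by fun_prop)
    have h := congrArg (fun μ : Measure ℝ => ∫⁻ z, q (√z) ∂μ) hk
    beta_reduce at h
    rw [lintegral_add_measure, lintegral_smul_measure, lintegral_map hqs (by fun_prop),
      lintegral_map hqs (by fun_prop), lintegral_map hqs (by fun_prop),
      lintegral_withDensity_eq_lintegral_mul _ (by fun_prop) hq1,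
      lintegral_withDensity_eq_lintegral_mul _ (by fun_prop) hq1,
      lintegral_prod _ hq2.aemeasurable] at h
    have e1 : ∫⁻ y, ENNReal.ofReal (nrm a b c + y) * q (nrm a b c + y) ∂(gaussianReal 0 t) =
        ∫⁻ y, ((fun y => ENNReal.ofReal (nrm a b c + y)) * fun y => q (√((nrm a b c + y) ^ 2))) y
          ∂(gaussianReal 0 t) := by
      refine lintegral_congr fun y => ?_
      simp only [Pi.mul_apply]
      rcases le_total 0 (nrm a b c + y) with h | h
      · rw [Real.sqrt_sq h]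
      · rw [ENNReal.ofReal_of_nonpos h, zero_mul, zero_mul]
    have e2 : ∫⁻ y, ENNReal.ofReal (-(nrm a b c + y)) * q (-(nrm a b c + y)) ∂(gaussianReal 0 t) =
        ∫⁻ y, ((fun y => ENNReal.ofReal (-(nrm a b c + y))) * fun y => q (√((nrm a b c + y) ^ 2))) y
          ∂(gaussianReal 0 t) := by
      refine lintegral_congr fun y => ?_
      simp only [Pi.mul_apply]
      rcases le_total 0 (nrm a b c + y) with h | h
      · rw [ENNReal.ofReal_of_nonpos (by linarith), zero_mul, zero_mul]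
      · rw [← Real.sqrt_sq (show 0 ≤ -(nrm a b c + y) by linarith), neg_sq,
          Real.sqrt_sq_eq_abs]
    rw [e1, e2, h]
    congr 2
    refine lintegral_congr fun y₁ => ?_
    have hq3 : Measurable fun p : ℝ × ℝ =>
      q (√((a + y₁) ^ 2 + (b + p.1) ^ 2 + (c + p.2) ^ 2)) := hq.comp (by fun_prop)
    exact lintegral_prod _ hq3.aemeasurable

end Q297.WT
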