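import Pool.Agent.Q297.WT.Refl
import Pool.Agent.Q297.WT.Gau

/-!
WT: the one-time form of the h-transform, `S_KIL`.
-/

open MeasureTheory ProbabilityTheory Set Filter Topology
open scoped ENNReal NNReal unitInterval
open Q297.PathC Q297.Prepend

namespace Q297.WT

variable {W : Measure Path}

lemma measurable_nrm : Measurable fun p : ℝ × ℝ × ℝ => nrm p.1 p.2.1 p.2.2 := by
  unfold nrm; fun_prop

@[fun_prop]
lemma continuous_nrm' {X : Type*} [TopologicalSpace X] {f g h : X → ℝ} (hf : Continuous f)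
    (hg : Continuous g) (hh : Continuous h) : Continuous fun x => nrm (f x) (g x) (h x) := by
  unfold nrm; fun_prop

@[fun_prop]
lemma measurable_nrm' {X : Type*} [MeasurableSpace X] {f g h : X → ℝ} (hf : Measurable f)
    (hg : Measurable g) (hh : Measurable h) : Measurable fun x => nrm (f x) (g x) (h x) := by
  unfold nrm; fun_prop

/-- triple integrals -/
lemma lint3 (γ : Measure ℝ) [SFinite γ] {f : ℝ × ℝ × ℝ → ℝ≥0∞} (hf : Measurable f) :
    ∫⁻ y₁, ∫⁻ y₂, ∫⁻ y₃, f (y₁, y₂, y₃) ∂γ ∂γ ∂γ = ∫⁻ p, f p ∂(γ.prod (γ.prod γ)) := by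
  rw [lintegral_prod _ hf.aemeasurable]
  refine lintegral_congr fun y₁ => ?_
  have : Measurable fun p : ℝ × ℝ => f (y₁, p) := hf.comp (by fun_prop)
  rw [lintegral_prod _ this.aemeasurable]

/-- the reflection principle integrated -/
lemma ref_int (hW : IsW W) {x : ℝ} (hx : 0 ≤ x) (t : ℝ≥0) {q : ℝ → ℝ≥0∞} (hq : Measurable q) :
    (∫⁻ ω in alive x t, ENNReal.ofReal (x + ω t) * q (x + ω t) ∂W) +
      ∫⁻ y, ENNReal.ofReal (-(x + y)) * q (-(x + y)) ∂(gaussianReal 0 t) =
      ∫⁻ y, ENNReal.ofReal (x + y) * q (x + y) ∂(gaussianReal 0 t) := by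
  have hpr := isProb hW
  have hmx : Measurable fun ω : Path => x + ω t := measurable_const.add (measurable_eval t)
  have hmn : Measurable fun ω : Path => -(x + ω t) := hmx.neg
  set νA := (W.restrict (alive x t)).map (fun ω : Path => x + ω t) with hνA
  set νm := W.map (fun ω : Path => -(x + ω t)) with hνm
  set νp := W.map (fun ω : Path => x + ω t) with hνp
  have f1 : IsFiniteMeasure νA := Measure.isFiniteMeasure_map _ _
  have f2 : IsFiniteMeasure νm := Measure.isFiniteMeasure_map _ _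
  have f3 : IsFiniteMeasure νp := Measure.isFiniteMeasure_map _ _
  have hray : ∀ r : ℝ, 0 ≤ r → (νA + νm) (Ioi r) = νp (Ioi r) := by
    intro r hr
    have h := ref W hW x t r hx hr
    rw [Measure.add_apply, hνA, hνm, hνp, Measure.map_apply hmx measurableSet_Ioi,
      Measure.map_apply hmn measurableSet_Ioi, Measure.map_apply hmx measurableSet_Ioi,
      Measure.restrict_apply (hmx measurableSet_Ioi)]
    have e1 : (fun ω : Path => x + ω t) ⁻¹' Ioi r ∩ alive x t = alive x t ∩ {ω | r < x + ω t} := by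
      rw [inter_comm]; rfl
    have e2 : (fun ω : Path => -(x + ω t)) ⁻¹' Ioi r = {ω | x + ω t < -r} := by
      ext ω
      simp only [mem_preimage, mem_Ioi, mem_ofPred_eq]
      constructor <;> intro h <;> linarith
    have e3 : (fun ω : Path => x + ω t) ⁻¹' Ioi r = {ω | r < x + ω t} := rfl
    have e4 : (-fun ω : Path => x + ω t) = fun ω : Path => -(x + ω t) := rfl
    rw [e1, e3]
    rw [e2] at *
    exact h
  have hres : (νA + νm).restrict (Ioi 0) = νp.restrict (Ioi 0) := by
    refine ext_of_generate_finite (Set.range Ioi) ?_ (isPiSystem_Ioi) ?_ ?_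
    · exact (borel_eq_generateFrom_Ioi ℝ ▸ BorelSpace.measurable_eq : (inferInstance : MeasurableSpace ℝ) = _)
    · rintro _ ⟨r, rfl⟩
      rw [Measure.restrict_apply measurableSet_Ioi, Measure.restrict_apply measurableSet_Ioi,
        Ioi_inter_Ioi]
      exact hray _ (le_max_right _ _)
    · rw [Measure.restrict_apply MeasurableSet.univ, Measure.restrict_apply MeasurableSet.univ,
        univ_inter]
      exact hray 0 le_rfl
  have hh : Measurable fun y : ℝ => ENNReal.ofReal y * q y := by fun_prop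
  have hzero : ∀ ν : Measure ℝ, ∫⁻ y, ENNReal.ofReal y * q y ∂ν =
      ∫⁻ y, ENNReal.ofReal y * q y ∂(ν.restrict (Ioi 0)) := by
    intro ν
    rw [← lintegral_indicator measurableSet_Ioi]
    refine lintegral_congr fun y => ?_
    by_cases hy : y ∈ Ioi (0 : ℝ)
    · rw [indicator_of_mem hy]
    · rw [indicator_of_notMem hy, ENNReal.ofReal_of_nonpos (not_lt.1 hy), zero_mul]
  have h1 : ∫⁻ y, ENNReal.ofReal y * q y ∂(νA + νm) = ∫⁻ y, ENNReal.ofReal y * q y ∂νp := by
    rw [hzero, hzero νp, hres]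
  rw [lintegral_add_measure, hνA, hνm, hνp, lintegral_map hh hmx, lintegral_map hh hmn,
    lintegral_map hh hmx] at h1
  have h2 := lintegral_eval hW t (f := fun y => ENNReal.ofReal (-(x + y)) * q (-(x + y)))
    (by fun_prop)
  have h3 := lintegral_eval hW t (f := fun y => ENNReal.ofReal (x + y) * q (x + y))
    (by fun_prop)
  rw [← h2, ← h3]
  exact h1

lemma kil_ind (hW : IsW W) (t : ℝ≥0) (a b c : ℝ) {q : ℝ → ℝ≥0∞} (hq : Measurable q)
    (hq1 : ∀ y, q y ≤ 1) :
    ∫⁻ ω in alive (nrm a b c) t, ENNReal.ofReal (nrm a b c + ω t) * q (nrm a b c + ω t) ∂W =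
      ENNReal.ofReal (nrm a b c) * ∫⁻ y₁, ∫⁻ y₂, ∫⁻ y₃, q (nrm (a + y₁) (b + y₂) (c + y₃))
        ∂(gaussianReal 0 t) ∂(gaussianReal 0 t) ∂(gaussianReal 0 t) := by
  have h1 := ref_int hW (nrm_nonneg a b c) t hq
  rw [gau t a b c q hq, add_comm] at h1
  have hfin : ∫⁻ y, ENNReal.ofReal (-(nrm a b c + y)) * q (-(nrm a b c + y)) ∂(gaussianReal 0 t) ≠ ∞ := by
    have hint : Integrable (fun y : ℝ => nrm a b c + y) (gaussianReal 0 t) :=
      (integrable_const _).add (IsGaussian.integrable_id)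
    refine ne_of_lt (lt_of_le_of_lt ?_ hint.neg.lintegral_lt_top)
    refine lintegral_mono fun y => ?_
    calc ENNReal.ofReal (-(nrm a b c + y)) * q (-(nrm a b c + y))
        ≤ ENNReal.ofReal (-(nrm a b c + y)) * 1 := by gcongr; exact hq1 _
      _ = _ := by rw [mul_one]; rfl
  exact (ENNReal.add_right_inj hfin).1 h1

theorem kil : S_KIL := by
  intro W hW t a b c q hq
  have hpr := isProb hW
  have hmx : Measurable fun ω : Path => nrm a b c + ω t := measurable_const.add (measurable_eval t)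
  set x := nrm a b c with hx
  set A1 := ((W.restrict (alive x t)).withDensity (fun ω => ENNReal.ofReal (x + ω t))).map
    (fun ω : Path => x + ω t) with hA1
  set A2 := ENNReal.ofReal x • (((gaussianReal 0 t).prod ((gaussianReal 0 t).prod
    (gaussianReal 0 t))).map (fun p => nrm (a + p.1) (b + p.2.1) (c + p.2.2))) with hA2
  have h1 : ∀ q : ℝ → ℝ≥0∞, Measurable q → ∫⁻ y, q y ∂A1 =
      ∫⁻ ω in alive x t, ENNReal.ofReal (x + ω t) * q (x + ω t) ∂W := by
    intro q hq
    have hqx : Measurable fun ω : Path => q (x + ω t) := hq.comp hmx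
    rw [hA1, lintegral_map hq hmx, lintegral_withDensity_eq_lintegral_mul _ hmx.ennreal_ofReal hqx]
    rfl
  have h2 : ∀ q : ℝ → ℝ≥0∞, Measurable q → ∫⁻ y, q y ∂A2 =
      ENNReal.ofReal x * ∫⁻ y₁, ∫⁻ y₂, ∫⁻ y₃, q (nrm (a + y₁) (b + y₂) (c + y₃))
        ∂(gaussianReal 0 t) ∂(gaussianReal 0 t) ∂(gaussianReal 0 t) := by
    intro q hq
    rw [hA2, lintegral_smul_measure, lintegral_map hq (by fun_prop), smul_eq_mul]
    congr 1
    exact (lint3 _ (f := fun p => q (nrm (a + p.1) (b + p.2.1) (c + p.2.2))) (by fun_prop)).symm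
  have h3 : A1 = A2 := by
    ext C hC
    have hi : Measurable (C.indicator (fun _ => (1 : ℝ≥0∞))) := measurable_const.indicator hC
    rw [← lintegral_indicator_one hC, ← lintegral_indicator_one hC]
    change ∫⁻ y, C.indicator (fun _ => (1 : ℝ≥0∞)) y ∂A1 = ∫⁻ y, C.indicator (fun _ => (1 : ℝ≥0∞)) y ∂A2
    rw [h1 _ hi, h2 _ hi]
    exact kil_ind hW t a b c hi fun y => indicator_le_self' (fun _ _ => zero_le) y
  rw [← h1 q hq, ← h2 q hq, h3]

end Q297.WT
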