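import Pool.Agent.Q297.WT.Two

/-!
WT: the total weight is bounded in `L²`, `S_L2B`.
-/

open MeasureTheory ProbabilityTheory Set Filter Topology
open scoped ENNReal NNReal unitInterval
open Q297.PathC Q297.Prepend

namespace Q297.WT

variable {W : Measure Path}

lemma meas_lam {θ : ℝ → ℝ≥0∞} (hθm : Measurable θ) (ε : ℝ) : Measurable (lam θ ε) := by
  unfold lam
  have h1 : Measurable fun ω : Path => ε + ω 1 := measurable_const.add (measurable_eval 1)
  refine Measurable.indicator ?_ (measurableSet_alive _ _)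
  exact ((h1.div_const ε).ennreal_ofReal).mul (hθm.comp (h1.add_const ε))

lemma continuous_st : Continuous st := by
  unfold st
  fun_prop

/-- evaluation is jointly measurable -/
lemma meas_eval2 {X : Type*} [MeasurableSpace X] {f : X → Path} {g : X → ℝ≥0} (hf : Measurable f)
    (hg : Measurable g) : Measurable fun x => f x (g x) := by
  have h : Measurable fun p : Path × ℝ≥0 => p.1 p.2 := by
    have : Continuous fun p : Path × ℝ≥0 => p.1 p.2 := by fun_prop
    exact this.measurable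
  exact h.comp (hf.prodMk hg)

lemma meas_shift2 : Measurable fun p : Path × I => shift (st p.2) p.1 := by
  refine measurable_of_eval fun t => ?_
  simp only [shift_apply]
  have h1 : Measurable fun p : Path × I => st p.2 := continuous_st.measurable.comp measurable_snd
  exact (meas_eval2 measurable_fst (h1.add_const t)).sub (meas_eval2 measurable_fst h1)

/-- the singular integral over the starting times -/
lemma sing : ∃ C : ℝ≥0, ∀ s : I, ∫⁻ s' : I, (ENNReal.ofReal |(s' : ℝ) - s|) ^ (-(3 / 4) : ℝ) ≤ C := by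
  refine ⟨(2 * ((1 : ℝ) ^ (1 - (3 / 4 : ℝ)) / (1 - 3 / 4))).toNNReal, fun s => ?_⟩
  have hcalc : ∫⁻ s' : I, (ENNReal.ofReal |(s' : ℝ) - s|) ^ (-(3 / 4) : ℝ) =
      ∫⁻ x in Icc (0 : ℝ) 1, (ENNReal.ofReal |x - s|) ^ (-(3 / 4) : ℝ) :=
    lintegral_subtype_comap (μ := volume) measurableSet_Icc
      (fun x : ℝ => (ENNReal.ofReal |x - s|) ^ (-(3 / 4) : ℝ))
  rw [hcalc]
  have hmp := measurePreserving_sub_right (volume : Measure ℝ) (s : ℝ)
  have h3 := hmp.setLIntegral_comp_preimage (s := Icc (-1) 1) measurableSet_Icc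
    (f := fun u => (ENNReal.ofReal |u|) ^ (-(3 / 4) : ℝ)) (by fun_prop)
  refine le_trans (lintegral_mono_set ?_) (h3.trans_le ?_)
  · intro x hx
    have h0 := s.2.1
    have h1 := s.2.2
    simp only [mem_preimage, mem_Icc] at hx ⊢
    constructor <;> linarith [hx.1, hx.2]
  · exact lint_rpow (by norm_num) (by norm_num) (by norm_num)

theorem l2b : S_L2B := by
  intro W hW θ K hθm hθ
  have hpr := isProb hW
  obtain ⟨C, hC⟩ := two W hW θ K hθm hθ
  obtain ⟨D, hD⟩ := sing
  refine ⟨(C + 1) * 2 * D, fun ε hε hε1 => ?_⟩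
  let L : Path × I → ℝ≥0∞ := fun p => lam θ ε (shift (st p.2) p.1)
  have hL : Measurable L := (meas_lam hθm ε).comp meas_shift2
  -- the two point bound
  have hpair : ∀ s s' : I, ∫⁻ ω, L (ω, s) * L (ω, s') ∂W ≤
      (C + 1) * 2 * (ENNReal.ofReal |(s' : ℝ) - s|) ^ (-(3 / 4) : ℝ) := by
    have hlt : ∀ s s' : I, (s : ℝ) < s' → ∫⁻ ω, L (ω, s) * L (ω, s') ∂W ≤
        (C + 1) * 2 * (ENNReal.ofReal |(s' : ℝ) - s|) ^ (-(3 / 4) : ℝ) := by
      intro s s' hss
      set r : ℝ≥0 := ⟨((s' : ℝ) - s) / 2, by linarith⟩ with hr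
      have hrc : (r : ℝ) = ((s' : ℝ) - s) / 2 := rfl
      have hr0 : 0 < r := by
        rw [← NNReal.coe_pos, hrc]
        linarith
      have hr2 : r ≤ 1 / 2 := by
        rw [← NNReal.coe_le_coe, hrc]
        have h0 := s.2.1
        have h1 := s'.2.2
        push_cast
        linarith
      have hst : st s' = st s + r := by
        ext
        rw [NNReal.coe_add, hrc]
        change (s' : ℝ) / 2 = (s : ℝ) / 2 + ((s' : ℝ) - s) / 2
        ring
      have h := hC ε (st s) r hε hε1 hr0 hr2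
      rw [← hst] at h
      refine h.trans ?_
      have e1 : (r : ℝ≥0∞) = ENNReal.ofReal |(s' : ℝ) - s| * ENNReal.ofReal (1 / 2) := by
        rw [← ENNReal.ofReal_mul (abs_nonneg _), abs_of_pos (by linarith), ← ENNReal.ofReal_coe_nnreal]
        congr 1
        rw [hrc]
        ring
      rw [e1, ENNReal.mul_rpow_of_ne_top ENNReal.ofReal_ne_top ENNReal.ofReal_ne_top]
      have e2 : (ENNReal.ofReal (1 / 2)) ^ (-(3 / 4) : ℝ) ≤ 2 := by
        calc (ENNReal.ofReal (1 / 2)) ^ (-(3 / 4) : ℝ) ≤ (ENNReal.ofReal (1 / 2)) ^ (-1 : ℝ) :=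
              ENNReal.rpow_le_rpow_of_exponent_ge (by
                rw [ENNReal.ofReal_le_one]; norm_num) (by norm_num)
          _ = 2 := by
              rw [ENNReal.rpow_neg_one, ← ENNReal.ofReal_inv_of_pos (by norm_num)]
              norm_num
      calc (C : ℝ≥0∞) * ((ENNReal.ofReal |(s' : ℝ) - s|) ^ (-(3 / 4) : ℝ) *
            (ENNReal.ofReal (1 / 2)) ^ (-(3 / 4) : ℝ))
          ≤ (C + 1) * ((ENNReal.ofReal |(s' : ℝ) - s|) ^ (-(3 / 4) : ℝ) * 2) := by
            gcongr
            exact le_self_add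
        _ = _ := by ring
    intro s s'
    rcases lt_trichotomy (s : ℝ) s' with h | h | h
    · exact hlt s s' h
    · rw [h, sub_self, abs_zero, ENNReal.ofReal_zero, ENNReal.zero_rpow_of_neg (by norm_num),
        ENNReal.mul_top (by positivity)]
      exact le_top
    · have := hlt s' s h
      rw [abs_sub_comm]
      refine le_trans (le_of_eq ?_) this
      refine lintegral_congr fun ω => mul_comm _ _
  have hsq : ∀ ω : Path, (∫⁻ s : I, L (ω, s)) ^ 2 = ∫⁻ s : I, ∫⁻ s' : I, L (ω, s) * L (ω, s') := by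
    intro ω
    have hω : Measurable fun s : I => L (ω, s) := hL.comp (by fun_prop)
    have : ∀ s : I, ∫⁻ s' : I, L (ω, s) * L (ω, s') = L (ω, s) * ∫⁻ s' : I, L (ω, s') := fun s =>
      lintegral_const_mul _ hω
    simp_rw [this]
    rw [lintegral_mul_const _ hω, pow_two]
  have m3 : Measurable fun p : (Path × I) × I => L (p.1.1, p.1.2) * L (p.1.1, p.2) :=
    (hL.comp (by fun_prop)).mul (hL.comp (by fun_prop))
  calc ∫⁻ ω, (∫⁻ s : I, lam θ ε (shift (st s) ω)) ^ 2 ∂W
      = ∫⁻ ω, (∫⁻ s : I, ∫⁻ s' : I, L (ω, s) * L (ω, s')) ∂W := lintegral_congr hsq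
    _ = ∫⁻ s : I, ∫⁻ ω, (∫⁻ s' : I, L (ω, s) * L (ω, s')) ∂W :=
        lintegral_lintegral_swap m3.lintegral_prod_right'.aemeasurable
    _ = ∫⁻ s : I, ∫⁻ s' : I, ∫⁻ ω, L (ω, s) * L (ω, s') ∂W := by
        refine lintegral_congr fun s => ?_
        exact lintegral_lintegral_swap (f := fun (ω : Path) (s' : I) => L (ω, s) * L (ω, s'))
          (m3.comp (by fun_prop : Measurable fun p : Path × I => ((p.1, s), p.2))).aemeasurable
    _ ≤ ∫⁻ s : I, ∫⁻ s' : I, (C + 1) * 2 * (ENNReal.ofReal |(s' : ℝ) - s|) ^ (-(3 / 4) : ℝ) :=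
        lintegral_mono fun s => lintegral_mono fun s' => hpair s s'
    _ ≤ ∫⁻ _ : I, (C + 1) * 2 * (D : ℝ≥0∞) := by
        refine lintegral_mono fun s => ?_
        rw [lintegral_const_mul _ (by fun_prop)]
        gcongr
        exact hD s
    _ = _ := by
        rw [lintegral_const, measure_univ, mul_one]
        push_cast
        ring

end Q297.WT
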