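import Pool.Agent.Q297.WT.Stm

/-!
WT: weak Markov property on the path space in integral form.
-/

open MeasureTheory ProbabilityTheory Set Filter Topology
open scoped ENNReal NNReal unitInterval
open Q297.PathC Q297.Prepend

namespace Q297.WT

/-- the path stopped at the time `s` -/
def stop (s : ℝ≥0) (x : Path) : Path := ⟨fun t => x (min t s), by fun_prop⟩

@[simp] lemma stop_apply (s t : ℝ≥0) (x : Path) : stop s x t = x (min t s) := rfl

lemma measurable_stop (s : ℝ≥0) : Measurable (stop s) :=
  measurable_of_eval fun _ => measurable_eval _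

variable {W : Measure Path}

lemma indep_stop (hW : IsW W) (s : ℝ≥0) : IndepFun (stop s) (shift s) W := by
  have h := IsPreBrownianReal.indepFun_shift hW.toIsPreBrownianReal s
  rw [indepFun_iff_measure_inter_preimage_eq_mul]
  intro A A' hA hA'
  obtain ⟨a, ha, rfl⟩ : ∃ a : Set (ℝ≥0 → ℝ), MeasurableSet a ∧
      (fun (f : Path) (t : ℝ≥0) => f t) ⁻¹' a = A := by rw [instMS_eq] at hA; exact hA
  obtain ⟨b, hb, rfl⟩ : ∃ a : Set (ℝ≥0 → ℝ), MeasurableSet a ∧
      (fun (f : Path) (t : ℝ≥0) => f t) ⁻¹' a = A' := by rw [instMS_eq] at hA'; exact hA'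
  let g : (Set.Iic s → ℝ) → (ℝ≥0 → ℝ) := fun f u => f ⟨min u s, Set.mem_Iic.2 (min_le_right _ _)⟩
  have hg : Measurable g := measurable_pi_lambda _ fun u => measurable_pi_apply _
  have h2 := h.measure_inter_preimage_eq_mul b (g ⁻¹' a) hb (hg ha)
  rw [inter_comm, mul_comm]
  exact h2

/-- **weak Markov property** in integral form -/
lemma markov (hW : IsW W) (s : ℝ≥0) {F : Path × Path → ℝ≥0∞} (hF : Measurable F) :
    ∫⁻ ω, F (stop s ω, shift s ω) ∂W = ∫⁻ ω, ∫⁻ ω', F (stop s ω, ω') ∂W ∂W := by
  have := isProb hW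
  have h1 := (indepFun_iff_map_prod_eq_prod_map_map (measurable_stop s).aemeasurable
    (measurable_shift s).aemeasurable).1 (indep_stop hW s)
  have h2 : ∫⁻ ω, F (stop s ω, shift s ω) ∂W =
      ∫⁻ p, F p ∂(W.map fun ω => (stop s ω, shift s ω)) :=
    (lintegral_map hF ((measurable_stop s).prodMk (measurable_shift s))).symm
  rw [h2, h1, map_shift hW, lintegral_prod _ hF.aemeasurable,
    lintegral_map hF.lintegral_prod_right' (measurable_stop s)]

/-- weak Markov property for bounded real functions -/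
lemma markov_real (hW : IsW W) (s : ℝ≥0) {F : Path × Path → ℝ} (hF : Measurable F) {M : ℝ}
    (hM : ∀ p, |F p| ≤ M) :
    ∫ ω, F (stop s ω, shift s ω) ∂W = ∫ ω, ∫ ω', F (stop s ω, ω') ∂W ∂W := by
  have := isProb hW
  have h1 := (indepFun_iff_map_prod_eq_prod_map_map (measurable_stop s).aemeasurable
    (measurable_shift s).aemeasurable).1 (indep_stop hW s)
  have h2 : ∫ ω, F (stop s ω, shift s ω) ∂W =
      ∫ p, F p ∂(W.map fun ω => (stop s ω, shift s ω)) :=
    (integral_map ((measurable_stop s).prodMk (measurable_shift s)).aemeasurable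
      hF.aestronglyMeasurable).symm
  have hp : IsProbabilityMeasure (W.map (stop s)) :=
    Measure.isProbabilityMeasure_map (measurable_stop s).aemeasurable
  have hint : Integrable F ((W.map (stop s)).prod W) :=
    Integrable.of_bound hF.aestronglyMeasurable M (ae_of_all _ fun p => by
      rw [Real.norm_eq_abs]; exact hM p)
  rw [h2, h1, map_shift hW, integral_prod _ hint,
    integral_map (measurable_stop s).aemeasurable hint.aestronglyMeasurable.integral_prod_right']

lemma hasLaw (hW : IsW W) (t : ℝ≥0) : HasLaw (fun ω : Path => ω t) (gaussianReal 0 t) W :=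
  IsPreBrownianReal.hasLaw_eval hW.toIsPreBrownianReal t

lemma lintegral_eval (hW : IsW W) (t : ℝ≥0) {f : ℝ → ℝ≥0∞} (hf : Measurable f) :
    ∫⁻ ω, f (ω t) ∂W = ∫⁻ y, f y ∂(gaussianReal 0 t) := by
  rw [← (hasLaw hW t).map_eq, lintegral_map hf (measurable_eval t)]

lemma ae_zero (hW : IsW W) : ∀ᵐ ω ∂W, ω 0 = 0 :=
  IsPreBrownianReal.eval_zero_ae_eq_zero hW.toIsPreBrownianReal

lemma isClosed_alive (x : ℝ) (t : ℝ≥0) : IsClosed (alive x t) := by
  have : alive x t = ⋂ v ∈ Set.Iic t, {ω : Path | 0 ≤ x + ω v} := by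
    ext ω; simp [alive]
  rw [this]
  refine isClosed_biInter fun v _ => isClosed_le continuous_const ?_
  exact continuous_const.add (continuous_eval_const v)

lemma measurableSet_alive (x : ℝ) (t : ℝ≥0) : MeasurableSet (alive x t) :=
  (isClosed_alive x t).measurableSet

lemma alive_stop {x : ℝ} {t s : ℝ≥0} (hts : t ≤ s) (ω : Path) :
    stop s ω ∈ alive x t ↔ ω ∈ alive x t := by
  simp only [alive, mem_ofPred_eq, stop_apply]
  refine forall₂_congr fun v hv => ?_
  rw [min_eq_left (hv.trans hts)]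

lemma alive_add (x : ℝ) (s t : ℝ≥0) (ω : Path) :
    ω ∈ alive x (s + t) ↔ ω ∈ alive x s ∧ shift s ω ∈ alive (x + ω s) t := by
  simp only [alive, mem_ofPred_eq, shift_apply]
  constructor
  · intro h
    refine ⟨fun v hv => h v (hv.trans le_self_add), fun v hv => ?_⟩
    have := h (s + v) (by gcongr)
    linarith
  · rintro ⟨h1, h2⟩ v hv
    rcases le_total v s with h | h
    · exact h1 v h
    · obtain ⟨w, rfl⟩ := exists_add_of_le h
      have := h2 w (by simpa using hv)
      linarith

end Q297.WT
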