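import Pool.Agent.Q297.WT.Kil

/-!
WT: the h-transform at several times, `S_MUL`.
-/

open MeasureTheory ProbabilityTheory Set Filter Topology
open scoped ENNReal NNReal unitInterval
open Q297.PathC Q297.Prepend

namespace Q297.WT

variable {W : Measure Path}

/-- weak Markov property for functions of the present value and of the future -/
lemma mk1 (hW : IsW W) (s : ℝ≥0) {f : ℝ × Path → ℝ≥0∞} (hf : Measurable f) :
    ∫⁻ ω, f (ω s, shift s ω) ∂W = ∫⁻ y, ∫⁻ ω, f (y, ω) ∂W ∂(gaussianReal 0 s) := by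
  have := isProb hW
  have hF : Measurable fun p : Path × Path => f (p.1 s, p.2) :=
    hf.comp (((measurable_eval s).comp measurable_fst).prodMk measurable_snd)
  have h := markov hW s hF
  simp only [stop_apply, min_self] at h
  rw [h]
  exact lintegral_eval hW s (f := fun y => ∫⁻ ω, f (y, ω) ∂W) hf.lintegral_prod_right'

/-- weak Markov property for three independent Brownian motions -/
lemma mk3 (hW : IsW W) (s : ℝ≥0) {g : (ℝ × ℝ × ℝ) × (Path × Path × Path) → ℝ≥0∞}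
    (hg : Measurable g) :
    ∫⁻ ω₁, ∫⁻ ω₂, ∫⁻ ω₃, g ((ω₁ s, ω₂ s, ω₃ s), (shift s ω₁, shift s ω₂, shift s ω₃)) ∂W ∂W ∂W =
      ∫⁻ y₁, ∫⁻ y₂, ∫⁻ y₃, (∫⁻ ω₁, ∫⁻ ω₂, ∫⁻ ω₃, g ((y₁, y₂, y₃), (ω₁, ω₂, ω₃)) ∂W ∂W ∂W)
        ∂(gaussianReal 0 s) ∂(gaussianReal 0 s) ∂(gaussianReal 0 s) := by
  have hpr := isProb hW
  set γ := gaussianReal 0 s with hγ
  -- innermost
  have h3 : ∀ ω₁ ω₂ : Path, ∫⁻ ω₃, g ((ω₁ s, ω₂ s, ω₃ s), (shift s ω₁, shift s ω₂, shift s ω₃)) ∂W =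
      ∫⁻ y₃, ∫⁻ ω₃, g ((ω₁ s, ω₂ s, y₃), (shift s ω₁, shift s ω₂, ω₃)) ∂W ∂γ := fun ω₁ ω₂ =>
    mk1 hW s (f := fun p => g ((ω₁ s, ω₂ s, p.1), (shift s ω₁, shift s ω₂, p.2)))
      (hg.comp (by fun_prop))
  simp_rw [h3]
  have m3 : Measurable fun p : (ℝ × ℝ × Path × Path) => ∫⁻ y₃, ∫⁻ ω₃,
      g ((p.1, p.2.1, y₃), (p.2.2.1, p.2.2.2, ω₃)) ∂W ∂γ := by
    have a : Measurable fun p : ((ℝ × ℝ × Path × Path) × ℝ) × Path =>
      g ((p.1.1.1, p.1.1.2.1, p.1.2), (p.1.1.2.2.1, p.1.1.2.2.2, p.2)) := hg.comp (by fun_prop)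
    exact a.lintegral_prod_right'.lintegral_prod_right'
  have h2 : ∀ ω₁ : Path, ∫⁻ ω₂, (∫⁻ y₃, ∫⁻ ω₃,
      g ((ω₁ s, ω₂ s, y₃), (shift s ω₁, shift s ω₂, ω₃)) ∂W ∂γ) ∂W =
      ∫⁻ y₂, ∫⁻ ω₂, (∫⁻ y₃, ∫⁻ ω₃, g ((ω₁ s, y₂, y₃), (shift s ω₁, ω₂, ω₃)) ∂W ∂γ) ∂W ∂γ := fun ω₁ =>
    mk1 hW s (f := fun p => ∫⁻ y₃, ∫⁻ ω₃, g ((ω₁ s, p.1, y₃), (shift s ω₁, p.2, ω₃)) ∂W ∂γ)
      (m3.comp (by fun_prop : Measurable fun p : ℝ × Path => (ω₁ s, p.1, shift s ω₁, p.2)))
  simp_rw [h2]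
  have m2 : Measurable fun p : ℝ × Path => ∫⁻ y₂, ∫⁻ ω₂, (∫⁻ y₃, ∫⁻ ω₃,
      g ((p.1, y₂, y₃), (p.2, ω₂, ω₃)) ∂W ∂γ) ∂W ∂γ := by
    have a : Measurable fun p : ((ℝ × Path) × ℝ) × Path => ∫⁻ y₃, ∫⁻ ω₃,
      g ((p.1.1.1, p.1.2, y₃), (p.1.1.2, p.2, ω₃)) ∂W ∂γ :=
      m3.comp (by fun_prop : Measurable fun p : ((ℝ × Path) × ℝ) × Path =>
        (p.1.1.1, p.1.2, p.1.1.2, p.2))
    exact a.lintegral_prod_right'.lintegral_prod_right'
  have h1 := mk1 hW s (f := fun p => ∫⁻ y₂, ∫⁻ ω₂, (∫⁻ y₃, ∫⁻ ω₃,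
      g ((p.1, y₂, y₃), (p.2, ω₂, ω₃)) ∂W ∂γ) ∂W ∂γ) m2
  simp only at h1
  rw [h1]
  refine lintegral_congr fun y₁ => ?_
  -- swap ω₁ and y₂
  have ma : Measurable fun p : (Path × ℝ) × Path => ∫⁻ y₃, ∫⁻ ω₃,
      g ((y₁, p.1.2, y₃), (p.1.1, p.2, ω₃)) ∂W ∂γ :=
    m3.comp (by fun_prop : Measurable fun p : (Path × ℝ) × Path => (y₁, p.1.2, p.1.1, p.2))
  rw [lintegral_lintegral_swap ma.lintegral_prod_right'.aemeasurable]
  refine lintegral_congr fun y₂ => ?_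
  -- swap ω₂ and y₃
  have h4 : ∀ ω₁ : Path, ∫⁻ ω₂, ∫⁻ y₃, ∫⁻ ω₃, g ((y₁, y₂, y₃), (ω₁, ω₂, ω₃)) ∂W ∂γ ∂W =
      ∫⁻ y₃, ∫⁻ ω₂, ∫⁻ ω₃, g ((y₁, y₂, y₃), (ω₁, ω₂, ω₃)) ∂W ∂W ∂γ := by
    intro ω₁
    have mb : Measurable fun p : (Path × ℝ) × Path => g ((y₁, y₂, p.1.2), (ω₁, p.1.1, p.2)) :=
      hg.comp (by fun_prop)
    exact lintegral_lintegral_swap mb.lintegral_prod_right'.aemeasurable
  simp_rw [h4]
  have mc : Measurable fun p : (Path × ℝ) => ∫⁻ ω₂, ∫⁻ ω₃, g ((y₁, y₂, p.2), (p.1, ω₂, ω₃)) ∂W ∂W := by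
    have a : Measurable fun p : ((Path × ℝ) × Path) × Path =>
      g ((y₁, y₂, p.1.1.2), (p.1.1.1, p.1.2, p.2)) := hg.comp (by fun_prop)
    exact a.lintegral_prod_right'.lintegral_prod_right'
  exact lintegral_lintegral_swap mc.aemeasurable

/-- the functional of the three-dimensional process -/
noncomputable def Rt (W : Measure Path) (n : ℕ) (δ : Fin n → ℝ≥0) (a b c : ℝ)
    (q : (Fin n → ℝ) → ℝ≥0∞) : ℝ≥0∞ :=
  ∫⁻ ω₁, ∫⁻ ω₂, ∫⁻ ω₃,
        q (fun i => nrm (a + ω₁ (tm δ i)) (b + ω₂ (tm δ i)) (c + ω₃ (tm δ i))) ∂W ∂W ∂W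

/-- the functional of the killed process -/
noncomputable def Lt (W : Measure Path) (n : ℕ) (δ : Fin n → ℝ≥0) (x : ℝ)
    (q : (Fin n → ℝ) → ℝ≥0∞) : ℝ≥0∞ :=
  ∫⁻ ω in alive x (∑ i, δ i), ENNReal.ofReal (x + ω (∑ i, δ i)) *
        q (fun i => x + ω (tm δ i)) ∂W

lemma measurable_ev {X : Type*} [MeasurableSpace X] {f : X → Path} (hf : Measurable f) (s : ℝ≥0) :
    Measurable fun x => f x s := (measurable_eval s).comp hf

lemma Rt_meas (hW : IsW W) (n : ℕ) (δ : Fin n → ℝ≥0) {q : (Fin (n + 1) → ℝ) → ℝ≥0∞}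
    (hq : Measurable q) :
    Measurable fun p : ℝ × ℝ × ℝ × ℝ =>
      Rt W n δ p.2.1 p.2.2.1 p.2.2.2 (fun z => q (Fin.cons p.1 z)) := by
  have := isProb hW
  unfold Rt
  have a : Measurable fun p : (((ℝ × ℝ × ℝ × ℝ) × Path) × Path) × Path =>
      q (Fin.cons p.1.1.1.1 (fun i => nrm (p.1.1.1.2.1 + p.1.1.2 (tm δ i))
        (p.1.1.1.2.2.1 + p.1.2 (tm δ i)) (p.1.1.1.2.2.2 + p.2 (tm δ i)))) := by
    refine hq.comp (measurable_pi_lambda _ fun i => ?_)
    refine Fin.cases ?_ (fun j => ?_) i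
    · simp only [Fin.cons_zero]; fun_prop
    · simp only [Fin.cons_succ]
      have h1 : Measurable fun p : (((ℝ × ℝ × ℝ × ℝ) × Path) × Path) × Path => p.1.1.2 (tm δ j) :=
        measurable_ev (by fun_prop) _
      have h2 : Measurable fun p : (((ℝ × ℝ × ℝ × ℝ) × Path) × Path) × Path => p.1.2 (tm δ j) :=
        measurable_ev (by fun_prop) _
      have h3 : Measurable fun p : (((ℝ × ℝ × ℝ × ℝ) × Path) × Path) × Path => p.2 (tm δ j) :=
        measurable_ev (by fun_prop) _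
      fun_prop
  exact a.lintegral_prod_right'.lintegral_prod_right'.lintegral_prod_right'

lemma Rt_succ (hW : IsW W) (n : ℕ) (δ : Fin (n + 1) → ℝ≥0) (a b c : ℝ)
    {q : (Fin (n + 1) → ℝ) → ℝ≥0∞} (hq : Measurable q) :
    Rt W (n + 1) δ a b c q = ∫⁻ y₁, ∫⁻ y₂, ∫⁻ y₃, Rt W n (fun k => δ k.succ) (a + y₁) (b + y₂) (c + y₃)
      (fun z => q (Fin.cons (nrm (a + y₁) (b + y₂) (c + y₃)) z))
        ∂(gaussianReal 0 (δ 0)) ∂(gaussianReal 0 (δ 0)) ∂(gaussianReal 0 (δ 0)) := by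
  have := isProb hW
  let g : (ℝ × ℝ × ℝ) × (Path × Path × Path) → ℝ≥0∞ := fun p =>
    q (Fin.cons (nrm (a + p.1.1) (b + p.1.2.1) (c + p.1.2.2)) (fun i =>
      nrm (a + p.1.1 + p.2.1 (tm (fun k => δ k.succ) i))
        (b + p.1.2.1 + p.2.2.1 (tm (fun k => δ k.succ) i))
        (c + p.1.2.2 + p.2.2.2 (tm (fun k => δ k.succ) i))))
  have hg : Measurable g := by
    refine hq.comp (measurable_pi_lambda _ fun i => ?_)
    refine Fin.cases ?_ (fun j => ?_) i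
    · simp only [Fin.cons_zero]; fun_prop
    · simp only [Fin.cons_succ]
      have h1 : Measurable fun p : (ℝ × ℝ × ℝ) × (Path × Path × Path) =>
        p.2.1 (tm (fun k => δ k.succ) j) := measurable_ev (by fun_prop) _
      have h2 : Measurable fun p : (ℝ × ℝ × ℝ) × (Path × Path × Path) =>
        p.2.2.1 (tm (fun k => δ k.succ) j) := measurable_ev (by fun_prop) _
      have h3 : Measurable fun p : (ℝ × ℝ × ℝ) × (Path × Path × Path) =>
        p.2.2.2 (tm (fun k => δ k.succ) j) := measurable_ev (by fun_prop) _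
      fun_prop
  have h := mk3 hW (δ 0) hg
  have e1 : Rt W (n + 1) δ a b c q = ∫⁻ ω₁, ∫⁻ ω₂, ∫⁻ ω₃,
      g ((ω₁ (δ 0), ω₂ (δ 0), ω₃ (δ 0)), (shift (δ 0) ω₁, shift (δ 0) ω₂, shift (δ 0) ω₃))
        ∂W ∂W ∂W := by
    unfold Rt
    refine lintegral_congr fun ω₁ => lintegral_congr fun ω₂ => lintegral_congr fun ω₃ => ?_
    simp only [g]
    congr 1
    funext i
    refine Fin.cases ?_ (fun j => ?_) i
    · simp only [Fin.cons_zero, tm, Fin.cases_zero]
    · simp only [Fin.cons_succ, tm, Fin.cases_succ, shift_apply]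
      congr 1 <;> ring
  rw [e1, h]
  rfl

lemma sum_succ' {n : ℕ} (δ : Fin (n + 1) → ℝ≥0) : ∑ i, δ i = δ 0 + ∑ i : Fin n, δ i.succ :=
  Fin.sum_univ_succ δ

lemma Lt_succ (hW : IsW W) (n : ℕ) (δ : Fin (n + 1) → ℝ≥0) (x : ℝ)
    {q : (Fin (n + 1) → ℝ) → ℝ≥0∞} (hq : Measurable q) :
    Lt W (n + 1) δ x q = ∫⁻ ω in alive x (δ 0), Lt W n (fun k => δ k.succ) (x + ω (δ 0))
      (fun z => q (Fin.cons (x + ω (δ 0)) z)) ∂W := by
  classical
  have := isProb hW
  set δ' : Fin n → ℝ≥0 := fun k => δ k.succ with hδ'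
  set T := ∑ i, δ' i with hT
  let F : Path × Path → ℝ≥0∞ := fun p => (alive x (δ 0)).indicator (fun _ => (1 : ℝ≥0∞)) p.1 *
    ((if p.2 ∈ alive (x + p.1 (δ 0)) T then (1 : ℝ≥0∞) else 0) *
      (ENNReal.ofReal (x + p.1 (δ 0) + p.2 T) *
        q (Fin.cons (x + p.1 (δ 0)) (fun i => x + p.1 (δ 0) + p.2 (tm δ' i)))))
  have hcl : IsClosed {p : Path × Path | p.2 ∈ alive (x + p.1 (δ 0)) T} := by
    have : {p : Path × Path | p.2 ∈ alive (x + p.1 (δ 0)) T} =
        ⋂ v ∈ Set.Iic T, {p : Path × Path | 0 ≤ x + p.1 (δ 0) + p.2 v} := by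
      ext p; simp [alive]
    rw [this]
    refine isClosed_biInter fun v _ => isClosed_le continuous_const ?_
    exact ((continuous_const.add ((continuous_eval_const (δ 0)).comp continuous_fst))).add
      ((continuous_eval_const v).comp continuous_snd)
  have hF : Measurable F := by
    have m1 : Measurable fun p : Path × Path => x + p.1 (δ 0) :=
      measurable_const.add (measurable_ev (by fun_prop) _)
    have m2 : ∀ s, Measurable fun p : Path × Path => p.2 s := fun s => measurable_ev (by fun_prop) _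
    refine Measurable.mul ?_ (Measurable.mul ?_ (Measurable.mul ?_ ?_))
    · exact (measurable_const.indicator (measurableSet_alive _ _)).comp measurable_fst
    · exact Measurable.ite hcl.measurableSet measurable_const measurable_const
    · exact (m1.add (m2 T)).ennreal_ofReal
    · refine hq.comp (measurable_pi_lambda _ fun i => ?_)
      refine Fin.cases ?_ (fun j => ?_) i
      · simp only [Fin.cons_zero]; exact m1
      · simp only [Fin.cons_succ]; exact m1.add (m2 _)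
  have h := markov hW (δ 0) hF
  have e1 : Lt W (n + 1) δ x q = ∫⁻ ω, F (stop (δ 0) ω, shift (δ 0) ω) ∂W := by
    unfold Lt
    rw [← lintegral_indicator (measurableSet_alive _ _)]
    refine lintegral_congr fun ω => ?_
    simp only [F, stop_apply, min_self]
    rw [sum_succ']
    have hsp : ∀ s, x + ω (δ 0 + s) = x + ω (δ 0) + shift (δ 0) ω s := fun s => by
      simp only [shift_apply]; ring
    by_cases h1 : ω ∈ alive x (δ 0)
    · have h1' : stop (δ 0) ω ∈ alive x (δ 0) := (alive_stop le_rfl ω).2 h1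
      rw [indicator_of_mem h1', one_mul]
      by_cases h2 : shift (δ 0) ω ∈ alive (x + ω (δ 0)) T
      · rw [if_pos h2, one_mul, indicator_of_mem ((alive_add x (δ 0) T ω).2 ⟨h1, h2⟩), hsp]
        congr 2
        funext i
        refine Fin.cases ?_ (fun j => ?_) i
        · simp only [Fin.cons_zero, tm, Fin.cases_zero]
        · simp only [Fin.cons_succ, tm, Fin.cases_succ]
          exact hsp _
      · rw [if_neg h2, zero_mul, indicator_of_notMem]
        exact fun h3 => h2 ((alive_add x (δ 0) T ω).1 h3).2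
    · rw [indicator_of_notMem (fun h3 => h1 ((alive_add x (δ 0) T ω).1 h3).1),
        indicator_of_notMem (fun h3 => h1 ((alive_stop le_rfl ω).1 h3)), zero_mul]
  rw [e1, h, ← lintegral_indicator (measurableSet_alive _ _)]
  refine lintegral_congr fun ω => ?_
  by_cases h1 : ω ∈ alive x (δ 0)
  · have h1' : stop (δ 0) ω ∈ alive x (δ 0) := (alive_stop le_rfl ω).2 h1
    simp only [F, indicator_of_mem h1, indicator_of_mem h1', one_mul, stop_apply, min_self]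
    unfold Lt
    rw [← lintegral_indicator (measurableSet_alive _ _)]
    refine lintegral_congr fun ω' => ?_
    by_cases h2 : ω' ∈ alive (x + ω (δ 0)) T
    · rw [if_pos h2, one_mul, indicator_of_mem h2]
    · rw [if_neg h2, zero_mul, indicator_of_notMem h2]
  · have h1' : stop (δ 0) ω ∉ alive x (δ 0) := fun h3 => h1 ((alive_stop le_rfl ω).1 h3)
    simp only [F, indicator_of_notMem h1, indicator_of_notMem h1', zero_mul, lintegral_zero]

lemma nrm_zero' (y : ℝ) (hy : 0 ≤ y) : nrm y 0 0 = y := by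
  unfold nrm
  simp [Real.sqrt_sq hy]

lemma Lt_zero (hW : IsW W) (n : ℕ) (δ : Fin n → ℝ≥0) (q : (Fin n → ℝ) → ℝ≥0∞) :
    Lt W n δ 0 q = 0 := by
  have h := kil W hW (∑ i, δ i) 0 0 0 (fun _ => 1) measurable_const
  rw [nrm_zero' 0 le_rfl] at h
  simp only [mul_one, ENNReal.ofReal_zero, zero_mul] at h
  have hm : Measurable fun ω : Path => ENNReal.ofReal (0 + ω (∑ i, δ i)) :=
    (measurable_const.add (measurable_eval _)).ennreal_ofReal
  rw [lintegral_eq_zero_iff hm] at h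
  unfold Lt
  rw [lintegral_congr_ae (g := fun _ => (0 : ℝ≥0∞))]
  · simp
  · filter_upwards [h] with ω hω
    simp only [Pi.zero_apply] at hω
    rw [hω, zero_mul]

theorem mul_all (hW : IsW W) : ∀ (n : ℕ) (δ : Fin n → ℝ≥0) (a b c : ℝ) (q : (Fin n → ℝ) → ℝ≥0∞),
    Measurable q → Lt W n δ (nrm a b c) q = ENNReal.ofReal (nrm a b c) * Rt W n δ a b c q := by
  have := isProb hW
  intro n
  induction n with
  | zero =>
    intro δ a b c q hq
    have h := kil W hW 0 a b c (fun _ => q Fin.elim0) measurable_const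
    have e : ∀ f : Fin 0 → ℝ, f = Fin.elim0 := fun f => Subsingleton.elim _ _
    unfold Lt Rt
    simp only [Finset.univ_eq_empty, Finset.sum_empty]
    simp_rw [e (fun i => _)]
    rw [h]
    simp
  | succ n ih =>
    intro δ a b c q hq
    set δ' : Fin n → ℝ≥0 := fun k => δ k.succ with hδ'
    have hqc : ∀ y : ℝ, Measurable fun z : Fin n → ℝ => q (Fin.cons y z) := fun y =>
      hq.comp (measurable_pi_lambda _ fun i => by
        refine Fin.cases ?_ (fun j => ?_) i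
        · simp only [Fin.cons_zero]; fun_prop
        · simp only [Fin.cons_succ]; fun_prop)
    let Q : ℝ → ℝ≥0∞ := fun y => Rt W n δ' y 0 0 (fun z => q (Fin.cons y z))
    have hQ : Measurable Q := (Rt_meas hW n δ' hq).comp
      (by fun_prop : Measurable fun y : ℝ => (y, y, (0 : ℝ), (0 : ℝ)))
    have hinv : ∀ (u v w : ℝ), Rt W n δ' u v w (fun z => q (Fin.cons (nrm u v w) z)) = Q (nrm u v w) := by
      intro u v w
      rcases (nrm_nonneg u v w).eq_or_lt with h0 | h0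
      · have hs : u ^ 2 + v ^ 2 + w ^ 2 = 0 := by
          have h1 : nrm u v w ^ 2 = u ^ 2 + v ^ 2 + w ^ 2 := Real.sq_sqrt (by positivity)
          rw [← h1, ← h0]; ring
        have hu : u = 0 := by nlinarith [sq_nonneg u, sq_nonneg v, sq_nonneg w]
        have hv : v = 0 := by nlinarith [sq_nonneg u, sq_nonneg v, sq_nonneg w]
        have hw : w = 0 := by nlinarith [sq_nonneg u, sq_nonneg v, sq_nonneg w]
        subst hu hv hw
        simp only [Q]
        rw [nrm_zero' 0 le_rfl]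
      · have i1 := ih δ' u v w _ (hqc (nrm u v w))
        have i2 := ih δ' (nrm u v w) 0 0 _ (hqc (nrm u v w))
        rw [nrm_zero' _ h0.le] at i2
        rw [i1] at i2
        exact (ENNReal.mul_right_inj (by simpa using h0) ENNReal.ofReal_ne_top).1 i2
    rw [Lt_succ hW n δ _ hq, Rt_succ hW n δ a b c hq]
    have e1 : ∫⁻ ω in alive (nrm a b c) (δ 0), Lt W n δ' (nrm a b c + ω (δ 0))
        (fun z => q (Fin.cons (nrm a b c + ω (δ 0)) z)) ∂W =
        ∫⁻ ω in alive (nrm a b c) (δ 0), ENNReal.ofReal (nrm a b c + ω (δ 0)) *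
          Q (nrm a b c + ω (δ 0)) ∂W := by
      refine setLIntegral_congr_fun (measurableSet_alive _ _) fun ω hω => ?_
      have hy : 0 ≤ nrm a b c + ω (δ 0) := hω _ le_rfl
      have := ih δ' (nrm a b c + ω (δ 0)) 0 0 _ (hqc (nrm a b c + ω (δ 0)))
      rw [nrm_zero' _ hy] at this
      exact this
    rw [e1, kil W hW (δ 0) a b c Q hQ]
    congr 1
    refine lintegral_congr fun y₁ => lintegral_congr fun y₂ => lintegral_congr fun y₃ => ?_
    exact (hinv _ _ _).symm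

theorem mul : S_MUL := fun W hW n δ a b c q hq _ => mul_all hW n δ a b c q hq

end Q297.WT
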