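import Pool.Agent.Q297.WT.Kil

/-!
WT: negative and fourth moments, `S_NEG`, `S_POS`.
-/

open MeasureTheory ProbabilityTheory Set Filter Topology
open scoped ENNReal NNReal unitInterval
open Q297.PathC Q297.Prepend

namespace Q297.WT

lemma anti_rpow {κ : ℝ} (hκ : 0 ≤ κ) {x y : ℝ≥0∞} (h : x ≤ y) : y ^ (-κ) ≤ x ^ (-κ) := by
  rw [ENNReal.rpow_neg, ENNReal.rpow_neg, ENNReal.inv_le_inv]
  exact ENNReal.rpow_le_rpow h hκ

lemma lint_rpow {κ r : ℝ} (hκ0 : 0 < κ) (hκ : κ < 1) (hr : 0 < r) :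
    ∫⁻ u in Icc (-r) r, (ENNReal.ofReal |u|) ^ (-κ) ≤ ENNReal.ofReal (2 * (r ^ (1 - κ) / (1 - κ))) := by
  have h1 : ∫⁻ u in Ioc 0 r, (ENNReal.ofReal |u|) ^ (-κ) = ENNReal.ofReal (r ^ (1 - κ) / (1 - κ)) := by
    have e1 : ∫⁻ u in Ioc 0 r, (ENNReal.ofReal |u|) ^ (-κ) =
        ∫⁻ u in Ioc 0 r, ENNReal.ofReal (u ^ (-κ)) := by
      refine setLIntegral_congr_fun measurableSet_Ioc fun u hu => ?_
      rw [abs_of_pos hu.1, ENNReal.ofReal_rpow_of_pos hu.1]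
    have hi : IntervalIntegrable (fun u : ℝ => u ^ (-κ)) volume 0 r :=
      intervalIntegral.intervalIntegrable_rpow' (by linarith)
    rw [e1, ← ofReal_integral_eq_lintegral_ofReal]
    · rw [← intervalIntegral.integral_of_le hr.le, integral_rpow (Or.inl (by linarith))]
      rw [Real.zero_rpow (by linarith), sub_zero, show -κ + 1 = 1 - κ by ring]
    · exact (intervalIntegrable_iff_integrableOn_Ioc_of_le hr.le).1 hi
    · refine (ae_restrict_iff' measurableSet_Ioc).2 (ae_of_all _ fun u hu => ?_)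
      exact Real.rpow_nonneg hu.1.le _
  have h2 : ∫⁻ u in Ico (-r) 0, (ENNReal.ofReal |u|) ^ (-κ) = ∫⁻ u in Ioc 0 r, (ENNReal.ofReal |u|) ^ (-κ) := by
    have hmp := (Measure.measurePreserving_neg (volume : Measure ℝ))
    have h3 := hmp.setLIntegral_comp_preimage (s := Ioc 0 r) measurableSet_Ioc
      (f := fun u => (ENNReal.ofReal |u|) ^ (-κ)) (by fun_prop)
    rw [← h3]
    have : (Neg.neg ⁻¹' Ioc 0 r : Set ℝ) = Ico (-r) 0 := by
      ext u; simp only [mem_preimage, mem_Ioc, mem_Ico]; constructor <;> intro h <;> constructor <;> linarith [h.1, h.2]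
    rw [this]
    simp only [abs_neg]
  have h4 : Icc (-r) r ⊆ (Ico (-r) 0 ∪ Ioc 0 r) ∪ {0} := by
    intro u hu
    rcases lt_trichotomy u 0 with h | h | h
    · left; left; exact ⟨hu.1, h⟩
    · right; exact h
    · left; right; exact ⟨h, hu.2⟩
  refine (lintegral_mono_set h4).trans ((lintegral_union_le _ _ _).trans ?_)
  have h5 : ∫⁻ u in ({0} : Set ℝ), (ENNReal.ofReal |u|) ^ (-κ) = 0 := by
    rw [Measure.restrict_singleton]
    simp
  rw [h5, add_zero]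
  refine (lintegral_union_le _ _ _).trans ?_
  rw [h2, h1, ← ENNReal.ofReal_add (by
    have : 0 < 1 - κ := by linarith
    positivity) (by
    have : 0 < 1 - κ := by linarith
    positivity)]
  refine ENNReal.ofReal_le_ofReal (by linarith)

lemma neg1 {κ : ℝ} (hκ0 : 0 < κ) (hκ : κ < 1) {t : ℝ≥0} (ht : 0 < t) (a : ℝ) :
    ∫⁻ y, (ENNReal.ofReal |a + y|) ^ (-κ) ∂(gaussianReal 0 t) ≤
      ENNReal.ofReal (1 + 2 / (1 - κ)) * (t : ℝ≥0∞) ^ (-κ / 2) := by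
  have ht' : (0 : ℝ) < t := ht
  set r := √(t : ℝ) with hr
  have hr0 : 0 < r := Real.sqrt_pos.2 ht'
  have hκ1 : 0 < 1 - κ := by linarith
  set S : Set ℝ := {y | |a + y| ≤ r} with hS
  have hSm : MeasurableSet S := measurableSet_le (by fun_prop) measurable_const
  have hm : Measurable fun y : ℝ => (ENNReal.ofReal |a + y|) ^ (-κ) := by fun_prop
  rw [← lintegral_add_compl _ hSm]
  have htr : (t : ℝ≥0∞) ^ (-κ / 2) = ENNReal.ofReal (r ^ (-κ)) := by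
    have : (t : ℝ≥0∞) = ENNReal.ofReal (r ^ 2) := by
      rw [hr, Real.sq_sqrt ht'.le, ENNReal.ofReal_coe_nnreal]
    rw [this, ENNReal.ofReal_rpow_of_pos (by positivity)]
    congr 1
    rw [← Real.rpow_natCast, ← Real.rpow_mul hr0.le]
    congr 1
    push_cast
    ring
  have hfar : ∫⁻ y in Sᶜ, (ENNReal.ofReal |a + y|) ^ (-κ) ∂(gaussianReal 0 t) ≤ ENNReal.ofReal (r ^ (-κ)) := by
    calc ∫⁻ y in Sᶜ, (ENNReal.ofReal |a + y|) ^ (-κ) ∂(gaussianReal 0 t)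
        ≤ ∫⁻ y in Sᶜ, ENNReal.ofReal (r ^ (-κ)) ∂(gaussianReal 0 t) := by
          refine setLIntegral_mono' hSm.compl fun y hy => ?_
          have hy' : r ≤ |a + y| := le_of_lt (not_le.1 hy)
          rw [← ENNReal.ofReal_rpow_of_pos hr0]
          exact anti_rpow hκ0.le (ENNReal.ofReal_le_ofReal hy')
      _ ≤ ENNReal.ofReal (r ^ (-κ)) * 1 := by
          rw [setLIntegral_const]
          gcongr
          exact prob_le_one
      _ = _ := mul_one _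
  have hnear : ∫⁻ y in S, (ENNReal.ofReal |a + y|) ^ (-κ) ∂(gaussianReal 0 t) ≤
      ENNReal.ofReal (r ^ (-κ) * (2 / (1 - κ))) := by
    have h1 : gaussianReal 0 t ≤ ENNReal.ofReal (r⁻¹) • (volume : Measure ℝ) := by
      rw [gaussianReal_of_var_ne_zero _ ht.ne', ← withDensity_const]
      refine withDensity_mono (ae_of_all _ fun y => ?_)
      unfold gaussianPDF gaussianPDFReal
      refine ENNReal.ofReal_le_ofReal ?_
      have e1 : (√(2 * Real.pi * t))⁻¹ ≤ r⁻¹ := by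
        refine inv_anti₀ hr0 (Real.sqrt_le_sqrt ?_)
        have := Real.pi_gt_three
        nlinarith
      have e2 : Real.exp (-(y - 0) ^ 2 / (2 * t)) ≤ 1 := by
        rw [Real.exp_le_one_iff]
        exact div_nonpos_of_nonpos_of_nonneg (by nlinarith [sq_nonneg (y - 0)]) (by positivity)
      calc (√(2 * Real.pi * t))⁻¹ * Real.exp (-(y - 0) ^ 2 / (2 * t)) ≤ r⁻¹ * 1 := by gcongr
        _ = r⁻¹ := mul_one _
    calc ∫⁻ y in S, (ENNReal.ofReal |a + y|) ^ (-κ) ∂(gaussianReal 0 t)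
        ≤ ∫⁻ y in S, (ENNReal.ofReal |a + y|) ^ (-κ) ∂(ENNReal.ofReal (r⁻¹) • (volume : Measure ℝ)) :=
          lintegral_mono' (Measure.restrict_mono le_rfl h1) le_rfl
      _ = ENNReal.ofReal (r⁻¹) * ∫⁻ y in S, (ENNReal.ofReal |a + y|) ^ (-κ) := by
          rw [Measure.restrict_smul, lintegral_smul_measure, smul_eq_mul]
      _ = ENNReal.ofReal (r⁻¹) * ∫⁻ u in Icc (-r) r, (ENNReal.ofReal |u|) ^ (-κ) := by
          congr 1
          have hmp := measurePreserving_add_left (volume : Measure ℝ) a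
          have h3 := hmp.setLIntegral_comp_preimage (s := Icc (-r) r) measurableSet_Icc
            (f := fun u => (ENNReal.ofReal |u|) ^ (-κ)) (by fun_prop)
          rw [← h3]
          have : ((fun x => a + x) ⁻¹' Icc (-r) r : Set ℝ) = S := by
            ext u; simp only [mem_preimage, mem_Icc, hS, mem_ofPred_eq, abs_le]
          rw [this]
      _ ≤ ENNReal.ofReal (r⁻¹) * ENNReal.ofReal (2 * (r ^ (1 - κ) / (1 - κ))) := by
          gcongr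
          exact lint_rpow hκ0 hκ hr0
      _ = _ := by
          rw [← ENNReal.ofReal_mul (by positivity)]
          congr 1
          rw [show (1 : ℝ) - κ = 1 + -κ by ring, Real.rpow_add hr0, Real.rpow_one]
          field_simp
  refine (add_le_add hnear hfar).trans ?_
  rw [htr, ← ENNReal.ofReal_add (by positivity) (by positivity), ← ENNReal.ofReal_mul (by positivity)]
  refine ENNReal.ofReal_le_ofReal (le_of_eq ?_)
  ring

lemma le_nrm1 (a b c : ℝ) : |a| ≤ nrm a b c := by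
  unfold nrm
  rw [← Real.sqrt_sq_eq_abs]
  exact Real.sqrt_le_sqrt (by nlinarith [sq_nonneg b, sq_nonneg c])

lemma le_nrm2 (a b c : ℝ) : |b| ≤ nrm a b c := by
  unfold nrm
  rw [← Real.sqrt_sq_eq_abs]
  exact Real.sqrt_le_sqrt (by nlinarith [sq_nonneg a, sq_nonneg c])

lemma le_nrm3 (a b c : ℝ) : |c| ≤ nrm a b c := by
  unfold nrm
  rw [← Real.sqrt_sq_eq_abs]
  exact Real.sqrt_le_sqrt (by nlinarith [sq_nonneg a, sq_nonneg b])

/-- product integrals -/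
lemma lint_mul3 (γ : Measure ℝ) [SFinite γ] {f g h : ℝ → ℝ≥0∞} (hf : Measurable f) (hg : Measurable g)
    (hh : Measurable h) : ∫⁻ y₁, ∫⁻ y₂, ∫⁻ y₃, f y₁ * (g y₂ * h y₃) ∂γ ∂γ ∂γ =
      (∫⁻ y, f y ∂γ) * ((∫⁻ y, g y ∂γ) * ∫⁻ y, h y ∂γ) := by
  have h1 : ∀ y₁ y₂ : ℝ, ∫⁻ y₃, f y₁ * (g y₂ * h y₃) ∂γ = f y₁ * (g y₂ * ∫⁻ y, h y ∂γ) := by
    intro y₁ y₂
    rw [lintegral_const_mul _ (hh.const_mul _), lintegral_const_mul _ hh]
  simp_rw [h1]
  have h2 : ∀ y₁ : ℝ, ∫⁻ y₂, f y₁ * (g y₂ * ∫⁻ y, h y ∂γ) ∂γ =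
      f y₁ * ((∫⁻ y, g y ∂γ) * ∫⁻ y, h y ∂γ) := by
    intro y₁
    rw [lintegral_const_mul _ (hg.mul_const _), lintegral_mul_const _ hg]
  simp_rw [h2]
  rw [lintegral_mul_const _ hf]

theorem neg : S_NEG := by
  intro p hp0 hp3
  have hκ0 : 0 < p / 3 := by positivity
  have hκ1 : p / 3 < 1 := by linarith
  set C1 : ℝ≥0 := (1 + 2 / (1 - p / 3)).toNNReal with hC1
  refine ⟨C1 ^ 3, fun t a b c ht => ?_⟩
  have hb : ∀ y₁ y₂ y₃ : ℝ, (ENNReal.ofReal (nrm (a + y₁) (b + y₂) (c + y₃))) ^ (-p) ≤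
      (ENNReal.ofReal |a + y₁|) ^ (-(p / 3)) * ((ENNReal.ofReal |b + y₂|) ^ (-(p / 3)) *
        (ENNReal.ofReal |c + y₃|) ^ (-(p / 3))) := by
    intro y₁ y₂ y₃
    set N := ENNReal.ofReal (nrm (a + y₁) (b + y₂) (c + y₃))
    have e : N ^ (-p) = N ^ (-(p / 3)) * (N ^ (-(p / 3)) * N ^ (-(p / 3))) := by
      have h3 : N ^ (-p) = (N ^ (-(p / 3))) ^ 3 := by
        rw [← ENNReal.rpow_natCast, ← ENNReal.rpow_mul]
        congr 1
        push_cast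
        ring
      rw [h3]
      ring
    rw [e]
    exact mul_le_mul' (anti_rpow hκ0.le (ENNReal.ofReal_le_ofReal (le_nrm1 _ _ _)))
      (mul_le_mul' (anti_rpow hκ0.le (ENNReal.ofReal_le_ofReal (le_nrm2 _ _ _)))
        (anti_rpow hκ0.le (ENNReal.ofReal_le_ofReal (le_nrm3 _ _ _))))
  have h1 : ∫⁻ y₁, ∫⁻ y₂, ∫⁻ y₃, (ENNReal.ofReal (nrm (a + y₁) (b + y₂) (c + y₃))) ^ (-p)
      ∂(gaussianReal 0 t) ∂(gaussianReal 0 t) ∂(gaussianReal 0 t) ≤
      ∫⁻ y₁, ∫⁻ y₂, ∫⁻ y₃, (ENNReal.ofReal |a + y₁|) ^ (-(p / 3)) *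
        ((ENNReal.ofReal |b + y₂|) ^ (-(p / 3)) * (ENNReal.ofReal |c + y₃|) ^ (-(p / 3)))
      ∂(gaussianReal 0 t) ∂(gaussianReal 0 t) ∂(gaussianReal 0 t) :=
    lintegral_mono fun y₁ => lintegral_mono fun y₂ => lintegral_mono fun y₃ => hb y₁ y₂ y₃
  refine h1.trans ?_
  rw [lint_mul3 _ (by fun_prop) (by fun_prop) (by fun_prop)]
  have h2 := fun a => neg1 hκ0 hκ1 ht a
  have h3 : ENNReal.ofReal (1 + 2 / (1 - p / 3)) = (C1 : ℝ≥0∞) := rfl
  simp_rw [h3] at h2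
  calc _ ≤ (C1 * (t : ℝ≥0∞) ^ (-(p / 3) / 2)) * ((C1 * (t : ℝ≥0∞) ^ (-(p / 3) / 2)) *
        (C1 * (t : ℝ≥0∞) ^ (-(p / 3) / 2))) := mul_le_mul' (h2 a) (mul_le_mul' (h2 b) (h2 c))
    _ = C1 ^ 3 * ((t : ℝ≥0∞) ^ (-(p / 3) / 2)) ^ 3 := by ring
    _ = _ := by
      rw [← ENNReal.rpow_natCast ((t : ℝ≥0∞) ^ (-(p / 3) / 2)), ← ENNReal.rpow_mul]
      push_cast
      congr 2
      ring

lemma pos1 : ∃ C : ℝ≥0, ∀ t : ℝ≥0, ∫⁻ y, (ENNReal.ofReal |y|) ^ 4 ∂(gaussianReal 0 t) ≤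
    C * (t : ℝ≥0∞) ^ 2 := by
  have hfin : ∫⁻ y, (ENNReal.ofReal |y|) ^ 4 ∂(gaussianReal 0 1) < ∞ := by
    have h1 : MemLp id 4 (gaussianReal 0 1) := memLp_id_gaussianReal 4
    have h2 := h1.integrable_norm_pow (by norm_num)
    have h3 := h2.lintegral_lt_top
    refine lt_of_le_of_lt (lintegral_mono fun y => le_of_eq ?_) h3
    rw [← ENNReal.ofReal_pow (abs_nonneg y)]
    simp
  lift (∫⁻ y, (ENNReal.ofReal |y|) ^ 4 ∂(gaussianReal 0 1)) to ℝ≥0 using hfin.ne with C hC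
  refine ⟨C, fun t => ?_⟩
  have h1 : gaussianReal 0 t = (gaussianReal 0 1).map (fun y => √(t : ℝ) * y) := by
    rw [gaussianReal_map_const_mul, mul_zero, mul_one]
    congr 1
    ext
    simp
  rw [h1, lintegral_map (by fun_prop) (by fun_prop), hC, ← lintegral_mul_const _ (by fun_prop)]
  refine lintegral_mono fun y => le_of_eq ?_
  rw [abs_mul, ENNReal.ofReal_mul (abs_nonneg _), mul_pow, mul_comm]
  congr 1
  rw [abs_of_nonneg (Real.sqrt_nonneg _), show 4 = 2 * 2 by norm_num, pow_mul,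
    ← ENNReal.ofReal_pow (Real.sqrt_nonneg _), Real.sq_sqrt (NNReal.coe_nonneg t), ENNReal.ofReal_coe_nnreal]

lemma pow4_le (a b c x y z : ℝ) : nrm (a + x) (b + y) (c + z) ^ 4 ≤
    8 * nrm a b c ^ 4 + (24 * |x| ^ 4 + (24 * |y| ^ 4 + 24 * |z| ^ 4)) := by
  have e : ∀ u v w : ℝ, nrm u v w ^ 4 = (u ^ 2 + v ^ 2 + w ^ 2) ^ 2 := fun u v w => by
    unfold nrm
    rw [show 4 = 2 * 2 by norm_num, pow_mul, Real.sq_sqrt (by positivity)]
  have e4 : ∀ u : ℝ, |u| ^ 4 = (u ^ 2) ^ 2 := fun u => by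
    rw [show 4 = 2 * 2 by norm_num, pow_mul, sq_abs]
  rw [e, e, e4, e4, e4]
  set P := a ^ 2 + b ^ 2 + c ^ 2
  set R := x ^ 2 + y ^ 2 + z ^ 2 with hR
  set S := (a + x) ^ 2 + (b + y) ^ 2 + (c + z) ^ 2 with hS
  have hS0 : 0 ≤ S := by positivity
  have h1 : S ≤ 2 * P + 2 * R := by
    simp only [hS, P, hR]
    nlinarith [sq_nonneg (a - x), sq_nonneg (b - y), sq_nonneg (c - z)]
  have h2 : S ^ 2 ≤ (2 * P + 2 * R) ^ 2 := by gcongr
  have h3 : (2 * P + 2 * R) ^ 2 ≤ 8 * P ^ 2 + 8 * R ^ 2 := by nlinarith [sq_nonneg (P - R)]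
  have h4 : R ^ 2 ≤ 3 * ((x ^ 2) ^ 2 + (y ^ 2) ^ 2 + (z ^ 2) ^ 2) := by
    simp only [hR]
    nlinarith [sq_nonneg (x ^ 2 - y ^ 2), sq_nonneg (y ^ 2 - z ^ 2), sq_nonneg (x ^ 2 - z ^ 2)]
  linarith

theorem pos : S_POS := by
  obtain ⟨C, hC⟩ := pos1
  refine ⟨8 + 72 * C, fun t a b c => ?_⟩
  have hb : ∀ y₁ y₂ y₃ : ℝ, (ENNReal.ofReal (nrm (a + y₁) (b + y₂) (c + y₃))) ^ 4 ≤
      8 * ENNReal.ofReal (nrm a b c) ^ 4 + (24 * ENNReal.ofReal |y₁| ^ 4 +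
        (24 * ENNReal.ofReal |y₂| ^ 4 + 24 * ENNReal.ofReal |y₃| ^ 4)) := by
    intro y₁ y₂ y₃
    rw [← ENNReal.ofReal_pow (nrm_nonneg _ _ _), ← ENNReal.ofReal_pow (nrm_nonneg _ _ _),
      ← ENNReal.ofReal_pow (abs_nonneg _), ← ENNReal.ofReal_pow (abs_nonneg _),
      ← ENNReal.ofReal_pow (abs_nonneg _)]
    have e8 : (8 : ℝ≥0∞) = ENNReal.ofReal 8 := by simp
    have e24 : (24 : ℝ≥0∞) = ENNReal.ofReal 24 := by simp
    have hn := nrm_nonneg a b c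
    rw [e8, e24, ← ENNReal.ofReal_mul (by norm_num), ← ENNReal.ofReal_mul (by norm_num),
      ← ENNReal.ofReal_mul (by norm_num), ← ENNReal.ofReal_mul (by norm_num),
      ← ENNReal.ofReal_add (by positivity) (by positivity),
      ← ENNReal.ofReal_add (by positivity) (by positivity),
      ← ENNReal.ofReal_add (by positivity) (by positivity)]
    exact ENNReal.ofReal_le_ofReal (pow4_le _ _ _ _ _ _)
  set γ := gaussianReal 0 t
  have hm : Measurable fun y : ℝ => 24 * ENNReal.ofReal |y| ^ 4 := by fun_prop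
  have hI : ∫⁻ y, 24 * ENNReal.ofReal |y| ^ 4 ∂γ ≤ 24 * (C * (t : ℝ≥0∞) ^ 2) := by
    rw [lintegral_const_mul _ (by fun_prop)]
    gcongr
    exact hC t
  have h1 : ∫⁻ y₁, ∫⁻ y₂, ∫⁻ y₃, (ENNReal.ofReal (nrm (a + y₁) (b + y₂) (c + y₃))) ^ 4 ∂γ ∂γ ∂γ ≤
      ∫⁻ y₁, ∫⁻ y₂, ∫⁻ y₃, (8 * ENNReal.ofReal (nrm a b c) ^ 4 + (24 * ENNReal.ofReal |y₁| ^ 4 +
        (24 * ENNReal.ofReal |y₂| ^ 4 + 24 * ENNReal.ofReal |y₃| ^ 4))) ∂γ ∂γ ∂γ :=
    lintegral_mono fun y₁ => lintegral_mono fun y₂ => lintegral_mono fun y₃ => hb y₁ y₂ y₃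
  refine h1.trans ?_
  set A := 8 * ENNReal.ofReal (nrm a b c) ^ 4
  set J := ∫⁻ y, 24 * ENNReal.ofReal |y| ^ 4 ∂γ with hJ
  have e3 : ∀ y₁ y₂ : ℝ, ∫⁻ y₃, (A + (24 * ENNReal.ofReal |y₁| ^ 4 +
        (24 * ENNReal.ofReal |y₂| ^ 4 + 24 * ENNReal.ofReal |y₃| ^ 4))) ∂γ =
      A + (24 * ENNReal.ofReal |y₁| ^ 4 + (24 * ENNReal.ofReal |y₂| ^ 4 + J)) := by
    intro y₁ y₂
    rw [lintegral_add_left measurable_const, lintegral_add_left measurable_const,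
      lintegral_add_left measurable_const]
    simp [hJ]
  simp_rw [e3]
  have e2 : ∀ y₁ : ℝ, ∫⁻ y₂, (A + (24 * ENNReal.ofReal |y₁| ^ 4 +
        (24 * ENNReal.ofReal |y₂| ^ 4 + J))) ∂γ =
      A + (24 * ENNReal.ofReal |y₁| ^ 4 + (J + J)) := by
    intro y₁
    rw [lintegral_add_left measurable_const, lintegral_add_left measurable_const,
      lintegral_add_left hm]
    simp [hJ]
  simp_rw [e2]
  rw [lintegral_add_left measurable_const, lintegral_add_left hm]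
  simp only [lintegral_const, measure_univ, mul_one]
  calc A + (J + (J + J)) ≤ A + (24 * (C * (t : ℝ≥0∞) ^ 2) + (24 * (C * (t : ℝ≥0∞) ^ 2) +
        24 * (C * (t : ℝ≥0∞) ^ 2))) := by gcongr
    _ = 8 * ENNReal.ofReal (nrm a b c) ^ 4 + 72 * C * (t : ℝ≥0∞) ^ 2 := by simp only [A]; ring
    _ ≤ (8 + 72 * C) * ENNReal.ofReal (nrm a b c) ^ 4 + (8 + 72 * C) * (t : ℝ≥0∞) ^ 2 := by
        gcongr
        · exact le_self_add
        · exact le_add_self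
    _ = _ := by push_cast; ring

end Q297.WT
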