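import Pool.Agent.Q297.WT.Mk

/-!
WT: the reflection principle (`S_REF`).
-/

open MeasureTheory ProbabilityTheory Set Filter Topology
open scoped ENNReal NNReal unitInterval
open Q297.PathC Q297.Prepend

namespace Q297.WT

variable {W : Measure Path}

/-- the times `t j / 2^n` -/
noncomputable def tj (t : ℝ≥0) (n j : ℕ) : ℝ≥0 := t * j / 2 ^ n

lemma tj_zero (t : ℝ≥0) (n : ℕ) : tj t n 0 = 0 := by simp [tj]

lemma tj_le (t : ℝ≥0) {n j : ℕ} (h : j ≤ 2 ^ n) : tj t n j ≤ t := by
  unfold tj
  rw [div_le_iff₀ (by positivity)]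
  have : (j : ℝ≥0) ≤ 2 ^ n := by exact_mod_cast h
  gcongr

lemma tj_mono (t : ℝ≥0) (n : ℕ) : Monotone (tj t n) := by
  intro i j h
  unfold tj
  have : (i : ℝ≥0) ≤ j := by exact_mod_cast h
  gcongr

lemma tj_succ_sub (t : ℝ≥0) (n j : ℕ) : ((tj t n (j + 1) : ℝ≥0) : ℝ) - tj t n j = t / 2 ^ n := by
  unfold tj
  push_cast
  ring

/-- first passage below `0` on the grid at the step `j` -/
def Tn (x : ℝ) (t : ℝ≥0) (n j : ℕ) : Set Path :=
  {ω | (∀ i < j, 0 ≤ x + ω (tj t n i)) ∧ x + ω (tj t n j) < 0}

/-- nonnegative on the grid -/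
def An (x : ℝ) (t : ℝ≥0) (n : ℕ) : Set Path := {ω | ∀ j ≤ 2 ^ n, 0 ≤ x + ω (tj t n j)}

lemma meas_An (x : ℝ) (t : ℝ≥0) (n : ℕ) : MeasurableSet (An x t n) := by
  have : An x t n = ⋂ j ∈ {j : ℕ | j ≤ 2 ^ n}, {ω : Path | 0 ≤ x + ω (tj t n j)} := by
    ext ω; simp [An]
  rw [this]
  refine MeasurableSet.biInter (to_countable _) fun j _ => ?_
  exact measurableSet_le measurable_const (measurable_const.add (measurable_eval _))

lemma meas_Tn (x : ℝ) (t : ℝ≥0) (n j : ℕ) : MeasurableSet (Tn x t n j) := by
  have : Tn x t n j = (⋂ i ∈ {i : ℕ | i < j}, {ω : Path | 0 ≤ x + ω (tj t n i)}) ∩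
      {ω : Path | x + ω (tj t n j) < 0} := by
    ext ω; simp [Tn]
  rw [this]
  refine MeasurableSet.inter (MeasurableSet.biInter (to_countable _) fun j _ => ?_) ?_
  · exact measurableSet_le measurable_const (measurable_const.add (measurable_eval _))
  · exact measurableSet_lt (measurable_const.add (measurable_eval _)) measurable_const

lemma Tn_disj (x : ℝ) (t : ℝ≥0) (n : ℕ) {i j : ℕ} (h : i ≠ j) {ω : Path} (hi : ω ∈ Tn x t n i)
    (hj : ω ∈ Tn x t n j) : False := by
  rcases lt_or_gt_of_ne h with h | h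
  · exact absurd (hj.1 i h) (not_le.2 hi.2)
  · exact absurd (hi.1 j h) (not_le.2 hj.2)

open Classical in
/-- decomposition of the complement of `An` -/
lemma ind_An (x : ℝ) (t : ℝ≥0) (n : ℕ) (ω : Path) (c : ℝ) :
    (An x t n).indicator (fun _ => c) ω =
      c - ∑ j ∈ Finset.range (2 ^ n + 1), (Tn x t n j).indicator (fun _ => c) ω := by
  by_cases h : ω ∈ An x t n
  · rw [indicator_of_mem h, Finset.sum_eq_zero, sub_zero]
    intro j hj
    refine indicator_of_notMem ?_ _
    rintro ⟨-, h2⟩
    exact absurd (h j (by simpa [Nat.lt_succ_iff] using hj)) (not_le.2 h2)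
  · rw [indicator_of_notMem h]
    have h' : ∃ j, j ≤ 2 ^ n ∧ x + ω (tj t n j) < 0 := by
      by_contra hc
      push Not at hc
      exact h hc
    obtain ⟨hj1, hj2⟩ := Nat.find_spec h'
    set j := Nat.find h' with hjd
    have hjT : ω ∈ Tn x t n j := by
      refine ⟨fun i hi => ?_, hj2⟩
      by_contra hc
      push Not at hc
      exact Nat.find_min h' hi ⟨(le_of_lt hi).trans hj1, hc⟩
    rw [Finset.sum_eq_single j]
    · rw [indicator_of_mem hjT, sub_self]
    · intro i _ hij
      refine indicator_of_notMem (fun hi => Tn_disj x t n hij hi hjT) _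
    · intro hj
      exact absurd (Finset.mem_range.2 (Nat.lt_succ_of_le hj1)) hj

/-- bounded odd Lipschitz functions have small heat averages near `0` -/
lemma odd_bound (hW : IsW W) {φ : ℝ → ℝ} {L M : ℝ} (hodd : ∀ y, φ (-y) = -φ y)
    (hL : ∀ y z, |φ y - φ z| ≤ L * |y - z|) (hM : ∀ y, |φ y| ≤ M) (hφ : Measurable φ)
    (r : ℝ≥0) (y : ℝ) : |∫ ω, φ (y + ω r) ∂W| ≤ min (L * |y|) (2 * M) := by
  have := isProb hW
  have hM0 : 0 ≤ M := (abs_nonneg _).trans (hM 0)
  have hi : ∀ z : ℝ, Integrable (fun ω : Path => φ (z + ω r)) W := fun z =>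
    Integrable.of_bound (hφ.comp (measurable_const.add (measurable_eval r))).aestronglyMeasurable M
      (ae_of_all _ fun ω => by rw [Real.norm_eq_abs]; exact hM _)
  have h0 : ∫ ω, φ (0 + ω r) ∂W = 0 := by
    have hφ' : Measurable fun z => φ (0 + z) := hφ.comp (by fun_prop)
    have e1 : ∫ ω, φ (0 + ω r) ∂W = ∫ z, φ (0 + z) ∂(gaussianReal 0 r) := by
      rw [← (hasLaw hW r).map_eq, integral_map (measurable_eval r).aemeasurable
        hφ'.aestronglyMeasurable]
    have e2 : ∫ z, φ (0 + z) ∂(gaussianReal 0 r) = ∫ z, φ (0 + -z) ∂(gaussianReal 0 r) := by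
      have h2 : (gaussianReal 0 r).map (fun x => -x) = gaussianReal 0 r := by
        rw [gaussianReal_map_neg, neg_zero]
      conv_lhs => rw [← h2]
      rw [integral_map (by fun_prop) hφ'.aestronglyMeasurable]
    rw [e1]
    simp only [zero_add] at e2 ⊢
    simp_rw [hodd] at e2
    rw [integral_neg] at e2
    linarith
  refine le_min ?_ ?_
  · have h1 : ∫ ω, φ (y + ω r) ∂W = ∫ ω, (φ (y + ω r) - φ (0 + ω r)) ∂W := by
      rw [integral_sub (hi y) (hi 0), h0, sub_zero]
    rw [h1, ← Real.norm_eq_abs]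
    refine (norm_integral_le_of_norm_le_const (C := L * |y|) (ae_of_all _ fun ω => ?_)).trans ?_
    · rw [Real.norm_eq_abs]
      refine (hL _ _).trans (le_of_eq ?_)
      congr 2
      ring
    · simp
  · rw [← Real.norm_eq_abs]
    refine (norm_integral_le_of_norm_le_const (C := M) (ae_of_all _ fun ω => ?_)).trans ?_
    · rw [Real.norm_eq_abs]; exact hM _
    · simp only [probReal_univ, mul_one]; linarith

/-- the pointwise bound of the boundary terms -/
noncomputable def gn (x : ℝ) (t : ℝ≥0) (L M : ℝ) (n : ℕ) (ω : Path) : ℝ :=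
  ∑ j ∈ Finset.range (2 ^ n + 1),
    (Tn x t n j).indicator (fun ω => min (L * |x + ω (tj t n j)|) (2 * M)) ω

lemma meas_min (x : ℝ) (s : ℝ≥0) (L M : ℝ) :
    Measurable fun ω : Path => min (L * |x + ω s|) (2 * M) := by
  have h := measurable_eval (X := ℝ≥0) s
  have h2 : Measurable fun ω : Path => L * |x + ω s| :=
    measurable_const.mul (continuous_abs.measurable.comp (measurable_const.add h))
  exact h2.min measurable_const

lemma meas_gn (x : ℝ) (t : ℝ≥0) (L M : ℝ) (n : ℕ) : Measurable (gn x t L M n) := by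
  unfold gn
  exact Finset.measurable_fun_sum _ fun j _ => (meas_min x (tj t n j) L M).indicator (meas_Tn _ _ _ _)

lemma gn_eq (x : ℝ) (t : ℝ≥0) (L M : ℝ) (n : ℕ) {j : ℕ} (hj : j < 2 ^ n + 1) {ω : Path}
    (h : ω ∈ Tn x t n j) : gn x t L M n ω = min (L * |x + ω (tj t n j)|) (2 * M) := by
  classical
  unfold gn
  rw [Finset.sum_eq_single j]
  · rw [indicator_of_mem h]
  · intro i _ hij
    exact indicator_of_notMem (fun hi => Tn_disj x t n hij hi h) _
  · intro hj'
    exact absurd (Finset.mem_range.2 hj) hj'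

lemma gn_zero (x : ℝ) (t : ℝ≥0) (L M : ℝ) (n : ℕ) {ω : Path}
    (h : ∀ j < 2 ^ n + 1, ω ∉ Tn x t n j) : gn x t L M n ω = 0 := by
  unfold gn
  refine Finset.sum_eq_zero fun j hj => indicator_of_notMem (h j (Finset.mem_range.1 hj)) _

lemma gn_bound (x : ℝ) (t : ℝ≥0) {L M : ℝ} (hL : 0 ≤ L) (hM : 0 ≤ M) (n : ℕ) (ω : Path) :
    |gn x t L M n ω| ≤ 2 * M := by
  by_cases h : ∃ j < 2 ^ n + 1, ω ∈ Tn x t n j
  · obtain ⟨j, hj, hT⟩ := h
    rw [gn_eq x t L M n hj hT, abs_of_nonneg (le_min (by positivity) (by positivity))]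
    exact min_le_right _ _
  · push Not at h
    rw [gn_zero x t L M n h]
    simpa using hM

/-- uniform continuity of a path on the grid -/
lemma osc (ω : Path) (t : ℝ≥0) {δ : ℝ} (hδ : 0 < δ) :
    ∀ᶠ n : ℕ in atTop, ∀ j < 2 ^ n, |ω (tj t n (j + 1)) - ω (tj t n j)| < δ := by
  have hc : UniformContinuousOn (fun s => ω s) (Set.Icc 0 t) :=
    isCompact_Icc.uniformContinuousOn_of_continuous ω.continuous.continuousOn
  rw [Metric.uniformContinuousOn_iff] at hc
  obtain ⟨η, hη, h⟩ := hc δ hδ
  have hlim : Tendsto (fun n : ℕ => (t : ℝ) / 2 ^ n) atTop (𝓝 0) := by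
    have := (tendsto_pow_atTop_nhds_zero_of_lt_one (r := (1 / 2 : ℝ)) (by norm_num)
      (by norm_num)).const_mul (t : ℝ)
    simpa [div_eq_mul_inv] using this
  filter_upwards [hlim.eventually (gt_mem_nhds hη)] with n hn j hj
  have h1 := h (tj t n (j + 1)) ⟨zero_le, tj_le t (by omega)⟩ (tj t n j) ⟨zero_le, tj_le t (by omega)⟩ (by
    rw [NNReal.dist_eq, tj_succ_sub, abs_of_nonneg (by positivity)]
    exact hn)
  rwa [Real.dist_eq] at h1

lemma gn_tendsto {x : ℝ} (hx : 0 ≤ x) (t : ℝ≥0) {L M : ℝ} (hL : 0 ≤ L) (hM : 0 ≤ M) {ω : Path}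
    (h0 : ω 0 = 0) : Tendsto (fun n => gn x t L M n ω) atTop (𝓝 0) := by
  rw [Metric.tendsto_nhds]
  intro e he
  have hδ : 0 < e / (L + 1) := by positivity
  filter_upwards [osc ω t hδ] with n hn
  rw [Real.dist_eq, sub_zero]
  by_cases h : ∃ j < 2 ^ n + 1, ω ∈ Tn x t n j
  · obtain ⟨j, hj, hT⟩ := h
    rw [gn_eq x t L M n hj hT, abs_of_nonneg (le_min (by positivity) (by positivity))]
    refine (min_le_left _ _).trans_lt ?_
    obtain ⟨i, rfl⟩ : ∃ i, j = i + 1 := by
      rcases j with _ | i
      · have := hT.2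
        rw [tj_zero, h0] at this
        linarith
      · exact ⟨i, rfl⟩
    have h1 := hT.1 i (Nat.lt_succ_self i)
    have h2 := hT.2
    have h3 := hn i (by omega)
    have h4 : |x + ω (tj t n (i + 1))| < e / (L + 1) := by
      rw [abs_of_neg h2]
      rw [abs_sub_lt_iff] at h3
      linarith [h3.2]
    calc L * |x + ω (tj t n (i + 1))| ≤ L * (e / (L + 1)) := by gcongr
      _ < e := by
        rw [mul_div_assoc', div_lt_iff₀ (by positivity)]
        nlinarith
  · push Not at h
    rw [gn_zero x t L M n h, abs_zero]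
    exact he

/-- each boundary term -/
lemma term_bound (hW : IsW W) {φ : ℝ → ℝ} {L M : ℝ} (hodd : ∀ y, φ (-y) = -φ y)
    (hL : ∀ y z, |φ y - φ z| ≤ L * |y - z|) (hM : ∀ y, |φ y| ≤ M) (hφ : Measurable φ)
    (x : ℝ) (t : ℝ≥0) (n j : ℕ) (hj : j ≤ 2 ^ n) :
    |∫ ω, (Tn x t n j).indicator (fun ω => φ (x + ω t)) ω ∂W| ≤
      ∫ ω, (Tn x t n j).indicator (fun ω => min (L * |x + ω (tj t n j)|) (2 * M)) ω ∂W := by
  have := isProb hW
  have hM0 : 0 ≤ M := (abs_nonneg _).trans (hM 0)
  have hL0 : 0 ≤ L := by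
    have := hL 1 0
    have h2 := abs_nonneg (φ 1 - φ 0)
    simp at this
    linarith
  set s := tj t n j with hs
  have hst : s ≤ t := tj_le t hj
  obtain ⟨r, hr⟩ := exists_add_of_le hst
  let F : Path × Path → ℝ := fun p => (Tn x t n j).indicator (fun ω => φ (x + ω s + p.2 r)) p.1
  have hF : Measurable F := by
    have : F = fun p : Path × Path =>
        ((Prod.fst ⁻¹' (Tn x t n j) : Set (Path × Path))).indicator (fun p => φ (x + p.1 s + p.2 r)) p := by
      funext p
      rfl
    rw [this]
    refine Measurable.indicator (hφ.comp ?_) (measurable_fst (meas_Tn _ _ _ _))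
    exact (measurable_const.add ((measurable_eval s).comp measurable_fst)).add
      ((measurable_eval r).comp measurable_snd)
  have hFM : ∀ p, |F p| ≤ M := by
    intro p
    by_cases h : p.1 ∈ Tn x t n j
    · simp only [F, indicator_of_mem h]; exact hM _
    · simp only [F, indicator_of_notMem h, abs_zero]; exact hM0
  have hTstop : ∀ ω : Path, stop s ω ∈ Tn x t n j ↔ ω ∈ Tn x t n j := by
    intro ω
    simp only [Tn, mem_ofPred_eq, stop_apply]
    refine and_congr (forall₂_congr fun i hi => ?_) ?_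
    · rw [min_eq_left (tj_mono t n hi.le)]
    · rw [← hs, min_self]
  have key := markov_real hW s hF hFM
  have e1 : ∫ ω, F (stop s ω, shift s ω) ∂W =
      ∫ ω, (Tn x t n j).indicator (fun ω => φ (x + ω t)) ω ∂W := by
    refine integral_congr_ae (ae_of_all _ fun ω => ?_)
    simp only [F]
    by_cases h : ω ∈ Tn x t n j
    · rw [indicator_of_mem h, indicator_of_mem ((hTstop ω).2 h)]
      simp only [stop_apply, shift_apply, min_self]
      rw [hr]
      congr 1
      ring
    · rw [indicator_of_notMem h, indicator_of_notMem (fun h' => h ((hTstop ω).1 h'))]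
  rw [← e1, key, ← Real.norm_eq_abs]
  refine norm_integral_le_of_norm_le ?_ (ae_of_all _ fun ω => ?_)
  · refine Integrable.of_bound ?_ (2 * M) (ae_of_all _ fun ω => ?_)
    · exact ((meas_min x s L M).indicator (meas_Tn _ _ _ _)).aestronglyMeasurable
    · by_cases h : ω ∈ Tn x t n j
      · rw [indicator_of_mem h, Real.norm_eq_abs,
          abs_of_nonneg (le_min (by positivity) (by positivity))]
        exact min_le_right _ _
      · rw [indicator_of_notMem h]; simpa using hM0
  · by_cases h : ω ∈ Tn x t n j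
    · rw [indicator_of_mem h]
      simp only [F, indicator_of_mem ((hTstop ω).2 h), stop_apply, min_self]
      rw [Real.norm_eq_abs]
      exact odd_bound hW hodd hL hM hφ r (x + ω s)
    · rw [indicator_of_notMem h]
      simp only [F, indicator_of_notMem (fun h' => h ((hTstop ω).1 h'))]
      simp

/-- the indicators of the grid events tend to the indicator of `alive` -/
lemma An_tendsto {x : ℝ} (t : ℝ≥0) (ω : Path) (c : ℝ) :
    Tendsto (fun n => (An x t n).indicator (fun _ => c) ω) atTop
      (𝓝 ((alive x t).indicator (fun _ => c) ω)) := by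
  by_cases h : ω ∈ alive x t
  · rw [indicator_of_mem h]
    refine tendsto_const_nhds.congr fun n => ?_
    rw [indicator_of_mem]
    intro j hj
    exact h _ (tj_le t hj)
  · rw [indicator_of_notMem h]
    simp only [alive, mem_ofPred_eq, not_forall, not_le] at h
    obtain ⟨v, hv, hlt⟩ := h
    refine tendsto_const_nhds.congr' ?_
    have hcont : ∀ᶠ s in 𝓝 v, x + ω s < 0 :=
      (continuous_const.add ω.continuous).continuousAt.eventually (gt_mem_nhds hlt)
    rw [Metric.eventually_nhds_iff] at hcont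
    obtain ⟨δ, hδ, hδ2⟩ := hcont
    have hlim : Tendsto (fun n : ℕ => (t : ℝ) / 2 ^ n) atTop (𝓝 0) := by
      have := (tendsto_pow_atTop_nhds_zero_of_lt_one (r := (1 / 2 : ℝ)) (by norm_num)
        (by norm_num)).const_mul (t : ℝ)
      simpa [div_eq_mul_inv] using this
    filter_upwards [hlim.eventually (gt_mem_nhds hδ)] with n hn
    symm
    refine indicator_of_notMem ?_ _
    intro hA
    rcases eq_or_ne t 0 with ht | ht
    · subst ht
      have hv0 : v = 0 := by simpa using hv
      have := hA 0 (by positivity)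
      rw [tj_zero, ← hv0] at this
      linarith
    · have htp : 0 < (t : ℝ) := by
        have := pos_iff_ne_zero.2 ht
        exact_mod_cast this
      have hfl := Nat.floor_le (show (0 : ℝ) ≤ v * 2 ^ n / t by positivity)
      have hfl2 := Nat.lt_floor_add_one ((v : ℝ) * 2 ^ n / t)
      set j := ⌊(v : ℝ) * 2 ^ n / t⌋₊ with hj
      have hj2 : j ≤ 2 ^ n := by
        have h1 : (j : ℝ) ≤ 2 ^ n := by
          refine hfl.trans ?_
          rw [div_le_iff₀ htp, mul_comm]
          have : (v : ℝ) ≤ t := hv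
          gcongr
        exact_mod_cast h1
      have h3 := hA j hj2
      have h4 : x + ω (tj t n j) < 0 := by
        apply hδ2
        rw [NNReal.dist_eq, abs_sub_comm]
        have e : ((tj t n j : ℝ≥0) : ℝ) = t * j / 2 ^ n := by unfold tj; push_cast; ring
        rw [e]
        have hp : (0 : ℝ) < 2 ^ n := by positivity
        rw [le_div_iff₀ htp] at hfl
        rw [div_lt_iff₀ htp] at hfl2
        have a1 : (t : ℝ) * j / 2 ^ n ≤ v := by
          rw [div_le_iff₀ hp]; linarith
        rw [abs_of_nonneg (by linarith)]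
        have a2 : (v : ℝ) - t * j / 2 ^ n < t / 2 ^ n := by
          rw [sub_lt_iff_lt_add, ← add_div, lt_div_iff₀ hp]
          linarith
        exact a2.trans hn
      linarith

/-- the reflection principle for odd bounded Lipschitz functions -/
lemma refl_odd (hW : IsW W) {φ : ℝ → ℝ} {L M : ℝ} (hodd : ∀ y, φ (-y) = -φ y)
    (hL : ∀ y z, |φ y - φ z| ≤ L * |y - z|) (hM : ∀ y, |φ y| ≤ M) (hφ : Measurable φ)
    {x : ℝ} (hx : 0 ≤ x) (t : ℝ≥0) :
    ∫ ω, (alive x t).indicator (fun ω => φ (x + ω t)) ω ∂W = ∫ ω, φ (x + ω t) ∂W := by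
  have := isProb hW
  have hM0 : 0 ≤ M := (abs_nonneg _).trans (hM 0)
  have hL0 : 0 ≤ L := by
    have := hL 1 0
    have h2 := abs_nonneg (φ 1 - φ 0)
    simp at this
    linarith
  have hm : Measurable fun ω : Path => φ (x + ω t) :=
    hφ.comp (measurable_const.add (measurable_eval t))
  have hi : Integrable (fun ω : Path => φ (x + ω t)) W :=
    Integrable.of_bound hm.aestronglyMeasurable M (ae_of_all _ fun ω => by
      rw [Real.norm_eq_abs]; exact hM _)
  have hiT : ∀ S : Set Path, MeasurableSet S →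
      Integrable (fun ω : Path => S.indicator (fun ω => φ (x + ω t)) ω) W := fun S hS =>
    hi.indicator hS
  -- the identity for every n
  have hn : ∀ n, |∫ ω, (An x t n).indicator (fun ω => φ (x + ω t)) ω ∂W - ∫ ω, φ (x + ω t) ∂W| ≤
      ∫ ω, gn x t L M n ω ∂W := by
    intro n
    have e1 : ∫ ω, (An x t n).indicator (fun ω => φ (x + ω t)) ω ∂W =
        ∫ ω, φ (x + ω t) ∂W - ∑ j ∈ Finset.range (2 ^ n + 1),
          ∫ ω, (Tn x t n j).indicator (fun ω => φ (x + ω t)) ω ∂W := by
      rw [← integral_finsetSum _ (fun j _ => hiT _ (meas_Tn _ _ _ _)),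
        ← integral_sub hi (integrable_finsetSum _ (fun j _ => hiT _ (meas_Tn _ _ _ _)))]
      refine integral_congr_ae (ae_of_all _ fun ω => ?_)
      have := ind_An x t n ω (φ (x + ω t))
      classical
      simp only [indicator_apply] at this ⊢
      exact this
    rw [e1, sub_sub_cancel_left, abs_neg]
    refine (Finset.abs_sum_le_sum_abs _ _).trans ?_
    refine (Finset.sum_le_sum fun j hj => term_bound hW hodd hL hM hφ x t n j
      (by simpa [Nat.lt_succ_iff] using hj)).trans (le_of_eq ?_)
    unfold gn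
    rw [integral_finsetSum]
    intro j _
    refine Integrable.of_bound ?_ (2 * M) (ae_of_all _ fun ω => ?_)
    · exact ((meas_min x (tj t n j) L M).indicator (meas_Tn _ _ _ _)).aestronglyMeasurable
    · by_cases h : ω ∈ Tn x t n j
      · rw [indicator_of_mem h, Real.norm_eq_abs,
          abs_of_nonneg (le_min (by positivity) (by positivity))]
        exact min_le_right _ _
      · rw [indicator_of_notMem h]; simpa using hM0
  have h1 : Tendsto (fun n => ∫ ω, gn x t L M n ω ∂W) atTop (𝓝 0) := by
    have := tendsto_integral_of_dominated_convergence (F := fun n ω => gn x t L M n ω)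
      (f := fun _ => (0 : ℝ)) (μ := W) (fun _ => 2 * M)
      (fun n => (meas_gn x t L M n).aestronglyMeasurable) (integrable_const _)
      (fun n => ae_of_all _ fun ω => by
        rw [Real.norm_eq_abs]; exact gn_bound x t hL0 hM0 n ω)
      (by
        filter_upwards [ae_zero hW] with ω hω
        exact gn_tendsto hx t hL0 hM0 hω)
    simpa using this
  have h2 : Tendsto (fun n => ∫ ω, (An x t n).indicator (fun ω => φ (x + ω t)) ω ∂W) atTop
      (𝓝 (∫ ω, (alive x t).indicator (fun ω => φ (x + ω t)) ω ∂W)) := by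
    refine tendsto_integral_of_dominated_convergence (fun _ => M)
      (fun n => (hm.indicator (meas_An x t n)).aestronglyMeasurable) (integrable_const _)
      (fun n => ae_of_all _ fun ω => ?_) (ae_of_all _ fun ω => ?_)
    · by_cases h : ω ∈ An x t n
      · rw [indicator_of_mem h, Real.norm_eq_abs]; exact hM _
      · rw [indicator_of_notMem h]; simpa using hM0
    · have := An_tendsto (x := x) t ω (φ (x + ω t))
      classical
      simp only [indicator_apply] at this ⊢
      exact this
  have h3 : Tendsto (fun n => ∫ ω, (An x t n).indicator (fun ω => φ (x + ω t)) ω ∂W) atTop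
      (𝓝 (∫ ω, φ (x + ω t) ∂W)) := by
    rw [tendsto_iff_dist_tendsto_zero]
    refine squeeze_zero (fun n => dist_nonneg) (fun n => ?_) h1
    rw [Real.dist_eq]
    exact hn n
  exact tendsto_nhds_unique h2 h3

/-- ramp functions -/
noncomputable def rmp (a : ℝ) (k : ℕ) (y : ℝ) : ℝ := min 1 (k * max (y - a) 0)

lemma rmp_nonneg (a : ℝ) (k : ℕ) (y : ℝ) : 0 ≤ rmp a k y :=
  le_min zero_le_one (by positivity)

lemma rmp_le (a : ℝ) (k : ℕ) (y : ℝ) : rmp a k y ≤ 1 := min_le_left _ _

lemma rmp_zero {a : ℝ} (k : ℕ) {y : ℝ} (h : y ≤ a) : rmp a k y = 0 := by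
  unfold rmp
  rw [max_eq_right (by linarith), mul_zero]
  norm_num

lemma rmp_cont (a : ℝ) (k : ℕ) : Continuous (rmp a k) := by unfold rmp; fun_prop

lemma rmp_lip (a : ℝ) (k : ℕ) (y z : ℝ) : |rmp a k y - rmp a k z| ≤ k * |y - z| := by
  unfold rmp
  refine (abs_min_sub_min_le_max (1 : ℝ) (k * max (y - a) 0) 1 (k * max (z - a) 0)).trans ?_
  rw [sub_self, abs_zero, ← mul_sub, abs_mul, Nat.abs_cast]
  refine max_le (by positivity) ?_
  refine mul_le_mul_of_nonneg_left ?_ (Nat.cast_nonneg k)
  refine (abs_max_sub_max_le_max (y - a) 0 (z - a) 0).trans ?_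
  rw [sub_self, abs_zero]
  refine max_le (le_of_eq ?_) (abs_nonneg _)
  congr 1
  ring

lemma rmp_tendsto (a y : ℝ) :
    Tendsto (fun k => rmp a k y) atTop (𝓝 ((Set.Ioi a).indicator (fun _ => (1 : ℝ)) y)) := by
  by_cases h : a < y
  · rw [indicator_of_mem (show y ∈ Set.Ioi a from h)]
    have h1 : Tendsto (fun k : ℕ => (k : ℝ) * max (y - a) 0) atTop atTop := by
      refine Tendsto.atTop_mul_const ?_ tendsto_natCast_atTop_atTop
      rw [lt_max_iff]; left; linarith
    refine tendsto_const_nhds.congr' ?_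
    filter_upwards [h1.eventually (eventually_ge_atTop 1)] with k hk
    unfold rmp
    rw [min_eq_left hk]
  · rw [indicator_of_notMem (show y ∉ Set.Ioi a from h)]
    refine tendsto_const_nhds.congr fun k => ?_
    rw [rmp_zero k (not_lt.1 h)]

theorem ref : S_REF := by
  intro W hW x t a hx ha
  have hpr := isProb hW
  have hk : ∀ k : ℕ, ∫ ω, (alive x t).indicator (fun ω => rmp a k (x + ω t)) ω ∂W =
      ∫ ω, rmp a k (x + ω t) ∂W - ∫ ω, rmp a k (-(x + ω t)) ∂W := by
    intro k
    have h1 := refl_odd hW (φ := fun y => rmp a k y - rmp a k (-y)) (L := 2 * k) (M := 1)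
      (fun y => by simp) (fun y z => by
        have h1 := rmp_lip a k y z
        have h2 := rmp_lip a k (-y) (-z)
        rw [show -y - -z = -(y - z) by ring, abs_neg] at h2
        rw [show rmp a k y - rmp a k (-y) - (rmp a k z - rmp a k (-z)) =
          (rmp a k y - rmp a k z) - (rmp a k (-y) - rmp a k (-z)) by ring]
        rw [abs_le] at h1 h2 ⊢
        constructor <;> linarith [h1.1, h1.2, h2.1, h2.2]) (fun y => by
        rw [abs_le]
        have h1 := rmp_nonneg a k y
        have h2 := rmp_nonneg a k (-y)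
        have h3 := rmp_le a k y
        have h4 := rmp_le a k (-y)
        constructor <;> linarith)
      (by have := (rmp_cont a k).measurable; fun_prop) hx t
    have hi : ∀ f : Path → ℝ, Measurable f → Integrable (fun ω => rmp a k (f ω)) W := fun f hf =>
      Integrable.of_bound ((rmp_cont a k).measurable.comp hf).aestronglyMeasurable 1
        (ae_of_all _ fun ω => by
          rw [Real.norm_eq_abs, abs_of_nonneg (rmp_nonneg _ _ _)]; exact rmp_le _ _ _)
    have hmx : Measurable fun ω : Path => x + ω t := measurable_const.add (measurable_eval t)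
    have h5 := integral_sub (hi _ hmx) (hi _ hmx.neg)
    simp only [Pi.neg_apply] at h5
    rw [← h5, ← h1]
    refine integral_congr_ae (ae_of_all _ fun ω => ?_)
    by_cases h : ω ∈ alive x t
    · simp only [indicator_of_mem h]
      have := h t le_rfl
      rw [rmp_zero (a := a) k (y := -(x + ω t)) (by linarith), sub_zero]
    · simp only [indicator_of_notMem h]
  have hmx : Measurable fun ω : Path => x + ω t := measurable_const.add (measurable_eval t)
  have lim : ∀ (S : Set Path) (f : Path → ℝ), MeasurableSet S → Measurable f →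
      Tendsto (fun k : ℕ => ∫ ω, S.indicator (fun ω => rmp a k (f ω)) ω ∂W) atTop
        (𝓝 (W.real (S ∩ {ω | a < f ω}))) := by
    intro S f hS hf
    have hSf : MeasurableSet (S ∩ {ω | a < f ω}) := hS.inter (measurableSet_lt measurable_const hf)
    rw [← integral_indicator_one hSf]
    refine tendsto_integral_of_dominated_convergence (fun _ => 1) (fun k =>
      (((rmp_cont a k).measurable.comp hf).indicator hS).aestronglyMeasurable) (integrable_const _)
      (fun k => ae_of_all _ fun ω => ?_) (ae_of_all _ fun ω => ?_)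
    · by_cases h : ω ∈ S
      · rw [indicator_of_mem h, Real.norm_eq_abs, abs_of_nonneg (rmp_nonneg _ _ _)]
        exact rmp_le _ _ _
      · rw [indicator_of_notMem h]; simp
    · by_cases h : ω ∈ S
      · simp only [indicator_of_mem h]
        have h7 := rmp_tendsto a (f ω)
        have h8 : (Set.Ioi a).indicator (fun _ => (1 : ℝ)) (f ω) =
            (S ∩ {ω | a < f ω}).indicator 1 ω := by
          classical
          simp [indicator_apply, h]
        rwa [h8] at h7
      · simp only [indicator_of_notMem h]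
        have h8 : (0 : ℝ) = (S ∩ {ω | a < f ω}).indicator 1 ω := by
          classical
          simp [indicator_apply, h]
        rw [← h8]
        exact tendsto_const_nhds
  have l1 := lim (alive x t) (fun ω => x + ω t) (measurableSet_alive x t) hmx
  have l2 := lim univ (fun ω => x + ω t) MeasurableSet.univ hmx
  have l3 := lim univ (fun ω => -(x + ω t)) MeasurableSet.univ hmx.neg
  simp only [indicator_univ, univ_inter] at l2 l3
  simp_rw [hk] at l1
  have huniq := tendsto_nhds_unique l1 (l2.sub l3)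
  have e3 : {ω : Path | a < -(x + ω t)} = {ω | x + ω t < -a} := by
    ext ω
    simp only [mem_ofPred_eq]
    constructor <;> intro h <;> linarith
  rw [e3] at huniq
  have h4 : W.real (alive x t ∩ {ω | a < x + ω t}) + W.real {ω | x + ω t < -a} =
      W.real {ω | a < x + ω t} := by linarith
  rw [measureReal_def, measureReal_def, measureReal_def, ← ENNReal.toReal_add
    (measure_ne_top _ _) (measure_ne_top _ _)] at h4
  exact (ENNReal.toReal_eq_toReal_iff' (by finiteness) (measure_ne_top _ _)).1 h4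

end Q297.WT
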