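import Mathlib
import Pool.Agent.Q297.PathC
import Pool.Agent.Q297.PrePath

/-!
# Project WT (helper297): Brownian windows with the law of BES(3) and of the co-meander

Row MP_0f8574_pr (specialist, no frozen statement; Q1 and Q2 are both answered YES by this project).
`B` Brownian motion, `X_T = (B_(T+u) - B_T)_(0 <= u <= 1)`.  Claim: there is a random time `T` with
`E T < oo` such that `X_T` is a Bessel(3) process (Q2) resp. a Brownian co-meander (Q1).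

Idea. For `eps > 0` and `0 <= s <= 1/2` the weight of the window at time `s` is
`eps^-1 1{B >= B_s - eps on [s, s+1]} x theta(x + eps)`, `x = eps + B_(s+1) - B_s` (`theta = 1` for Q2,
`theta(x) = x^-2` for Q1).  By the h-transform the window weighted in this way has the law of
`theta(R_1 + eps) R - eps`, `R` = norm of a 3-dim. Brownian motion started at distance `eps` from `0`.
The total weight over `s` is bounded in `L^2` (this is the point: many windows in one block are used).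
Weak compactness (`eps -> 0`) gives a weight `G` in `L^2` of the block `[0, 2]` and a random time in it.
Finally one block is selected among i.i.d. blocks by an anticipating rule with finite mean (`S_SEL`).

All statements `S_...` below are lemma jobs; the docstrings contain complete proofs.
-/

open MeasureTheory ProbabilityTheory Set Filter Topology
open scoped ENNReal NNReal unitInterval
open Q297.PathC Q297.Prepend

namespace Q297.WT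

/-- `W` is Wiener measure on `Path = C(ℝ≥0, ℝ)` -/
def IsW (W : Measure Path) : Prop := IsBrownianReal (fun (t : ℝ≥0) (x : Path) => x t) W

/-- the paths which, started from `x`, stay nonnegative up to time `t` -/
def alive (x : ℝ) (t : ℝ≥0) : Set Path := {ω | ∀ v ≤ t, 0 ≤ x + ω v}

/-- Euclidean norm of a triple -/
noncomputable def nrm (a b c : ℝ) : ℝ := √(a ^ 2 + b ^ 2 + c ^ 2)

/-- the block of length `2` number `i`, as a path stopped at time `2` -/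
def blk (i : ℕ) (ω : Path) : Path :=
  ⟨fun u => ω (2 * (i : ℝ≥0) + min u 2) - ω (2 * (i : ℝ≥0)), by fun_prop⟩

/-- the layers of the density `3 g`: `sig g i e = min (3 g(e) - i)^+ 1`, `∑ i, sig g i e = 3 g e` -/
noncomputable def sig {E : Type} (g : E → ℝ≥0∞) (i : ℕ) (e : E) : ℝ≥0∞ := min (3 * g e - i) 1

/-- JOB SEL1 (one trial of the selection). `E` with a probability measure `ρ`, `g ≥ 0` with `∫ g = 1`.
Under `Q = (ρ ⊗ U)^ℕ` (`U` = Lebesgue measure on `[0,1]`) there are disjoint events `S i` with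
`Q(S i, e_i ∈ C) = (1/4) ∫_C sig g i dρ`.

Proof. `σ_i = sig g i ∈ [0,1]`, `∑_i σ_i = 3 g` (for `g(e)` finite or not), `b_i = ∫ σ_i dρ`, `∑ b_i = 3`,
`D_i = 1 + b_0 + ... + b_i` (a real number in `[1, 4]`), `D_i → 4`.
The point `(e, v)` is accepted at index `i` if `v ≤ σ_i(e) / D_i` (event `A_i ⊆ E × I`, probability
`a_i = b_i / D_i`, `1 - a_i = D_(i-1) / D_i`, `D_(-1) = 1`).
`S i` = {index `i` is accepted and no index `j > i` is accepted} (last accepted index): disjoint.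
For `M > i` : `Q(z_i ∈ A_i, e_i ∈ C, z_j ∉ A_j for i < j ≤ M) = (∫_C σ_i dρ) / D_i * ∏_(i<j≤M) D_(j-1)/D_j
= (∫_C σ_i dρ) / D_M → (∫_C σ_i dρ) / 4` (`Measure.infinitePi_pi` on a finite box, then continuity from
above, `tendsto_measure_iInter`). -/
def S_SEL1 : Prop :=
  ∀ (E : Type) [MeasurableSpace E] (ρ : Measure E) [IsProbabilityMeasure ρ] (g : E → ℝ≥0∞),
    Measurable g → ∫⁻ e, g e ∂ρ = 1 →
    ∃ S : ℕ → Set (ℕ → E × I), (∀ i, MeasurableSet (S i)) ∧ Pairwise (Function.onFun Disjoint S) ∧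
      ∀ (i : ℕ) (C : Set E), MeasurableSet C →
        (Measure.infinitePi fun _ : ℕ => ρ.prod (volume : Measure I)) (S i ∩ {z | (z i).1 ∈ C}) =
          (∫⁻ e in C, sig g i e ∂ρ) / 4

/-- The selection theorem: from an i.i.d. sequence with law `ρ` an index `N` is selected (looking at the
whole sequence and at auxiliary randomness) such that `e_N` has law `g ρ` and `E N < ∞`, as soon as
`∫ g² dρ < ∞`. -/
def S_SEL : Prop :=
  ∀ (E : Type) [MeasurableSpace E] (ρ : Measure E) [IsProbabilityMeasure ρ] (g : E → ℝ≥0∞),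
    Measurable g → ∫⁻ e, g e ∂ρ = 1 → ∫⁻ e, g e ^ 2 ∂ρ < ∞ →
    ∃ N : (ℕ → E × I) → ℕ, Measurable N ∧
      ∫⁻ z, (N z : ℝ≥0∞) ∂(Measure.infinitePi fun _ : ℕ => ρ.prod (volume : Measure I)) < ∞ ∧
      ∀ C : Set E, MeasurableSet C →
        (Measure.infinitePi fun _ : ℕ => ρ.prod (volume : Measure I)) {z | (z (N z)).1 ∈ C} =
          ∫⁻ e in C, g e ∂ρ

/-- JOB SEL2 : `S_SEL1 → S_SEL`.
Proof. `e(r,i) = 2^r (2 i + 1) - 1` is a bijection of `ℕ × ℕ` onto `ℕ`.  Trial `r` is the subsequence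
`z^(r)_i = z_(e(r,i))`; under `Q = (ρ ⊗ U)^ℕ` the trials are i.i.d. with law `Q`
(`Measure.infinitePi` reindexed by an equivalence and curried: `infinitePi_map_piCongrLeft`,
`infinitePi_map_curry`, or `eq_infinitePi`).  `S_SEL1` : `Q(S i, e_i ∈ C) = (1/4) ∫_C σ_i`,
`Q(∪_i S i) = (1/4) ∑ b_i = 3/4`, `F = (∪ S i)ᶜ` has `Q(F) = 1/4`.
`N z = e(r,i)` if `z^(r) ∈ S i` and `z^(r') ∈ F` for all `r' < r` (at most one such `(r,i)`), `N z = 0` if
there is none (a null event, since `∑_r (1/4)^r (3/4) = 1`).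
`P(N = e(r,i) through (r,i), e_N ∈ C) = (1/4)^r (1/4) ∫_C σ_i`; sum over `(r,i)`:
`(4/3)(1/4)(3 ∫_C g) = ∫_C g`.
`E N ≤ ∑_(r,i) (1/4)^r (1/4) b_i 2^r (2 i + 1) = (1/2) ∑_i (2 i + 1) b_i ≤ (1/2)(∫ 18 g² + 3 g)`, because
`σ_i(e) ≠ 0` only if `i < 3 g(e)`, so `∑_i i σ_i ≤ 3 g ∑_i σ_i = 9 g²`. -/
def S_SEL2 : Prop := S_SEL1 → S_SEL

/-- JOB YM (weak limits of random measures on `[0,1]`, bounded in `L²`). Complete proof.
`Λ_n(x, r) = ∫_(s ≤ r) lam n (x,s) ds ≤ Λ_n(x, 1)`, which is bounded in `L²(m)` by `√K`.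
Let `𝒰` be an ultrafilter on `ℕ` with `𝒰 ≤ atTop` (`Filter.hyperfilter ℕ`).  For every dyadic
`r ∈ [0,1]` (a countable dense set `D` which contains `0` and `1`) let `G_r ∈ L²(m)` be the weak limit of
`Λ_n(·, r)` along `𝒰` (closed balls of the Hilbert space `L²(m)` are weakly compact: `WeakDual`,
`InnerProductSpace.toDual`, `IsCompact.ultrafilter_le_nhds`): `∫ Λ_n(·, r) h → ∫ G_r h` for every
`h ∈ L²`.  Then `0 ≤ G_r ≤ G_r'` a.e. for `r ≤ r'` (test with indicators), `‖G_1‖² ≤ K`; change the `G_r`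
on a null set, so that they are monotone in `r ∈ D` everywhere, finite, nonnegative, `G_0 = 0`
(`Λ_n(·,0) = 0`).  `G = G_1`,
`σ(x,u) = inf {r ∈ D | u G_1(x) ≤ G_r(x)}` (contains `r = 1`); measurable since
`{σ < t} = ⋃_(r ∈ D, r < t) {u G_1 ≤ G_r}`.
Let `f` be as in the statement, `r_k = k 2^(-j)`, `w_j(x) = sup_(|s-s'| ≤ 2^(-j)) |f(x,s) - f(x,s')| ≤ 1`
(a measurable function: rational `s, s'`), `w_j → 0` pointwise.  Then for every `n`
`|∫∫ f lam_n ds dm - ∑_k ∫ f(x, r_k) (Λ_n(x, r_(k+1)) - Λ_n(x, r_k)) dm| ≤ ∫ w_j Λ_n(·,1) ≤ √K ‖w_j‖_2`,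
and along `𝒰` the sum tends to `∑_k ∫ f(x, r_k) (G_(r_(k+1)) - G_(r_k)) dm`.  If
`u G_1(x) ∈ (G_(r_k)(x), G_(r_(k+1))(x)]` then `r_k ≤ σ(x,u) ≤ r_(k+1)`; the set of these `u ∈ [0,1]` has
measure `(G_(r_(k+1)) - G_(r_k)) / G_1` (if `G_1(x) > 0`), and the sets cover `u ∈ (0,1]`, hence
`|G(x) ∫ f(x, σ(x,u)) du - ∑_k f(x,r_k) (G_(r_(k+1))(x) - G_(r_k)(x))| ≤ w_j(x) G(x)`.
So `|∫ G(x) ∫ f(x,σ(x,u)) du dm - c| ≤ 2 √K ‖w_j‖_2 → 0` (dominated convergence). -/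
def S_YM : Prop :=
  ∀ (X : Type) [MeasurableSpace X] (m : Measure X) [IsProbabilityMeasure m]
    (lam : ℕ → X × I → ℝ≥0∞) (K : ℝ≥0), (∀ n, Measurable (lam n)) →
    (∀ n, ∫⁻ x, (∫⁻ s, lam n (x, s)) ^ 2 ∂m ≤ K) →
    ∃ (G : X → ℝ≥0∞) (τ : X × I → I), Measurable G ∧ Measurable τ ∧ ∫⁻ x, G x ^ 2 ∂m ≤ K ∧
      ∀ f : X × I → ℝ≥0, Measurable f → (∀ p, f p ≤ 1) → (∀ x, Continuous fun s => f (x, s)) →
        ∀ c : ℝ≥0∞, Tendsto (fun n => ∫⁻ x, (∫⁻ s, (f (x, s) : ℝ≥0∞) * lam n (x, s)) ∂m) atTop (𝓝 c) →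
          ∫⁻ x, G x * (∫⁻ u, (f (x, τ (x, u)) : ℝ≥0∞)) ∂m = c

/-- JOB BLK (the blocks are i.i.d.). Proof: `Measure.eq_infinitePi` / `iIndepFun`; by the weak Markov
property `IsPreBrownianReal.indepFun_shift` at time `2 n` the path after time `2 n` (recentred:
`Q297.Prepend.shift`, law `W` by `Q297.Prepend.map_shift`) is independent of the path up to `2 n`; the
blocks `0, ..., n-1` are functions of the path up to time `2 n`, and `blk (n + i) ω = blk i (shift (2 n) ω)`.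
Induction on the number of blocks gives
`W(blk_i ∈ A_i, i < n) = ∏ W(blk_0 ∈ A_i)` for measurable `A_i`, which characterises `infinitePi`. -/
def S_BLK : Prop :=
  ∀ W : Measure Path, IsW W →
    W.map (fun (ω : Path) (i : ℕ) => blk i ω) = Measure.infinitePi (fun _ : ℕ => W.map (blk 0))

/-- JOB PRD (merging two i.i.d. sequences).  `μ, ν` probability measures: the sequence of the pairs
of an i.i.d. `μ`-sequence and an independent i.i.d. `ν`-sequence is i.i.d. with law `μ ⊗ ν`.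
Proof: `Measure.eq_infinitePi`: compare the two sides on the boxes `∏_(i ∈ J) (A_i × B_i)`; rectangles
generate the product sigma-algebra, use `Measure.infinitePi_pi`. -/
def S_PRD : Prop :=
  ∀ (A B : Type) [MeasurableSpace A] [MeasurableSpace B] (μ : Measure A) [IsProbabilityMeasure μ]
    (ν : Measure B) [IsProbabilityMeasure ν],
    ((Measure.infinitePi fun _ : ℕ => μ).prod (Measure.infinitePi fun _ : ℕ => ν)).map
        (fun p (i : ℕ) => (p.1 i, p.2 i)) = Measure.infinitePi fun _ : ℕ => μ.prod ν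

/-- JOB INV : `E |ξ|^(-2) = 1` for a standard Gaussian vector `ξ` in `ℝ³`.
Proof. `1/r = ∫_0^∞ e^(-λ r) dλ`; Tonelli; `E e^(-λ ξ_1²) = (1 + 2λ)^(-1/2)`
(`integral_gaussian` / `lintegral` with the density of `gaussianReal`), so
`E |ξ|^(-2) = ∫_0^∞ (1 + 2λ)^(-3/2) dλ = 1`. -/
def S_INV : Prop :=
  ∫⁻ y₁, ∫⁻ y₂, ∫⁻ y₃, (ENNReal.ofReal (nrm y₁ y₂ y₃ ^ 2))⁻¹
    ∂(gaussianReal 0 1) ∂(gaussianReal 0 1) ∂(gaussianReal 0 1) = 1

/-- JOB NEG : negative moments.  For `0 < p < 3` there is `C` with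
`E |v + √t ξ|^(-p) ≤ C t^(-p/2)` for every `v ∈ ℝ³`, `t > 0` (`ξ` standard Gaussian in `ℝ³`).
Proof. `|v + y| ≥ |v_j + y_j|` for `j = 1, 2, 3`, so `|v + y|^(-p) ≤ ∏_j |v_j + y_j|^(-p/3)` and it is
enough to bound `∫ |a + y|^(-κ) dN(0,t)(y)` for `κ = p/3 < 1`: the density is `≤ (2πt)^(-1/2)`, so it is
`≤ t^(-κ/2) + (2πt)^(-1/2) ∫_(|u| ≤ √t) |u|^(-κ) du = t^(-κ/2) (1 + 2 / ((1-κ) √(2π)))`.
(All powers in `ℝ≥0∞`, so `0^(-p) = ∞`.) -/
def S_NEG : Prop :=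
  ∀ p : ℝ, 0 < p → p < 3 → ∃ C : ℝ≥0, ∀ (t : ℝ≥0) (a b c : ℝ), 0 < t →
    ∫⁻ y₁, ∫⁻ y₂, ∫⁻ y₃, (ENNReal.ofReal (nrm (a + y₁) (b + y₂) (c + y₃))) ^ (-p)
      ∂(gaussianReal 0 t) ∂(gaussianReal 0 t) ∂(gaussianReal 0 t) ≤ C * (t : ℝ≥0∞) ^ (-p / 2)

/-- JOB POS : fourth moments. `E |v + √t ξ|^4 ≤ C (|v|^4 + t²)`.
Proof. `|v + y|^4 ≤ 27·8 (...)` crude: `|v+y|² ≤ 2|v|² + 2|y|²`, `|v+y|^4 ≤ 8|v|^4 + 8|y|^4`,
`|y|^4 ≤ 3(y_1^4 + y_2^4 + y_3^4)`, `E y_j^4 = 3t²` (any finite constant times `t²` by scaling). -/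
def S_POS : Prop :=
  ∃ C : ℝ≥0, ∀ (t : ℝ≥0) (a b c : ℝ),
    ∫⁻ y₁, ∫⁻ y₂, ∫⁻ y₃, (ENNReal.ofReal (nrm (a + y₁) (b + y₂) (c + y₃))) ^ 4
      ∂(gaussianReal 0 t) ∂(gaussianReal 0 t) ∂(gaussianReal 0 t) ≤
        C * (ENNReal.ofReal (nrm a b c) ^ 4 + (t : ℝ≥0∞) ^ 2)

/-- JOB GAU : the one-dimensional and the three-dimensional heat kernel.  For `v = (a,b,c)`,
`x = |v|`, `N ~ N(0,t)`, `ξ ~ N(0,t)^3` and every measurable `q ≥ 0`
`E (x+N)^+ q(x+N) = E (x+N)^- q(-(x+N)) + x E q(|v+ξ|)`.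
Proof. `t = 0` : Dirac measures. Let `t > 0`.  Both sides are integrals of `q` against finite measures on
`[0,∞)`: `κ_+ = κ_- + x κ_3`; push them forward by `y ↦ y²` (injective on `[0,∞)`) and compare
characteristic functions (`Measure.ext_of_charFun`): for real `θ` put `w = 1 - 2iθt`
(`Re w = 1 > 0`) and `F(y) = E e^(iθ(y+N)²)`.  Completing the square (`integral_cexp_quadratic`)
`F(y) = w^(-1/2) e^(iθy²/w)`, so `E e^(iθ|v+ξ|²) = F(a)F(b)F(c) = w^(-3/2) e^(iθx²/w)`.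
Integration by parts (`d/dy` of `e^(iθ(x+y)²) e^(-y²/2t)` has integral `0`) gives
`E (x+N) e^(iθ(x+N)²) = x w^(-1) F(x) = x w^(-3/2) e^(iθx²/w)`, which is the characteristic function
of `κ_+ - κ_-` at `θ` (after the push forward).  Equality.  (First for bounded `q`, all measures are finite,
then monotone limits; or directly as an identity of measures.) -/
def S_GAU : Prop :=
  ∀ (t : ℝ≥0) (a b c : ℝ) (q : ℝ → ℝ≥0∞), Measurable q →
    ∫⁻ y, ENNReal.ofReal (nrm a b c + y) * q (nrm a b c + y) ∂(gaussianReal 0 t) =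
      ∫⁻ y, ENNReal.ofReal (-(nrm a b c + y)) * q (-(nrm a b c + y)) ∂(gaussianReal 0 t) +
        ENNReal.ofReal (nrm a b c) * ∫⁻ y₁, ∫⁻ y₂, ∫⁻ y₃, q (nrm (a + y₁) (b + y₂) (c + y₃))
          ∂(gaussianReal 0 t) ∂(gaussianReal 0 t) ∂(gaussianReal 0 t)

/-- JOB REF : the reflection principle.
Proof. Let `x, a ≥ 0` and first let `φ` be odd, bounded by `M`, Lipschitz with constant `L`.  Claim:
`∫_(alive x t) φ(x + ω_t) dW = ∫ φ(x + ω_t) dW`.  Let `t_j = j t / 2^n`,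
`A_n = {x + ω(t_j) ≥ 0 for all j ≤ 2^n}`; `A_n` decreases to `alive x t` (continuity of the paths).
`A_n^c` is the disjoint union of `{τ = j} = {x + ω(t_i) ≥ 0 for i < j, x + ω(t_j) < 0}`, `1 ≤ j ≤ 2^n`
(up to the null set `ω_0 ≠ 0`).  Weak Markov property at the fixed time `t_j`:
`E[φ(x+ω_t); τ=j] = E[u_j(x + ω(t_j)); τ=j]`, `u_j(y) = E φ(y + N(0, t-t_j))` is odd, bounded by `M` and
`L`-Lipschitz, so `|u_j(y)| ≤ min(L|y|, M)`; on `{τ=j}` `|x + ω(t_j)| ≤ |ω(t_j) - ω(t_(j-1))|`.  Hence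
`|E[φ(x+ω_t); A_n^c]| ≤ E min(L max_j |ω(t_j) - ω(t_(j-1))|, M) → 0` (uniform continuity, bounded
convergence).
Now let `φ_k(y) = f_k(y) - f_k(-y)`, `f_k(y) = min(1, k (y - a)^+)`: on `alive x t` `φ_k(x + ω_t) = f_k(x+ω_t)`
(since `x + ω_t ≥ 0 ≥ -a`), so `∫_(alive) f_k(x+ω_t) = ∫ f_k(x+ω_t) - ∫ f_k(-x-ω_t)`; `k → ∞`:
`f_k ↑ 1_(a,∞)`. -/
def S_REF : Prop :=
  ∀ W : Measure Path, IsW W → ∀ (x : ℝ) (t : ℝ≥0) (a : ℝ), 0 ≤ x → 0 ≤ a →
    W (alive x t ∩ {ω | a < x + ω t}) + W {ω | x + ω t < -a} = W {ω | a < x + ω t}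

/-- JOB KIL (uses `S_REF`, `S_GAU`): one-time form of the h-transform.
Proof. `S_REF` says that the finite measures `ν_A(C) = W(alive x t, x+ω_t ∈ C)`,
`ν_-(C) = W(-(x+ω_t) ∈ C)`, `ν_+(C) = W(x+ω_t ∈ C)` on `(0,∞)` satisfy `ν_A + ν_- = ν_+` on the rays
`(a,∞)`, `a ≥ 0`, hence on all Borel subsets of `(0,∞)`.  Integrate `y q(y)` and use that `ω_t` has law
`gaussianReal 0 t`: `∫_(alive) (x+ω_t)^+ q(x+ω_t) + E (x+N)^- q(-(x+N)) = E (x+N)^+ q(x+N)`; compare with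
`S_GAU` and cancel the middle term (finite for bounded `q`; general `q` by monotone convergence,
`min q n`). -/
def S_KIL : Prop :=
  ∀ W : Measure Path, IsW W → ∀ (t : ℝ≥0) (a b c : ℝ) (q : ℝ → ℝ≥0∞), Measurable q →
    ∫⁻ ω in alive (nrm a b c) t, ENNReal.ofReal (nrm a b c + ω t) * q (nrm a b c + ω t) ∂W =
      ENNReal.ofReal (nrm a b c) * ∫⁻ y₁, ∫⁻ y₂, ∫⁻ y₃, q (nrm (a + y₁) (b + y₂) (c + y₃))
        ∂(gaussianReal 0 t) ∂(gaussianReal 0 t) ∂(gaussianReal 0 t)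

/-- the partial sums of the increments `δ` -/
noncomputable def tm : {n : ℕ} → (Fin n → ℝ≥0) → Fin n → ℝ≥0
  | 0, _, i => i.elim0
  | _ + 1, δ, i => Fin.cases (δ 0) (fun j => δ 0 + tm (fun k => δ k.succ) j) i

/-- JOB MUL (uses `S_KIL`): the h-transform at several times. Both sides equal the iterated kernel
`J(x; δ, q)`, `J(x; q) = q` for `n = 0` and `J(x; δ, q) = E J(|v + ξ_0|; δ', q(|v+ξ_0|, ·))`, `|v| = x`,
`ξ_0 ~ N(0, δ_0)^3`, which does not depend on the choice of `v` (for `x > 0` by `S_KIL`).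
Left side: weak Markov property at time `δ_0` (`indepFun_shift`, `map_shift`): `alive x (δ_0 + T) =
alive x δ_0 ∩ {shift δ_0 ω ∈ alive (x + ω δ_0) T}`, induction, then `S_KIL` with
`q(y) := J(y; δ', q(y,·))`.  Right side: Markov property of the three coordinates at time `δ_0` and
induction for a general starting point `(a,b,c)`. -/
def S_MUL : Prop :=
  ∀ W : Measure Path, IsW W → ∀ (n : ℕ) (δ : Fin n → ℝ≥0) (a b c : ℝ) (q : (Fin n → ℝ) → ℝ≥0∞),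
    Measurable q → 0 < nrm a b c →
    ∫⁻ ω in alive (nrm a b c) (∑ i, δ i), ENNReal.ofReal (nrm a b c + ω (∑ i, δ i)) *
        q (fun i => nrm a b c + ω (tm δ i)) ∂W =
      ENNReal.ofReal (nrm a b c) * ∫⁻ ω₁, ∫⁻ ω₂, ∫⁻ ω₃,
        q (fun i => nrm (a + ω₁ (tm δ i)) (b + ω₂ (tm δ i)) (c + ω₃ (tm δ i))) ∂W ∂W ∂W

/-- the weight of a window -/
noncomputable def lam (θ : ℝ → ℝ≥0∞) (ε : ℝ) (ω : Path) : ℝ≥0∞ :=
  (alive ε 1).indicator (fun ω => ENNReal.ofReal ((ε + ω 1) / ε) * θ (ε + ω 1 + ε)) ω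

/-- the starting times of the windows: `st s = s / 2 ∈ [0, 1/2]` -/
noncomputable def st (s : I) : ℝ≥0 := ⟨(s : ℝ) / 2, by have := s.2.1; positivity⟩

/-- JOB TWO (uses `S_MUL`, `S_NEG`, `S_POS`): two windows whose starting times differ by
`r ∈ (0, 1/2]`; `θ(x) ≤ K (1 + x^(-2))`.
Proof.  Put `ω' = shift s ω`, `ω'' = shift s' ω = shift r ω'`, `s' = s + r`, `Φ(z) = 1 + z + z^(-1/2)`
(in `ℝ≥0∞`).  If both weights are nonzero: `z = ε + ω'(r) ≥ 0`, `y = ε + ω''(1 - r) ≥ 0`,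
`x = ε + ω'(1) = z + y - ε ≥ 0`, `x' = ε + ω''(1) ≥ 0`,
`x θ(x+ε) ≤ K (x + 1/(x+ε)) ≤ K (z + y + 1/(z+y)) ≤ K Φ(z) Φ(y)` (`(1+z)(1+y)` and `z^(-1/2) y^(-1/2)`),
`x' θ(x'+ε) ≤ K (x' + 1/(x'+ε)) ≤ K x' (1 + x'^(-2))` for `x' > 0`.
`ω' ` restricted to `[0,r]` and `ω''` are independent (`indepFun_shift`), so
`E lam lam ≤ K² ε^(-2) E[Φ(ε + ω(r)); alive ε r] E[Φ(ε + ω(1-r)) (x' + 1/(x'+ε)); alive ε 1]`.
By `S_KIL`/`S_MUL` (`a = ε, b = c = 0`; `ω(r) + ε > 0` a.s. on `alive`) the first factor is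
`ε E[Φ(R_r)/R_r] ≤ ε E[2 + 2 R_r^(-3/2)] ≤ C ε r^(-3/4)` (`S_NEG`, `p = 3/2`), the second one is
`≤ ε E[Φ(R_(1-r)) (1 + R_1^(-2))] ≤ ε E[Φ(R_(1-r))^4 + (1 + R_1^(-2))^(4/3)]` (Young)
`≤ C ε (1 + E R_(1-r)^4 + E R_(1-r)^(-2) + E R_1^(-8/3)) ≤ C ε` since `1 - r ≥ 1/2`, `ε ≤ 1`. -/
def S_TWO : Prop :=
  ∀ W : Measure Path, IsW W → ∀ (θ : ℝ → ℝ≥0∞) (K : ℝ≥0), Measurable θ →
    (∀ x : ℝ, 0 < x → θ x ≤ K * (1 + (ENNReal.ofReal x ^ 2)⁻¹)) →
    ∃ C : ℝ≥0, ∀ (ε : ℝ) (s r : ℝ≥0), 0 < ε → ε ≤ 1 → 0 < r → r ≤ 1 / 2 →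
      ∫⁻ ω, lam θ ε (shift s ω) * lam θ ε (shift (s + r) ω) ∂W ≤ C * (r : ℝ≥0∞) ^ (-(3 / 4) : ℝ)

/-- JOB L2B (uses `S_TWO`): the total weight is bounded in `L²`.
Proof. `(∫ λ_s ds)² = ∫∫ λ_s λ_s' ds ds'`, Tonelli, the diagonal is a null set, and
`∫∫ |st s - st s'|^(-3/4) ds ds' < ∞`.  Joint measurability of `(ω, s) ↦ lam θ ε (shift (st s) ω)`: the map
`(ω, s) ↦ shift (st s) ω` is measurable by `Q297.PathC.measurable_of_eval` (evaluation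
`(ω, t) ↦ ω t` is jointly continuous and `Path`, `I` are second countable). -/
def S_L2B : Prop :=
  ∀ W : Measure Path, IsW W → ∀ (θ : ℝ → ℝ≥0∞) (K : ℝ≥0), Measurable θ →
    (∀ x : ℝ, 0 < x → θ x ≤ K * (1 + (ENNReal.ofReal x ^ 2)⁻¹)) →
    ∃ C : ℝ≥0, ∀ ε : ℝ, 0 < ε → ε ≤ 1 → ∫⁻ ω, (∫⁻ s : I, lam θ ε (shift (st s) ω)) ^ 2 ∂W ≤ C

end Q297.WT
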