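import Pool.Agent.Q297.WT.Cv

/-!
WT: finite sets of times, windows as elements of `C(I, ℝ)`, laws on `C(I, ℝ)`.
-/

open MeasureTheory ProbabilityTheory Set Filter Topology
open scoped ENNReal NNReal unitInterval
open Q297.PathC Q297.Prepend

namespace Q297.WT

lemma tm_exists : ∀ (n : ℕ) (b : ℝ≥0) (e : Fin n → ℝ≥0), Monotone e → (∀ i, b ≤ e i) →
    ∃ δ : Fin n → ℝ≥0, ∀ i, b + tm δ i = e i := by
  intro n
  induction n with
  | zero => exact fun b e _ _ => ⟨fun i => i.elim0, fun i => i.elim0⟩
  | succ n ih =>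
    intro b e he hb
    obtain ⟨δ', hδ'⟩ := ih (e 0) (fun i => e i.succ) (fun i j hij => he (Fin.succ_le_succ_iff.2 hij))
      (fun i => he (Fin.zero_le _))
    refine ⟨Fin.cons (e 0 - b) δ', fun i => ?_⟩
    refine Fin.cases ?_ (fun j => ?_) i
    · change b + (e 0 - b) = e 0
      exact add_tsub_cancel_of_le (hb 0)
    · change b + ((e 0 - b) + tm (fun k => δ' k) j) = e j.succ
      rw [← add_assoc, add_tsub_cancel_of_le (hb 0)]
      exact hδ' j

/-- the points of `[0, 1]` as times -/
def un (u : I) : ℝ≥0 := ⟨(u : ℝ), u.2.1⟩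

lemma continuous_un : Continuous un := by unfold un; fun_prop

lemma un_le (u : I) : un u ≤ 1 := u.2.2

lemma un_inj : Function.Injective un := fun _ _ h => Subtype.ext (congrArg NNReal.toReal h)

lemma times (J : Finset I) : ∃ (n : ℕ) (δ : Fin (n + 1) → ℝ≥0) (i : J → Fin (n + 1)),
    ∑ i, δ i = 1 ∧ ∀ j : J, tm δ (i j) = un j.1 := by
  classical
  set s : Finset ℝ≥0 := insert 1 (J.image un) with hs
  have hne : s.Nonempty := Finset.insert_nonempty _ _
  obtain ⟨n, hn⟩ : ∃ n, s.card = n + 1 := Nat.exists_eq_succ_of_ne_zero (Finset.card_pos.2 hne).ne'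
  set e := s.orderEmbOfFin hn with he
  obtain ⟨δ, hδ⟩ := tm_exists (n + 1) 0 e e.monotone (fun i => zero_le)
  simp only [zero_add] at hδ
  have hr : Set.range e = (s : Set ℝ≥0) := Finset.range_orderEmbOfFin s hn
  have hi : ∀ x ∈ s, ∃ i, e i = x := fun x hx => by
    have : x ∈ Set.range e := by rw [hr]; exact hx
    exact this
  have hj : ∀ j : J, ∃ i, e i = un j.1 := fun j =>
    hi _ (Finset.mem_insert_of_mem (Finset.mem_image_of_mem _ j.2))
  choose ι hι using hj
  refine ⟨n, δ, ι, ?_, fun j => by rw [hδ, hι]⟩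
  rw [← tm_last, hδ]
  apply le_antisymm
  · have : e (Fin.last n) ∈ s := Finset.orderEmbOfFin_mem s hn _
    rw [hs, Finset.mem_insert, Finset.mem_image] at this
    rcases this with h | ⟨u, _, h⟩
    · exact h.le
    · rw [← h]; exact un_le u
  · obtain ⟨i, hi1⟩ := hi 1 (Finset.mem_insert_self _ _)
    rw [← hi1]
    exact e.monotone (Fin.le_last i)

/-- the window of the path `β` at time `t` -/
def wd (β : Path) (t : ℝ≥0) : C(I, ℝ) :=
  ⟨fun u => β (t + un u) - β t, by have := continuous_un; fun_prop⟩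

/-- the norm of the three-dimensional path with coordinates `x, y, z` -/
noncomputable def norm3 (x y z : Path) : C(I, ℝ) :=
  ⟨fun u => nrm (x (un u)) (y (un u)) (z (un u)), by
    have := continuous_un
    exact continuous_nrm' (by fun_prop) (by fun_prop) (by fun_prop)⟩

/-- laws on `C(I, ℝ)` are determined by bounded continuous functions of finitely many values -/
lemma law_ext {μ ν : Measure C(I, ℝ)} [IsFiniteMeasure μ] [IsFiniteMeasure ν]
    (h : ∀ (J : Finset I) (F : (J → ℝ) → ℝ≥0), Continuous F → (∀ y, F y ≤ 1) →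
      ∫⁻ f, (F (fun j => f j.1) : ℝ≥0∞) ∂μ = ∫⁻ f, (F (fun j => f j.1) : ℝ≥0∞) ∂ν) : μ = ν := by
  apply measure_ext
  have hc : ∀ J : Finset I, Measurable (J.restrict (π := fun _ : I => ℝ)) := fun J => by fun_prop
  have hm : ∀ J : Finset I, Measurable fun (f : C(I, ℝ)) (j : J) => f j.1 := fun J =>
    measurable_pi_lambda _ fun j => measurable_eval _
  have hJ : ∀ J : Finset I, μ.map (fun (f : C(I, ℝ)) (j : J) => f j.1) =
      ν.map (fun (f : C(I, ℝ)) (j : J) => f j.1) := by
    intro J
    have : IsFiniteMeasure (μ.map (fun (f : C(I, ℝ)) (j : J) => f j.1)) := by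
      exact Measure.isFiniteMeasure_map _ _
    refine ext_of_forall_lintegral_eq_of_IsFiniteMeasure fun f => ?_
    set M : ℝ≥0 := nndist f 0 + 1 with hM
    have hM0 : M ≠ 0 := by positivity
    have hle : ∀ y, f y ≤ M := fun y => by
      have h1 : nndist (f y) ((0 : BoundedContinuousFunction (J → ℝ) ℝ≥0) y) ≤ nndist f 0 :=
        BoundedContinuousFunction.nndist_coe_le_nndist y
      have h2 : nndist (f y) ((0 : BoundedContinuousFunction (J → ℝ) ℝ≥0) y) = f y := by
        simp
      rw [h2] at h1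
      exact h1.trans le_self_add
    have h1 := h J (fun y => f y / M) (by fun_prop) (fun y => by
      rw [div_le_one (by positivity)]; exact hle y)
    rw [lintegral_map (by fun_prop) (hm J), lintegral_map (by fun_prop) (hm J)]
    have e : ∀ y, (f y : ℝ≥0∞) = M * ((f y / M : ℝ≥0) : ℝ≥0∞) := fun y => by
      rw [← ENNReal.coe_mul, mul_div_cancel₀ _ hM0]
    have hfm : Measurable fun g : C(I, ℝ) => ((f (fun j : J => g j.1) / M : ℝ≥0) : ℝ≥0∞) := by
      have h3 : Continuous fun y => f y := f.continuous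
      exact ((h3.measurable.comp (hm J)).div_const M).coe_nnreal_ennreal
    simp_rw [e]
    rw [lintegral_const_mul _ hfm, lintegral_const_mul _ hfm, h1]
  have p1 : IsProjectiveLimit (μ.map (fun (f : C(I, ℝ)) (t : I) => f t))
      (fun J : Finset I => μ.map (fun (f : C(I, ℝ)) (j : J) => f j.1)) := fun J => by
    rw [Measure.map_map (hc J) measurable_coe]
    rfl
  have p2 : IsProjectiveLimit (ν.map (fun (f : C(I, ℝ)) (t : I) => f t))
      (fun J : Finset I => μ.map (fun (f : C(I, ℝ)) (j : J) => f j.1)) := fun J => by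
    rw [Measure.map_map (hc J) measurable_coe]
    exact (hJ J).symm
  have : ∀ J : Finset I, IsFiniteMeasure (μ.map (fun (f : C(I, ℝ)) (j : J) => f j.1)) := fun J =>
    Measure.isFiniteMeasure_map _ _
  exact p1.unique p2

end Q297.WT
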