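import Pool.Agent.Q297.WT.Fin
import Pool.Agent.Q297.WT.Defs
import Pool.Agent.Q297.BmExist

/-!
WT: transfer to Brownian motions on arbitrary probability spaces.
-/

open MeasureTheory ProbabilityTheory Set Filter Topology
open scoped ENNReal NNReal unitInterval
open Q297.PathC Q297.Prepend

universe u v

namespace Q297.WT

variable {W : Measure Path}

/-- uniqueness of the Wiener measure -/
lemma law_unique (hW : IsW W) {Ω : Type*} [MeasurableSpace Ω] {P : Measure Ω}
    {B : Ω → C(ℝ≥0, ℝ)} (hB : IsBM B P) : P.map B = W := by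
  apply measure_ext
  have hc : ∀ J : Finset ℝ≥0, Measurable (J.restrict (π := fun _ : ℝ≥0 => ℝ)) := fun J => by fun_prop
  have p1 : IsProjectiveLimit ((P.map B).map (fun (f : C(ℝ≥0, ℝ)) (t : ℝ≥0) => f t))
      BrownianReal.projectiveFamily := fun J => by
    rw [Measure.map_map measurable_coe hB.1, Measure.map_map (hc J) (measurable_coe.comp hB.1)]
    exact (hB.2.hasLaw J).map_eq
  have p2 : IsProjectiveLimit (W.map (fun (f : C(ℝ≥0, ℝ)) (t : ℝ≥0) => f t))
      BrownianReal.projectiveFamily := fun J => by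
    rw [Measure.map_map (hc J) measurable_coe]
    exact (hW.hasLaw J).map_eq
  exact p1.unique p2

lemma radius_eq (x : Fin 3 → C(ℝ≥0, ℝ)) : radius x = norm3 (x 0) (x 1) (x 2) := by
  ext u
  change √(∑ i, x i ⟨(u : ℝ), u.2.1⟩ ^ 2) = nrm (x 0 (un u)) (x 1 (un u)) (x 2 (un u))
  rw [Fin.sum_univ_three]
  rfl

lemma norm3_one (x y z : Path) : norm3 x y z 1 = nrm (x 1) (y 1) (z 1) := by
  have : un 1 = 1 := by ext; rfl
  change nrm (x (un 1)) (y (un 1)) (z (un 1)) = _
  rw [this]

lemma window_eq (β : Path) (t : ℝ≥0) : window β t = wd β t := rfl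

theorem transfer (hSEL : S_SEL) (hYM : S_YM) {θ : ℝ → ℝ≥0∞} (hθ : Wt θ) :
    ∃ T : C(ℝ≥0, ℝ) × (ℕ → I × I) → ℝ≥0, Measurable T ∧
      ∀ {Ω : Type u} [MeasurableSpace Ω] (P : Measure Ω) [IsProbabilityMeasure P]
        (B : Ω → C(ℝ≥0, ℝ)) (U : Ω → ℕ → I × I), IsBM B P → Measurable U → P.map U = uniforms →
        IndepFun B U P →
        ∫⁻ ω, (T (B ω, U ω) : ℝ≥0∞) ∂P < ∞ ∧
        ∀ {Ω' : Type v} [MeasurableSpace Ω'] (P' : Measure Ω') [IsProbabilityMeasure P']
          (X : Fin 3 → Ω' → C(ℝ≥0, ℝ)), (∀ i, IsBM (X i) P') → iIndepFun X P' →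
          ∀ F : C(I, ℝ) → ℝ≥0∞, Measurable F →
            ∫⁻ ω, F (window (B ω) (T (B ω, U ω))) ∂P =
              ∫⁻ ω, θ (radius (fun i => X i ω) 1) * F (radius fun i => X i ω) ∂P' := by
  obtain ⟨W, hW⟩ := Q297.Bm.exists_wiener
  have hW : IsW W := hW
  have hpr := isProb hW
  obtain ⟨T, hT, hTfin, hlaw⟩ := random_time hSEL hYM hW hθ
  refine ⟨T, hT, ?_⟩
  intro Ω _ P _ B U hB hU hUlaw hBU
  have hjoint : P.map (fun ω => (B ω, U ω)) = W.prod Q := by
    rw [(indepFun_iff_map_prod_eq_prod_map_map hB.1.aemeasurable hU.aemeasurable).1 hBU,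
      law_unique hW hB, hUlaw]
    rfl
  have hBUm : Measurable fun ω => (B ω, U ω) := hB.1.prodMk hU
  refine ⟨?_, ?_⟩
  · have h1 : ∫⁻ ω, (T (B ω, U ω) : ℝ≥0∞) ∂P = ∫⁻ p, (T p : ℝ≥0∞) ∂(P.map fun ω => (B ω, U ω)) := by
      rw [lintegral_map hT.coe_nnreal_ennreal hBUm]
    rw [h1, hjoint]
    exact hTfin
  · intro Ω' _ P' _ X hX hind F hF
    have hwm : Measurable fun p : Path × (ℕ → I × I) => F (wd p.1 (T p)) := by
      refine hF.comp (measurable_of_eval fun u => ?_)
      exact (meas_eval2 measurable_fst (hT.add_const _)).sub (meas_eval2 measurable_fst hT)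
    have h1 : ∫⁻ ω, F (window (B ω) (T (B ω, U ω))) ∂P =
        ∫⁻ p, F (wd p.1 (T p)) ∂(P.map fun ω => (B ω, U ω)) := by
      rw [lintegral_map hwm hBUm]
      rfl
    rw [h1, hjoint, hlaw F hF]
    have hXm : ∀ i, Measurable (X i) := fun i => (hX i).1
    have h23 : IndepFun (X 1) (X 2) P' := hind.indepFun (by decide)
    have h123 : IndepFun (X 0) (fun ω => (X 1 ω, X 2 ω)) P' :=
      (hind.indepFun_prodMk hXm 1 2 0 (by decide) (by decide)).symm
    have h3 : P'.map (fun ω => (X 0 ω, X 1 ω, X 2 ω)) = W.prod (W.prod W) := by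
      rw [(indepFun_iff_map_prod_eq_prod_map_map (hXm 0).aemeasurable
        ((hXm 1).prodMk (hXm 2)).aemeasurable).1 h123,
        (indepFun_iff_map_prod_eq_prod_map_map (hXm 1).aemeasurable (hXm 2).aemeasurable).1 h23,
        law_unique hW (hX 0), law_unique hW (hX 1), law_unique hW (hX 2)]
    have hm3 : Measurable fun ω => (X 0 ω, X 1 ω, X 2 ω) := (hXm 0).prodMk ((hXm 1).prodMk (hXm 2))
    have m1 : Measurable fun p : Path × Path × Path => p.1 := measurable_fst
    have m2 : Measurable fun p : Path × Path × Path => p.2.1 := measurable_fst.comp measurable_snd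
    have m3 : Measurable fun p : Path × Path × Path => p.2.2 := measurable_snd.comp measurable_snd
    have hm4 : Measurable fun p : Path × Path × Path =>
        θ (nrm (p.1 1) (p.2.1 1) (p.2.2 1)) * F (norm3 p.1 p.2.1 p.2.2) :=
      (hθ.cont.measurable.comp (measurable_nrm' (measurable_ev m1 _) (measurable_ev m2 _)
        (measurable_ev m3 _))).mul (hF.comp meas_norm3)
    rw [← h3, lintegral_map hm4 hm3]
    refine lintegral_congr fun ω => ?_
    rw [radius_eq, norm3_one]

end Q297.WT
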