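import Pool.Agent.Q297.WT.Mul
import Pool.Agent.Q297.WT.Neg

/-!
WT: two windows, `S_TWO`.
-/

open MeasureTheory ProbabilityTheory Set Filter Topology
open scoped ENNReal NNReal unitInterval
open Q297.PathC Q297.Prepend

namespace Q297.WT

variable {W : Measure Path}

/-- the weight function of a height -/
noncomputable def Ph (u : ℝ≥0∞) : ℝ≥0∞ := 1 + u + u ^ (-(1 / 2) : ℝ)

lemma measurable_Ph : Measurable Ph := by unfold Ph; fun_prop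

lemma add_inv_le (a b : ℝ≥0∞) : (a + b)⁻¹ ≤ a ^ (-(1 / 2) : ℝ) * b ^ (-(1 / 2) : ℝ) := by
  have e : (a + b)⁻¹ = (a + b) ^ (-(1 / 2) : ℝ) * (a + b) ^ (-(1 / 2) : ℝ) := by
    rw [← pow_two, ← ENNReal.rpow_natCast, ← ENNReal.rpow_mul, ← ENNReal.rpow_neg_one]
    congr 1
    push_cast
    norm_num
  rw [e]
  exact mul_le_mul' (anti_rpow (by norm_num) le_self_add) (anti_rpow (by norm_num) le_add_self)

lemma Ph_mul (a b : ℝ≥0∞) : a + b + (a + b)⁻¹ ≤ Ph a * Ph b := by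
  unfold Ph
  set a' := a ^ (-(1 / 2) : ℝ)
  set b' := b ^ (-(1 / 2) : ℝ)
  calc a + b + (a + b)⁻¹ ≤ a + b + a' * b' := by gcongr; exact add_inv_le a b
    _ ≤ a + b + a' * b' + (1 + a * b + b' + a * b' + a' + a' * b) := le_self_add
    _ = (1 + a + a') * (1 + b + b') := by ring

/-- the weight function of a final height -/
noncomputable def Ps (x : ℝ) : ℝ≥0∞ := ENNReal.ofReal x * (1 + (ENNReal.ofReal x ^ 2)⁻¹)

lemma measurable_Ps : Measurable Ps := by unfold Ps; fun_prop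

lemma mul_inv_sq_le (u : ℝ≥0∞) (hu : u ≠ ∞) : u * (u ^ 2)⁻¹ ≤ u⁻¹ := by
  rcases eq_or_ne u 0 with rfl | h
  · simp
  · rw [pow_two, ENNReal.mul_inv (Or.inl h) (Or.inl hu), ← mul_assoc, ENNReal.mul_inv_cancel h hu, one_mul]

lemma lam_le {θ : ℝ → ℝ≥0∞} {K : ℝ≥0}
    (hθ : ∀ x : ℝ, 0 < x → θ x ≤ K * (1 + (ENNReal.ofReal x ^ 2)⁻¹)) {ε : ℝ} (hε : 0 < ε) (ω : Path) :
    lam θ ε ω ≤ K * (ENNReal.ofReal ε)⁻¹ *
      (alive ε 1).indicator (fun ω => ENNReal.ofReal (ε + ω 1) *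
        (1 + (ENNReal.ofReal (ε + ω 1 + ε) ^ 2)⁻¹)) ω := by
  unfold lam
  by_cases h : ω ∈ alive ε 1
  · rw [indicator_of_mem h, indicator_of_mem h]
    have h1 : 0 ≤ ε + ω 1 := h 1 le_rfl
    have h2 := hθ (ε + ω 1 + ε) (by linarith)
    rw [ENNReal.ofReal_div_of_pos hε, ENNReal.div_eq_inv_mul]
    calc (ENNReal.ofReal ε)⁻¹ * ENNReal.ofReal (ε + ω 1) * θ (ε + ω 1 + ε)
        ≤ (ENNReal.ofReal ε)⁻¹ * ENNReal.ofReal (ε + ω 1) *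
          (K * (1 + (ENNReal.ofReal (ε + ω 1 + ε) ^ 2)⁻¹)) := by gcongr
      _ = _ := by ring
  · rw [indicator_of_notMem h, indicator_of_notMem h, mul_zero]

/-- the first factor -/
noncomputable def FA (ε : ℝ) (r : ℝ≥0) (ω : Path) : ℝ≥0∞ :=
  (alive ε r).indicator (fun ω => Ph (ENNReal.ofReal (ε + ω r))) ω

/-- the second factor -/
noncomputable def FB (ε : ℝ) (r : ℝ≥0) (ω : Path) : ℝ≥0∞ :=
  (alive ε 1).indicator (fun ω => Ph (ENNReal.ofReal (ε + ω (1 - r))) * Ps (ε + ω 1)) ω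

lemma meas_FA (ε : ℝ) (r : ℝ≥0) : Measurable (FA ε r) := by
  have h : Measurable fun ω : Path => ENNReal.ofReal (ε + ω r) :=
    (measurable_const.add (measurable_eval r)).ennreal_ofReal
  exact (measurable_Ph.comp h).indicator (measurableSet_alive _ _)

lemma meas_FB (ε : ℝ) (r : ℝ≥0) : Measurable (FB ε r) := by
  have h : ∀ r : ℝ≥0, Measurable fun ω : Path => ε + ω r := fun r =>
    (measurable_const.add (measurable_eval r))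
  exact ((measurable_Ph.comp (h (1 - r)).ennreal_ofReal).mul
    (measurable_Ps.comp (h 1))).indicator (measurableSet_alive _ _)

lemma two_pt {θ : ℝ → ℝ≥0∞} {K : ℝ≥0}
    (hθ : ∀ x : ℝ, 0 < x → θ x ≤ K * (1 + (ENNReal.ofReal x ^ 2)⁻¹)) {ε : ℝ} (hε : 0 < ε)
    {r : ℝ≥0} (hr : r ≤ 1) (ω : Path) :
    lam θ ε ω * lam θ ε (shift r ω) ≤
      (K * (ENNReal.ofReal ε)⁻¹) ^ 2 * (FA ε r ω * FB ε r (shift r ω)) := by
  by_cases h1 : ω ∈ alive ε 1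
  swap
  · have : lam θ ε ω = 0 := indicator_of_notMem h1 _
    rw [this, zero_mul]
    exact zero_le
  by_cases h2 : shift r ω ∈ alive ε 1
  swap
  · have : lam θ ε (shift r ω) = 0 := indicator_of_notMem h2 _
    rw [this, mul_zero]
    exact zero_le
  have h1r : ω ∈ alive ε r := fun v hv => h1 v (hv.trans hr)
  have a1 := lam_le hθ hε ω
  have a2 := lam_le hθ hε (shift r ω)
  rw [indicator_of_mem h1] at a1
  rw [indicator_of_mem h2] at a2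
  have b1 : ENNReal.ofReal (ε + ω 1) * (1 + (ENNReal.ofReal (ε + ω 1 + ε) ^ 2)⁻¹) ≤
      Ph (ENNReal.ofReal (ε + ω r)) * Ph (ENNReal.ofReal (ε + shift r ω (1 - r))) := by
    refine le_trans ?_ (Ph_mul _ _)
    have hz : 0 ≤ ε + ω r := h1 r hr
    have hy : 0 ≤ ε + shift r ω (1 - r) := h2 _ (by simp)
    have hx : 0 ≤ ε + ω 1 := h1 1 le_rfl
    rw [← ENNReal.ofReal_add hz hy]
    have e : ε + ω r + (ε + shift r ω (1 - r)) = ε + ω 1 + ε := by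
      rw [shift_apply, add_tsub_cancel_of_le hr]
      ring
    rw [e]
    set u := ENNReal.ofReal (ε + ω 1 + ε) with hu
    have hxu : ENNReal.ofReal (ε + ω 1) ≤ u := ENNReal.ofReal_le_ofReal (by linarith)
    calc ENNReal.ofReal (ε + ω 1) * (1 + (u ^ 2)⁻¹) ≤ u * (1 + (u ^ 2)⁻¹) := by gcongr
      _ = u + u * (u ^ 2)⁻¹ := by ring
      _ ≤ u + u⁻¹ := by gcongr; exact mul_inv_sq_le u ENNReal.ofReal_ne_top
  have b2 : ENNReal.ofReal (ε + shift r ω 1) * (1 + (ENNReal.ofReal (ε + shift r ω 1 + ε) ^ 2)⁻¹) ≤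
      Ps (ε + shift r ω 1) := by
    unfold Ps
    have : ENNReal.ofReal (ε + shift r ω 1) ≤ ENNReal.ofReal (ε + shift r ω 1 + ε) :=
      ENNReal.ofReal_le_ofReal (by linarith)
    gcongr
  unfold FA FB
  rw [indicator_of_mem h1r, indicator_of_mem h2]
  calc lam θ ε ω * lam θ ε (shift r ω)
      ≤ (K * (ENNReal.ofReal ε)⁻¹ * (Ph (ENNReal.ofReal (ε + ω r)) *
        Ph (ENNReal.ofReal (ε + shift r ω (1 - r))))) * (K * (ENNReal.ofReal ε)⁻¹ *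
          Ps (ε + shift r ω 1)) := by
        refine mul_le_mul' (a1.trans ?_) (a2.trans ?_)
        · gcongr
        · gcongr
    _ = _ := by ring

lemma two_ind (hW : IsW W) (ε : ℝ) (r : ℝ≥0) :
    ∫⁻ ω, FA ε r ω * FB ε r (shift r ω) ∂W = (∫⁻ ω, FA ε r ω ∂W) * ∫⁻ ω, FB ε r ω ∂W := by
  have hpr := isProb hW
  have hF : Measurable fun p : Path × Path => FA ε r p.1 * FB ε r p.2 :=
    ((meas_FA ε r).comp measurable_fst).mul ((meas_FB ε r).comp measurable_snd)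
  have h := markov hW r hF
  have hs : ∀ ω, FA ε r (stop r ω) = FA ε r ω := by
    intro ω
    unfold FA
    by_cases h : ω ∈ alive ε r
    · rw [indicator_of_mem h, indicator_of_mem ((alive_stop le_rfl ω).2 h)]
      simp
    · rw [indicator_of_notMem h, indicator_of_notMem (fun h' => h ((alive_stop le_rfl ω).1 h'))]
  simp only [hs] at h
  rw [h]
  have : ∀ ω, ∫⁻ ω', FA ε r ω * FB ε r ω' ∂W = FA ε r ω * ∫⁻ ω', FB ε r ω' ∂W := fun ω =>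
    lintegral_const_mul _ (meas_FB ε r)
  simp_rw [this]
  exact lintegral_mul_const _ (meas_FA ε r)

lemma Ph_div (u : ℝ≥0∞) (hu : u ≠ ∞) : Ph u / u ≤ 2 + 2 * u ^ (-(3 / 2) : ℝ) := by
  rcases eq_or_ne u 0 with rfl | h0
  · rw [ENNReal.zero_rpow_of_neg (by norm_num)]
    simp
  · unfold Ph
    rw [ENNReal.add_div, ENNReal.add_div, ENNReal.div_self h0 hu, one_div]
    have e1 : u ^ (-(1 / 2) : ℝ) / u = u ^ (-(3 / 2) : ℝ) := by
      rw [ENNReal.div_eq_inv_mul, ← ENNReal.rpow_neg_one, ← ENNReal.rpow_add _ _ h0 hu]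
      norm_num
    have e2 : u⁻¹ ≤ 1 + u ^ (-(3 / 2) : ℝ) := by
      rcases le_total 1 u with h | h
      · exact (ENNReal.inv_le_one.2 h).trans le_self_add
      · refine le_trans ?_ le_add_self
        rw [← ENNReal.rpow_neg_one]
        exact ENNReal.rpow_le_rpow_of_exponent_ge h (by norm_num)
    rw [e1]
    calc u⁻¹ + 1 + u ^ (-(3 / 2) : ℝ) ≤ (1 + u ^ (-(3 / 2) : ℝ)) + 1 + u ^ (-(3 / 2) : ℝ) := by gcongr
      _ = _ := by ring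

lemma ae_ne (hW : IsW W) (ε : ℝ) {r : ℝ≥0} (hr : 0 < r) : ∀ᵐ ω ∂W, ε + ω r ≠ 0 := by
  have hna : NullSingletonClass (gaussianReal 0 r) :=
    nullSingletonClass_gaussianReal (μ := 0) hr.ne'
  have h1 : (gaussianReal 0 r) {-ε} = 0 := measure_singleton _
  rw [← (hasLaw hW r).map_eq, Measure.map_apply (measurable_eval r) (measurableSet_singleton _)] at h1
  rw [ae_iff]
  refine measure_mono_null (fun ω hω => ?_) h1
  simp only [mem_ofPred_eq, not_not] at hω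
  simp only [mem_preimage, mem_singleton_iff]
  linarith

lemma first (hW : IsW W) : ∃ C : ℝ≥0, ∀ (ε : ℝ) (r : ℝ≥0), 0 < ε → 0 < r → r ≤ 1 →
    ∫⁻ ω, FA ε r ω ∂W ≤ ENNReal.ofReal ε * (C * (r : ℝ≥0∞) ^ (-(3 / 4) : ℝ)) := by
  obtain ⟨C, hC⟩ := neg (3 / 2) (by norm_num) (by norm_num)
  refine ⟨2 + 2 * C, fun ε r hε hr hr1 => ?_⟩
  have e1 : ∫⁻ ω, FA ε r ω ∂W ≤ ∫⁻ ω in alive ε r, ENNReal.ofReal (ε + ω r) *
      (2 + 2 * (ENNReal.ofReal (ε + ω r)) ^ (-(3 / 2) : ℝ)) ∂W := by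
    unfold FA
    rw [lintegral_indicator (measurableSet_alive _ _)]
    refine lintegral_mono_ae ?_
    refine (ae_restrict_iff' (measurableSet_alive _ _)).2 ?_
    filter_upwards [ae_ne hW ε hr] with ω hω hal
    have h0 : 0 < ε + ω r := lt_of_le_of_ne (hal r le_rfl) (Ne.symm hω)
    set u := ENNReal.ofReal (ε + ω r) with hu
    have hu0 : u ≠ 0 := by simpa [hu] using h0
    have := Ph_div u ENNReal.ofReal_ne_top
    calc Ph u = u * (Ph u / u) := (ENNReal.mul_div_cancel hu0 ENNReal.ofReal_ne_top).symm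
      _ ≤ _ := by gcongr
  have hk := kil W hW r ε 0 0 (fun z => 2 + 2 * (ENNReal.ofReal z) ^ (-(3 / 2) : ℝ)) (by fun_prop)
  rw [nrm_zero' ε hε.le] at hk
  refine e1.trans ?_
  rw [hk]
  gcongr
  have hC' := hC r ε 0 0 hr
  set γ := gaussianReal 0 r
  have hm : Measurable fun p : ℝ × ℝ × ℝ => 2 * (ENNReal.ofReal (nrm (ε + p.1) (0 + p.2.1) (0 + p.2.2))) ^
    (-(3 / 2) : ℝ) := by fun_prop
  have l1 := lint3 γ (f := fun p : ℝ × ℝ × ℝ => 2 + 2 * (ENNReal.ofReal (nrm (ε + p.1) (0 + p.2.1)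
    (0 + p.2.2))) ^ (-(3 / 2) : ℝ)) (by fun_prop)
  have l2 := lint3 γ (f := fun p : ℝ × ℝ × ℝ => (ENNReal.ofReal (nrm (ε + p.1) (0 + p.2.1)
    (0 + p.2.2))) ^ (-(3 / 2) : ℝ)) (by fun_prop)
  rw [l2] at hC'
  rw [l1, lintegral_add_left measurable_const, lintegral_const_mul _ (by fun_prop)]
  simp only [lintegral_const, measure_univ, mul_one]
  have e3 : (-(3 / 2) : ℝ) / 2 = -(3 / 4) := by norm_num
  rw [e3] at hC'
  have h1r : (1 : ℝ≥0∞) ≤ (r : ℝ≥0∞) ^ (-(3 / 4) : ℝ) := by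
    refine ENNReal.one_le_rpow_of_pos_of_le_one_of_neg (by exact_mod_cast hr) (by exact_mod_cast hr1)
      (by norm_num)
  calc _ ≤ 2 + 2 * (C * (r : ℝ≥0∞) ^ (-(3 / 4) : ℝ)) := by gcongr
    _ ≤ 2 * (r : ℝ≥0∞) ^ (-(3 / 4) : ℝ) + 2 * (C * (r : ℝ≥0∞) ^ (-(3 / 4) : ℝ)) := by
        gcongr
        calc (2 : ℝ≥0∞) = 2 * 1 := by ring
          _ ≤ _ := by gcongr
    _ = _ := by push_cast; ring

/-- Young's inequality with the exponents `4, 4/3` -/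
lemma young43 (a b : ℝ≥0∞) : a * b ≤ a ^ 4 + b ^ (4 / 3 : ℝ) := by
  rcases le_total (b) (a ^ 3) with h | h
  · refine le_trans ?_ le_self_add
    calc a * b ≤ a * a ^ 3 := by gcongr
      _ = a ^ 4 := by ring
  · refine le_trans ?_ le_add_self
    have ha : a ≤ b ^ (1 / 3 : ℝ) := by
      have h2 := ENNReal.rpow_le_rpow h (show (0 : ℝ) ≤ 1 / 3 by norm_num)
      rwa [← ENNReal.rpow_natCast, ← ENNReal.rpow_mul, show ((3 : ℕ) : ℝ) * (1 / 3) = 1 by norm_num,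
        ENNReal.rpow_one] at h2
    calc a * b ≤ b ^ (1 / 3 : ℝ) * b ^ (1 : ℝ) := by rw [ENNReal.rpow_one]; gcongr
      _ = b ^ (4 / 3 : ℝ) := by
        rw [← ENNReal.rpow_add_of_nonneg _ _ (by norm_num) (by norm_num)]
        norm_num

lemma max_pow (x y z : ℝ≥0∞) : (x + y + z) ^ 4 ≤ 81 * (x ^ 4 + y ^ 4 + z ^ 4) := by
  have h : ∀ m : ℝ≥0∞, x ≤ m → y ≤ m → z ≤ m → m ^ 4 ≤ x ^ 4 + y ^ 4 + z ^ 4 →
      (x + y + z) ^ 4 ≤ 81 * (x ^ 4 + y ^ 4 + z ^ 4) := by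
    intro m hx hy hz hm
    calc (x + y + z) ^ 4 ≤ (m + m + m) ^ 4 := by gcongr
      _ = 81 * m ^ 4 := by ring
      _ ≤ _ := by gcongr
  rcases le_total x y with hxy | hxy
  · rcases le_total y z with hyz | hyz
    · exact h z (hxy.trans hyz) hyz le_rfl le_add_self
    · exact h y hxy le_rfl hyz (by
        calc y ^ 4 ≤ x ^ 4 + y ^ 4 := le_add_self
          _ ≤ _ := le_self_add)
  · rcases le_total x z with hxz | hxz
    · exact h z hxz (hxy.trans hxz) le_rfl le_add_self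
    · exact h x le_rfl hxy hxz (by
        calc x ^ 4 ≤ x ^ 4 + y ^ 4 := le_self_add
          _ ≤ _ := le_self_add)

lemma Ph_pow (u : ℝ≥0∞) : Ph u ^ 4 ≤ 81 * (1 + u ^ 4 + u ^ (-2 : ℝ)) := by
  unfold Ph
  refine (max_pow _ _ _).trans (le_of_eq ?_)
  rw [one_pow, ← ENNReal.rpow_natCast (u ^ (-(1 / 2) : ℝ)), ← ENNReal.rpow_mul]
  congr 3
  push_cast
  norm_num

lemma psi_pow (u : ℝ≥0∞) : (1 + (u ^ 2)⁻¹) ^ (4 / 3 : ℝ) ≤ 4 * (1 + u ^ (-(8 / 3) : ℝ)) := by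
  have e : (u ^ 2)⁻¹ = u ^ (-2 : ℝ) := by
    rw [ENNReal.rpow_neg]
    congr 1
    rw [← ENNReal.rpow_natCast]
    norm_num
  rw [e]
  have h4 : (2 : ℝ≥0∞) ^ (4 / 3 : ℝ) ≤ 4 := by
    calc (2 : ℝ≥0∞) ^ (4 / 3 : ℝ) ≤ (2 : ℝ≥0∞) ^ (2 : ℝ) :=
          ENNReal.rpow_le_rpow_of_exponent_le (by norm_num) (by norm_num)
      _ = 4 := by
        rw [show (2 : ℝ) = ((2 : ℕ) : ℝ) by norm_num, ENNReal.rpow_natCast]
        norm_num
  have h83 : (u ^ (-2 : ℝ)) ^ (4 / 3 : ℝ) = u ^ (-(8 / 3) : ℝ) := by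
    rw [← ENNReal.rpow_mul]
    norm_num
  rcases le_total (u ^ (-2 : ℝ)) 1 with h | h
  · calc (1 + u ^ (-2 : ℝ)) ^ (4 / 3 : ℝ) ≤ (1 + 1) ^ (4 / 3 : ℝ) :=
          ENNReal.rpow_le_rpow (by gcongr) (by norm_num)
      _ ≤ 4 := by rw [one_add_one_eq_two]; exact h4
      _ = 4 * 1 := by ring
      _ ≤ _ := by gcongr; exact le_self_add
  · calc (1 + u ^ (-2 : ℝ)) ^ (4 / 3 : ℝ) ≤ (2 * u ^ (-2 : ℝ)) ^ (4 / 3 : ℝ) := by
          refine ENNReal.rpow_le_rpow ?_ (by norm_num)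
          rw [two_mul]
          gcongr
      _ = 2 ^ (4 / 3 : ℝ) * u ^ (-(8 / 3) : ℝ) := by
          rw [ENNReal.mul_rpow_of_nonneg _ _ (by norm_num), h83]
      _ ≤ 4 * u ^ (-(8 / 3) : ℝ) := by gcongr
      _ ≤ _ := by gcongr; exact le_add_self

/-- one-time expectations of the three-dimensional process -/
lemma ev3 (hW : IsW W) (t : ℝ≥0) (a b c : ℝ) {f : ℝ → ℝ≥0∞} (hf : Measurable f) :
    ∫⁻ ω₁, ∫⁻ ω₂, ∫⁻ ω₃, f (nrm (a + ω₁ t) (b + ω₂ t) (c + ω₃ t)) ∂W ∂W ∂W =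
      ∫⁻ y₁, ∫⁻ y₂, ∫⁻ y₃, f (nrm (a + y₁) (b + y₂) (c + y₃))
        ∂(gaussianReal 0 t) ∂(gaussianReal 0 t) ∂(gaussianReal 0 t) := by
  have hm : Measurable fun p : (ℝ × ℝ) × ℝ => f (nrm (a + p.1.1) (b + p.1.2) (c + p.2)) :=
    hf.comp (by fun_prop)
  have h3 : ∀ ω₁ ω₂ : Path, ∫⁻ ω₃, f (nrm (a + ω₁ t) (b + ω₂ t) (c + ω₃ t)) ∂W =
      ∫⁻ y₃, f (nrm (a + ω₁ t) (b + ω₂ t) (c + y₃)) ∂(gaussianReal 0 t) := fun ω₁ ω₂ =>
    lintegral_eval hW t (f := fun y => f (nrm (a + ω₁ t) (b + ω₂ t) (c + y))) (hf.comp (by fun_prop))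
  simp_rw [h3]
  have m2 : Measurable fun p : ℝ × ℝ => ∫⁻ y₃, f (nrm (a + p.1) (b + p.2) (c + y₃)) ∂(gaussianReal 0 t) :=
    hm.lintegral_prod_right'
  have h2 : ∀ ω₁ : Path, ∫⁻ ω₂, ∫⁻ y₃, f (nrm (a + ω₁ t) (b + ω₂ t) (c + y₃)) ∂(gaussianReal 0 t) ∂W =
      ∫⁻ y₂, ∫⁻ y₃, f (nrm (a + ω₁ t) (b + y₂) (c + y₃)) ∂(gaussianReal 0 t) ∂(gaussianReal 0 t) :=
    fun ω₁ => lintegral_eval hW t (f := fun y => ∫⁻ y₃, f (nrm (a + ω₁ t) (b + y) (c + y₃))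
      ∂(gaussianReal 0 t)) (m2.comp (by fun_prop : Measurable fun y : ℝ => (ω₁ t, y)))
  simp_rw [h2]
  exact lintegral_eval hW t (f := fun y => ∫⁻ y₂, ∫⁻ y₃, f (nrm (a + y) (b + y₂) (c + y₃))
      ∂(gaussianReal 0 t) ∂(gaussianReal 0 t)) m2.lintegral_prod_right'

lemma second (hW : IsW W) : ∃ C : ℝ≥0, ∀ (ε : ℝ) (r : ℝ≥0), 0 < ε → ε ≤ 1 → r ≤ 1 / 2 →
    ∫⁻ ω, FB ε r ω ∂W ≤ ENNReal.ofReal ε * C := by
  have hpr := isProb hW
  obtain ⟨C4, hC4⟩ := pos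
  obtain ⟨C2, hC2⟩ := neg 2 (by norm_num) (by norm_num)
  obtain ⟨C8, hC8⟩ := neg (8 / 3) (by norm_num) (by norm_num)
  refine ⟨81 * (1 + C4 * 2 + C2 * 2) + 4 * (1 + C8), fun ε r hε hε1 hr => ?_⟩
  have hr1 : r ≤ 1 := hr.trans (by
    rw [div_le_iff₀ (by norm_num)]; norm_num)
  -- two times
  let δ : Fin 2 → ℝ≥0 := ![1 - r, r]
  let q : (Fin 2 → ℝ) → ℝ≥0∞ := fun v => Ph (ENNReal.ofReal (v 0)) * (1 + (ENNReal.ofReal (v 1) ^ 2)⁻¹)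
  have hq : Measurable q := by
    have h1 : Measurable fun v : Fin 2 → ℝ => Ph (ENNReal.ofReal (v 0)) :=
      measurable_Ph.comp (by fun_prop)
    have h2 : Measurable fun v : Fin 2 → ℝ => (1 + (ENNReal.ofReal (v 1) ^ 2)⁻¹) := by fun_prop
    exact h1.mul h2
  have hsum : ∑ i, δ i = 1 := by
    simp only [δ, Fin.sum_univ_two, Matrix.cons_val_zero, Matrix.cons_val_one]
    exact tsub_add_cancel_of_le hr1
  have ht0 : tm δ 0 = 1 - r := rfl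
  have ht1 : tm δ 1 = 1 := by
    change 1 - r + r = 1
    exact tsub_add_cancel_of_le hr1
  have hm := mul_all hW 2 δ ε 0 0 q hq
  rw [nrm_zero' ε hε.le] at hm
  unfold Lt Rt at hm
  rw [hsum] at hm
  simp only [q, ht0, ht1] at hm
  have e1 : ∫⁻ ω, FB ε r ω ∂W = ∫⁻ ω in alive ε 1, ENNReal.ofReal (ε + ω 1) *
      (Ph (ENNReal.ofReal (ε + ω (1 - r))) * (1 + (ENNReal.ofReal (ε + ω 1) ^ 2)⁻¹)) ∂W := by
    unfold FB
    rw [lintegral_indicator (measurableSet_alive _ _)]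
    refine lintegral_congr fun ω => ?_
    unfold Ps
    ring
  rw [e1, hm]
  gcongr
  -- Young
  let f1 : ℝ → ℝ≥0∞ := fun x => 81 * (1 + ENNReal.ofReal x ^ 4 + ENNReal.ofReal x ^ (-2 : ℝ))
  let f2 : ℝ → ℝ≥0∞ := fun x => 4 * (1 + ENNReal.ofReal x ^ (-(8 / 3) : ℝ))
  have hf1 : Measurable f1 := by fun_prop
  have hf2 : Measurable f2 := by fun_prop
  have hev : ∀ (t : ℝ≥0) (f : ℝ → ℝ≥0∞), Measurable f →
      Measurable fun p : (Path × Path) × Path => f (nrm (ε + p.1.1 t) (0 + p.1.2 t) (0 + p.2 t)) := by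
    intro t f hf
    have h1 : Measurable fun p : (Path × Path) × Path => p.1.1 t := measurable_ev (by fun_prop) _
    have h2 : Measurable fun p : (Path × Path) × Path => p.1.2 t := measurable_ev (by fun_prop) _
    have h3 : Measurable fun p : (Path × Path) × Path => p.2 t := measurable_ev (by fun_prop) _
    exact hf.comp (by fun_prop)
  have hmono : ∫⁻ ω₁, ∫⁻ ω₂, ∫⁻ ω₃,
      Ph (ENNReal.ofReal (nrm (ε + ω₁ (1 - r)) (0 + ω₂ (1 - r)) (0 + ω₃ (1 - r)))) *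
        (1 + (ENNReal.ofReal (nrm (ε + ω₁ 1) (0 + ω₂ 1) (0 + ω₃ 1)) ^ 2)⁻¹) ∂W ∂W ∂W ≤
      ∫⁻ ω₁, ∫⁻ ω₂, ∫⁻ ω₃, (f1 (nrm (ε + ω₁ (1 - r)) (0 + ω₂ (1 - r)) (0 + ω₃ (1 - r))) +
        f2 (nrm (ε + ω₁ 1) (0 + ω₂ 1) (0 + ω₃ 1))) ∂W ∂W ∂W := by
    refine lintegral_mono fun ω₁ => lintegral_mono fun ω₂ => lintegral_mono fun ω₃ => ?_
    refine (young43 _ _).trans ?_
    exact add_le_add (Ph_pow _) (psi_pow _)
  have hsplit : ∫⁻ ω₁, ∫⁻ ω₂, ∫⁻ ω₃, (f1 (nrm (ε + ω₁ (1 - r)) (0 + ω₂ (1 - r)) (0 + ω₃ (1 - r))) +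
        f2 (nrm (ε + ω₁ 1) (0 + ω₂ 1) (0 + ω₃ 1))) ∂W ∂W ∂W =
      (∫⁻ ω₁, ∫⁻ ω₂, ∫⁻ ω₃, f1 (nrm (ε + ω₁ (1 - r)) (0 + ω₂ (1 - r)) (0 + ω₃ (1 - r))) ∂W ∂W ∂W) +
      ∫⁻ ω₁, ∫⁻ ω₂, ∫⁻ ω₃, f2 (nrm (ε + ω₁ 1) (0 + ω₂ 1) (0 + ω₃ 1)) ∂W ∂W ∂W := by
    have g3 := hev (1 - r) f1 hf1
    have s3 : ∀ ω₁ ω₂ : Path, ∫⁻ ω₃, (f1 (nrm (ε + ω₁ (1 - r)) (0 + ω₂ (1 - r)) (0 + ω₃ (1 - r))) +
        f2 (nrm (ε + ω₁ 1) (0 + ω₂ 1) (0 + ω₃ 1))) ∂W =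
        (∫⁻ ω₃, f1 (nrm (ε + ω₁ (1 - r)) (0 + ω₂ (1 - r)) (0 + ω₃ (1 - r))) ∂W) +
        ∫⁻ ω₃, f2 (nrm (ε + ω₁ 1) (0 + ω₂ 1) (0 + ω₃ 1)) ∂W := fun ω₁ ω₂ =>
      lintegral_add_left (g3.comp (by fun_prop : Measurable fun p : Path => ((ω₁, ω₂), p))) _
    simp_rw [s3]
    have g2 := g3.lintegral_prod_right' (ν := W)
    have s2 : ∀ ω₁ : Path, ∫⁻ ω₂, ((∫⁻ ω₃, f1 (nrm (ε + ω₁ (1 - r)) (0 + ω₂ (1 - r)) (0 + ω₃ (1 - r))) ∂W) +
        ∫⁻ ω₃, f2 (nrm (ε + ω₁ 1) (0 + ω₂ 1) (0 + ω₃ 1)) ∂W) ∂W =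
        (∫⁻ ω₂, ∫⁻ ω₃, f1 (nrm (ε + ω₁ (1 - r)) (0 + ω₂ (1 - r)) (0 + ω₃ (1 - r))) ∂W ∂W) +
        ∫⁻ ω₂, ∫⁻ ω₃, f2 (nrm (ε + ω₁ 1) (0 + ω₂ 1) (0 + ω₃ 1)) ∂W ∂W := fun ω₁ =>
      lintegral_add_left (g2.comp (by fun_prop : Measurable fun p : Path => (ω₁, p))) _
    simp_rw [s2]
    exact lintegral_add_left (g2.lintegral_prod_right' (ν := W)) _
  refine hmono.trans ?_
  rw [hsplit, ev3 hW (1 - r) ε 0 0 hf1, ev3 hW 1 ε 0 0 hf2]
  have h1r : 0 < 1 - r := tsub_pos_of_lt (lt_of_le_of_lt hr (by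
    rw [div_lt_iff₀ (by norm_num)]; norm_num))
  have half : (1 / 2 : ℝ≥0) ≤ 1 - r := by
    refine le_tsub_of_add_le_right ?_
    calc (1 / 2 : ℝ≥0) + r ≤ 1 / 2 + 1 / 2 := by gcongr
      _ = 1 := by norm_num
  -- the first integral
  have i1 : ∫⁻ y₁, ∫⁻ y₂, ∫⁻ y₃, f1 (nrm (ε + y₁) (0 + y₂) (0 + y₃))
      ∂(gaussianReal 0 (1 - r)) ∂(gaussianReal 0 (1 - r)) ∂(gaussianReal 0 (1 - r)) ≤
      81 * (1 + C4 * 2 + C2 * 2) := by
    have a4 := hC4 (1 - r) ε 0 0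
    have a2 := hC2 (1 - r) ε 0 0 h1r
    set γ := gaussianReal 0 (1 - r)
    rw [lint3 γ (f := fun p => ENNReal.ofReal (nrm (ε + p.1) (0 + p.2.1) (0 + p.2.2)) ^ 4) (by fun_prop)] at a4
    rw [lint3 γ (f := fun p => ENNReal.ofReal (nrm (ε + p.1) (0 + p.2.1) (0 + p.2.2)) ^ (-2 : ℝ)) (by fun_prop)] at a2
    rw [lint3 γ (f := fun p => f1 (nrm (ε + p.1) (0 + p.2.1) (0 + p.2.2))) (hf1.comp (by fun_prop))]
    simp only [f1]
    rw [lintegral_const_mul _ (by fun_prop), lintegral_add_left (by fun_prop),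
      lintegral_add_left measurable_const]
    simp only [lintegral_const, measure_univ, mul_one]
    rw [nrm_zero' ε hε.le] at a4
    gcongr
    · refine a4.trans ?_
      gcongr
      calc ENNReal.ofReal ε ^ 4 + ((1 - r : ℝ≥0) : ℝ≥0∞) ^ 2 ≤ 1 ^ 4 + 1 ^ 2 := by
            gcongr
            · exact ENNReal.ofReal_le_one.2 hε1
            · exact_mod_cast tsub_le_self
        _ = 2 := by norm_num
    · refine a2.trans ?_
      gcongr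
      rw [show (-2 : ℝ) / 2 = -1 by norm_num, ENNReal.rpow_neg_one, ENNReal.inv_le_iff_inv_le]
      calc (2 : ℝ≥0∞)⁻¹ = ((1 / 2 : ℝ≥0) : ℝ≥0∞) := by simp
        _ ≤ _ := by exact_mod_cast half
  have i2 : ∫⁻ y₁, ∫⁻ y₂, ∫⁻ y₃, f2 (nrm (ε + y₁) (0 + y₂) (0 + y₃))
      ∂(gaussianReal 0 1) ∂(gaussianReal 0 1) ∂(gaussianReal 0 1) ≤ 4 * (1 + C8) := by
    have a8 := hC8 1 ε 0 0 one_pos
    set γ := gaussianReal 0 1
    rw [lint3 γ (f := fun p => ENNReal.ofReal (nrm (ε + p.1) (0 + p.2.1) (0 + p.2.2)) ^ (-(8 / 3) : ℝ)) (by fun_prop)] at a8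
    rw [lint3 γ (f := fun p => f2 (nrm (ε + p.1) (0 + p.2.1) (0 + p.2.2))) (hf2.comp (by fun_prop))]
    simp only [f2]
    rw [lintegral_const_mul _ (by fun_prop), lintegral_add_left measurable_const]
    simp only [lintegral_const, measure_univ, mul_one]
    gcongr
    refine a8.trans (le_of_eq ?_)
    simp
  refine (add_le_add i1 i2).trans (le_of_eq ?_)
  push_cast
  ring

theorem two : S_TWO := by
  intro W hW θ K hθm hθ
  have hpr := isProb hW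
  obtain ⟨C1, hC1⟩ := first hW
  obtain ⟨C2, hC2⟩ := second hW
  refine ⟨K ^ 2 * C1 * C2, fun ε s r hε hε1 hr hr2 => ?_⟩
  have hr1 : r ≤ 1 := hr2.trans (by
    rw [div_le_iff₀ (by norm_num)]; norm_num)
  have hlm : Measurable (lam θ ε) := by
    unfold lam
    have h1 : Measurable fun ω : Path => ε + ω 1 := measurable_const.add (measurable_eval 1)
    refine Measurable.indicator ?_ (measurableSet_alive _ _)
    exact ((h1.div_const ε).ennreal_ofReal).mul (hθm.comp (h1.add_const ε))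
  have hAB : Measurable fun ω : Path => FA ε r ω * FB ε r (shift r ω) :=
    (meas_FA ε r).mul ((meas_FB ε r).comp (measurable_shift r))
  have hG : Measurable fun ω : Path => lam θ ε ω * lam θ ε (shift r ω) :=
    hlm.mul (hlm.comp (measurable_shift r))
  have e1 : ∫⁻ ω, lam θ ε (shift s ω) * lam θ ε (shift (s + r) ω) ∂W =
      ∫⁻ ω, lam θ ε ω * lam θ ε (shift r ω) ∂W := by
    conv_rhs => rw [← map_shift hW s]
    rw [lintegral_map hG (measurable_shift s)]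
    simp only [shift_shift]
  rw [e1]
  calc ∫⁻ ω, lam θ ε ω * lam θ ε (shift r ω) ∂W
      ≤ ∫⁻ ω, (K * (ENNReal.ofReal ε)⁻¹) ^ 2 * (FA ε r ω * FB ε r (shift r ω)) ∂W :=
        lintegral_mono fun ω => two_pt hθ hε hr1 ω
    _ = (K * (ENNReal.ofReal ε)⁻¹) ^ 2 * ((∫⁻ ω, FA ε r ω ∂W) * ∫⁻ ω, FB ε r ω ∂W) := by
        rw [lintegral_const_mul _ hAB, two_ind hW]
    _ ≤ (K * (ENNReal.ofReal ε)⁻¹) ^ 2 * ((ENNReal.ofReal ε * (C1 * (r : ℝ≥0∞) ^ (-(3 / 4) : ℝ))) *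
        (ENNReal.ofReal ε * C2)) := by
        gcongr
        · exact hC1 ε r hε hr hr1
        · exact hC2 ε r hε hε1 hr2
    _ = ((ENNReal.ofReal ε)⁻¹ * ENNReal.ofReal ε) ^ 2 * (K ^ 2 * C1 * C2 * (r : ℝ≥0∞) ^ (-(3 / 4) : ℝ)) := by
        ring
    _ = _ := by
        rw [ENNReal.inv_mul_cancel (by simpa using hε) ENNReal.ofReal_ne_top, one_pow, one_mul]
        push_cast
        ring

end Q297.WT
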